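import Pool.Agent.Y159.PT.Ev

/-! # The counting inequality for arbitrary ideals (after `Pool.Agent.Y159.PT.ev_sep`) -/

set_option autoImplicit false

namespace Pool.Agent.K1H79.QR

open NumberField Finset Pool.Agent.TH847.LS Pool.Agent.TH847.LG NumberField.InfinitePlace
  IntermediateField
open scoped Classical nonZeroDivisors

variable {K : Type} [Field K] [NumberField K]

/-- the counting inequality, with an abstract separation hypothesis -/
theorem ev_g {n : ℕ} (hn : Module.finrank ℚ K = n) {l : ℕ} (hl : 1 ≤ l) (N : ℕ)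
    (hN : 2 ^ n * √|(discr K : ℝ)| < N) {ι : Type} [Fintype ι]
    (P : ι → (Ideal (𝓞 K))⁰)
    (hsep : ∀ p q : ι, p ≠ q → ∀ x y : 𝓞 K, x ≠ 0 → y ≠ 0 →
      Ideal.span {x} * (P p : Ideal (𝓞 K)) ^ l = Ideal.span {y} * (P q : Ideal (𝓞 K)) ^ l →
      (∀ w : InfinitePlace K, w (y : K) ≤ (150 : ℝ) ^ l *
        (((Ideal.absNorm (P p : Ideal (𝓞 K)) : ℝ) / Ideal.absNorm (P q : Ideal (𝓞 K))) ^ ((l : ℝ) / n)) *
          w (x : K)) → False) :
    (Fintype.card ι : ℝ) * (Nat.card {c : ClassGroup (𝓞 K) // c ^ l = 1} : ℝ) ≤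
      ∑ J ∈ FI K N, (1 + Real.log ((N : ℝ) / Ideal.absNorm J)) ^ n := by
  have hn0 : 0 < n := by rw [← hn]; exact (Module.finrank_pos (R := ℚ) (M := K))
  have hnr : (0 : ℝ) < n := by exact_mod_cast hn0
  have hlr : (1 : ℝ) ≤ l := by exact_mod_cast hl
  have hA : ∀ c : {c : ClassGroup (𝓞 K) // c ^ l = 1}, ∃ (A : (Ideal (𝓞 K))⁰)
      (γ : 𝓞 K), ClassGroup.mk0 A = c.1 ∧
      (A : Ideal (𝓞 K)) ^ l = Ideal.span {γ} ∧ γ ≠ 0 ∧
      ∀ w : InfinitePlace K, |Lw w (γ : K)| ≤ 2 * l :=
    fun c => exists_rep hl c.1 c.2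
  choose A γ hA1 hA2 hA3 hA4 using hA
  have hP0 : ∀ p : ι, (0 : ℝ) < (Ideal.absNorm (P p : Ideal (𝓞 K)) : ℝ) := by
    intro p
    have : Ideal.absNorm (P p : Ideal (𝓞 K)) ≠ 0 := by
      rw [Ne, Ideal.absNorm_eq_zero_iff]
      exact nonZeroDivisors.coe_ne_zero (P p)
    exact_mod_cast Nat.pos_of_ne_zero this
  have key := pack hn N hN (ι × {c : ClassGroup (𝓞 K) // c ^ l = 1})
    (fun i => A i.2 * P i.1) (by
      rintro ⟨p, c⟩ ⟨q, c'⟩ a b ha hb hab hw
      simp only [Submonoid.coe_mul] at hab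
      have haK : (a : K) ≠ 0 := by exact_mod_cast ha
      have hbK : (b : K) ≠ 0 := by exact_mod_cast hb
      have hγK : (γ c : K) ≠ 0 := by exact_mod_cast hA3 c
      have hγK' : (γ c' : K) ≠ 0 := by exact_mod_cast hA3 c'
      have hpq : p = q := by
        by_contra hne
        -- the l-th power
        obtain ⟨x, hx⟩ : ∃ x : 𝓞 K, x = b ^ l * γ c := ⟨_, rfl⟩
        obtain ⟨y, hy⟩ : ∃ y : 𝓞 K, y = a ^ l * γ c' := ⟨_, rfl⟩
        have hx0 : x ≠ 0 := by rw [hx]; exact mul_ne_zero (pow_ne_zero _ hb) (hA3 c)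
        have hy0 : y ≠ 0 := by rw [hy]; exact mul_ne_zero (pow_ne_zero _ ha) (hA3 c')
        have hxK : (x : K) ≠ 0 := by exact_mod_cast hx0
        have hyK : (y : K) ≠ 0 := by exact_mod_cast hy0
        have e1 : Ideal.span {x} * (P p : Ideal (𝓞 K)) ^ l = Ideal.span {y} * (P q : Ideal (𝓞 K)) ^ l := by
          have e2 := congrArg (fun I => I ^ l) hab
          simp only [mul_pow, Ideal.span_singleton_pow, hA2] at e2
          rw [hx, hy, ← Ideal.span_singleton_mul_span_singleton, ← Ideal.span_singleton_mul_span_singleton]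
          calc _ = Ideal.span {b ^ l} * (Ideal.span {γ c} * (P p : Ideal (𝓞 K)) ^ l) := by ring
            _ = Ideal.span {a ^ l} * (Ideal.span {γ c'} * (P q : Ideal (𝓞 K)) ^ l) := e2.symm
            _ = _ := by ring
        -- norms
        have e3 : |((Algebra.norm ℚ (x : K) : ℚ) : ℝ)| * (Ideal.absNorm (P p : Ideal (𝓞 K)) : ℝ) ^ l =
            |((Algebra.norm ℚ (y : K) : ℚ) : ℝ)| * (Ideal.absNorm (P q : Ideal (𝓞 K)) : ℝ) ^ l := by
          have e4 := congrArg Ideal.absNorm e1
          rw [map_mul, map_mul, map_pow, map_pow, Ideal.absNorm_span_singleton,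
            Ideal.absNorm_span_singleton] at e4
          have e5 : ∀ z : 𝓞 K, |((Algebra.norm ℚ (z : K) : ℚ) : ℝ)| = (((Algebra.norm ℤ z).natAbs : ℕ) : ℝ) := by
            intro z
            rw [← Algebra.coe_norm_int, Nat.cast_natAbs]
            push_cast
            rfl
          rw [e5, e5]
          exact_mod_cast e4
        have hnx : 0 < |((Algebra.norm ℚ (x : K) : ℚ) : ℝ)| := by
          rw [abs_pos]
          have : Algebra.norm ℚ (x : K) ≠ 0 := Algebra.norm_ne_zero_iff.2 hxK
          exact_mod_cast this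
        have hny : 0 < |((Algebra.norm ℚ (y : K) : ℚ) : ℝ)| := by
          rw [abs_pos]
          have : Algebra.norm ℚ (y : K) ≠ 0 := Algebra.norm_ne_zero_iff.2 hyK
          exact_mod_cast this
        have e6 : Real.log |((Algebra.norm ℚ (y : K) : ℚ) : ℝ)| - Real.log |((Algebra.norm ℚ (x : K) : ℚ) : ℝ)| =
            l * (Real.log (Ideal.absNorm (P p : Ideal (𝓞 K)) : ℝ) -
              Real.log (Ideal.absNorm (P q : Ideal (𝓞 K)) : ℝ)) := by
          have e7 := congrArg Real.log e3
          rw [Real.log_mul hnx.ne' (pow_pos (hP0 p) l).ne', Real.log_mul hny.ne' (pow_pos (hP0 q) l).ne',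
            Real.log_pow, Real.log_pow] at e7
          linarith
        refine hsep p q hne x y hx0 hy0 e1 fun w => ?_
        -- the size at the place `w`
        have hLx : Lw w (x : K) = l * Lw w (b : K) + Lw w (γ c : K) := by
          rw [hx]
          push_cast
          rw [Lw_mul w (pow_ne_zero _ hbK) hγK, Lw_pow]
        have hLy : Lw w (y : K) = l * Lw w (a : K) + Lw w (γ c' : K) := by
          rw [hy]
          push_cast
          rw [Lw_mul w (pow_ne_zero _ haK) hγK', Lw_pow]
        have h2 := abs_lt.mp (hw w)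
        have h3 := abs_le.mp (hA4 c w)
        have h4 := abs_le.mp (hA4 c' w)
        have hL : Lw w (y : K) - Lw w (x : K) ≤ 5 * l := by
          have h5 : (l : ℝ) * (Lw w (a : K) - Lw w (b : K)) ≤ l * 1 :=
            mul_le_mul_of_nonneg_left (by linarith) (by linarith)
          rw [hLx, hLy]
          nlinarith
        unfold Lw at hL
        rw [hn] at hL
        have hwx : 0 < w (x : K) := w_pos w hxK
        have hwy : 0 < w (y : K) := w_pos w hyK
        have h150 : (5 : ℝ) ≤ Real.log 150 := by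
          rw [Real.le_log_iff_exp_le (by norm_num)]
          have h6 : Real.exp 1 < 2.7182818286 := Real.exp_one_lt_d9
          have h7 : Real.exp 5 = Real.exp 1 ^ 5 := by
            rw [← Real.exp_nat_mul]; norm_num
          rw [h7]
          have h8 : Real.exp 1 ^ 5 ≤ (2.7182818286 : ℝ) ^ 5 := by
            gcongr
          refine h8.trans ?_
          norm_num
        have hdiv : (0 : ℝ) < (Ideal.absNorm (P p : Ideal (𝓞 K)) : ℝ) / Ideal.absNorm (P q : Ideal (𝓞 K)) :=
          div_pos (hP0 p) (hP0 q)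
        refine (Real.log_le_log_iff hwy (by positivity)).mp ?_
        rw [Real.log_mul (by positivity) hwx.ne', Real.log_mul (by positivity) (by positivity), Real.log_pow,
          Real.log_rpow hdiv, Real.log_div (hP0 p).ne' (hP0 q).ne']
        have h9 : (Real.log |((Algebra.norm ℚ (y : K) : ℚ) : ℝ)|) / n -
            (Real.log |((Algebra.norm ℚ (x : K) : ℚ) : ℝ)|) / n = (l : ℝ) / n *
            (Real.log (Ideal.absNorm (P p : Ideal (𝓞 K)) : ℝ) -
              Real.log (Ideal.absNorm (P q : Ideal (𝓞 K)) : ℝ)) := by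
          rw [← sub_div, e6]
          ring
        nlinarith
      subst hpq
      have hc : c = c' := by
        have hP0 : (P p : Ideal (𝓞 K)) ≠ 0 := nonZeroDivisors.coe_ne_zero _
        have e1 : Ideal.span {a} * (A c' : Ideal (𝓞 K)) =
            Ideal.span {b} * (A c : Ideal (𝓞 K)) := by
          rw [← mul_assoc, ← mul_assoc] at hab
          exact mul_right_cancel₀ hP0 hab
        have e2 : ClassGroup.mk0 (A c') = ClassGroup.mk0 (A c) := by
          rw [ClassGroup.mk0_eq_mk0_iff]
          exact ⟨a, b, ha, hb, e1⟩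
        rw [hA1, hA1] at e2
        exact Subtype.ext e2.symm
      rw [hc])
  rw [Fintype.card_prod] at key
  rw [Nat.card_eq_fintype_card]
  push_cast at key
  exact key

end Pool.Agent.K1H79.QR
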