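import Pool.Agent.K1H79.QR.DiscR
import Pool.Agent.K1H79.QR.Ev

/-! # Products of prime ideals of a field without subfields -/

set_option autoImplicit false
set_option linter.unusedSectionVars false
set_option linter.unusedVariables false

namespace Pool.Agent.K1H79.QR

open NumberField Finset IntermediateField Pool.Agent.TH847.LG Pool.Agent.TH847.LS
open scoped Classical nonZeroDivisors

variable {L : Type} [Field L] [NumberField L]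

/-- a pair of different prime ideals above `p` -/
def Pr (p : ℕ) (𝔭 𝔭' : Ideal (𝓞 L)) : Prop :=
  p.Prime ∧ 𝔭.IsPrime ∧ 𝔭'.IsPrime ∧ ((p : ℕ) : 𝓞 L) ∈ 𝔭 ∧ ((p : ℕ) : 𝓞 L) ∈ 𝔭' ∧ 𝔭 ≠ 𝔭'

/-- the product of the chosen prime ideals above the prime factors of `m` -/
noncomputable def PP (f : ℕ → Ideal (𝓞 L)) (m : ℕ) : Ideal (𝓞 L) := ∏ p ∈ m.primeFactors, f p

theorem dvd_of_mem {p : ℕ} (hp : p.Prime) {𝔮 : Ideal (𝓞 L)} (hq : 𝔮.IsPrime)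
    (hpq : ((p : ℕ) : 𝓞 L) ∈ 𝔮) {u : ℤ} (hu : ((u : ℤ) : 𝓞 L) ∈ 𝔮) : (p : ℤ) ∣ u := by
  by_contra hcon
  have hcop : IsCoprime (p : ℤ) u := by
    rw [Int.isCoprime_iff_gcd_eq_one]
    have h1 : Int.gcd p u ∣ p := by
      have := Int.gcd_dvd_left (p : ℤ) u
      exact_mod_cast this
    rcases (Nat.dvd_prime hp).1 h1 with h | h
    · exact h
    · exfalso
      apply hcon
      have := Int.gcd_dvd_right (p : ℤ) u
      rw [h] at this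
      exact this
  obtain ⟨a, b, hab⟩ := hcop
  have h10 : ((a * p + b * u : ℤ) : 𝓞 L) ∈ 𝔮 := by
    push_cast
    exact Ideal.add_mem _ (Ideal.mul_mem_left _ _ hpq) (Ideal.mul_mem_left _ _ hu)
  rw [hab, Int.cast_one] at h10
  exact hq.ne_top ((Ideal.eq_top_iff_one _).2 h10)

theorem mem_of_dvd {p : ℕ} {𝔮 : Ideal (𝓞 L)} (hpq : ((p : ℕ) : 𝓞 L) ∈ 𝔮) {u : ℤ} (hu : (p : ℤ) ∣ u) :
    ((u : ℤ) : 𝓞 L) ∈ 𝔮 := by
  obtain ⟨k, rfl⟩ := hu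
  push_cast
  exact Ideal.mul_mem_right _ _ hpq

theorem prime_ne_bot {p : ℕ} (hp : p.Prime) {𝔮 : Ideal (𝓞 L)} (hpq : ((p : ℕ) : 𝓞 L) ∈ 𝔮) : 𝔮 ≠ ⊥ := by
  rintro rfl
  rw [Ideal.mem_bot] at hpq
  have : p = 0 := by exact_mod_cast hpq
  exact hp.ne_zero this

variable {S : Set ℕ} {f f' : ℕ → Ideal (𝓞 L)}

theorem PP_le (hS : ∀ p ∈ S, Pr p (f p) (f' p)) {m : ℕ} (hm : ∀ p ∈ m.primeFactors, p ∈ S) {p : ℕ}
    (hp : p.Prime) {𝔮 : Ideal (𝓞 L)} (hq : 𝔮.IsPrime) (hpq : ((p : ℕ) : 𝓞 L) ∈ 𝔮) (h : PP f m ≤ 𝔮) :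
    p ∈ m.primeFactors ∧ f p = 𝔮 := by
  obtain ⟨q, hqm, hqq⟩ := (hq.prod_le).1 h
  obtain ⟨h1, h2, h3, h4, h5, h6⟩ := hS q (hm q hqm)
  have h7 : (q : ℤ) ∣ (p : ℤ) := dvd_of_mem h1 hq (hqq h4) (by simpa using hpq)
  have h8 : q = p := (Nat.prime_dvd_prime_iff_eq h1 hp).1 (by exact_mod_cast h7)
  subst h8
  refine ⟨hqm, ?_⟩
  exact (h2.isMaximal (prime_ne_bot h1 h4)).eq_of_le hq.ne_top hqq

theorem sub_of_eq (hS : ∀ p ∈ S, Pr p (f p) (f' p)) {m m' : ℕ} (hm : ∀ p ∈ m.primeFactors, p ∈ S)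
    (hm' : ∀ p ∈ m'.primeFactors, p ∈ S) {l : ℕ} (hl : 1 ≤ l) {u v : ℤ} (huv : IsCoprime u v)
    (h : Ideal.span {((v : ℤ) : 𝓞 L)} * PP f m ^ l = Ideal.span {((u : ℤ) : 𝓞 L)} * PP f m' ^ l) :
    m.primeFactors ⊆ m'.primeFactors := by
  intro p hp
  by_contra hcon
  obtain ⟨h1, h2, h3, h4, h5, h6⟩ := hS p (hm p hp)
  have hnot : ∀ 𝔮 : Ideal (𝓞 L), 𝔮.IsPrime → ((p : ℕ) : 𝓞 L) ∈ 𝔮 →
      Ideal.span {((u : ℤ) : 𝓞 L)} * PP f m' ^ l ≤ 𝔮 → (p : ℤ) ∣ u := by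
    intro 𝔮 hq hpq hle
    rcases hq.mul_le.1 hle with h7 | h7
    · exact dvd_of_mem h1 hq hpq (h7 (Ideal.mem_span_singleton_self _))
    · exact absurd (PP_le hS hm' h1 hq hpq (hq.le_of_pow_le h7)).1 hcon
  by_cases hv : (p : ℤ) ∣ v
  · have h7 : (p : ℤ) ∣ u := by
      refine hnot (f' p) h3 h5 ?_
      rw [← h]
      refine Ideal.mul_le_left.trans ?_
      rw [Ideal.span_le, Set.singleton_subset_iff]
      exact mem_of_dvd h5 hv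
    have h8 := huv.isUnit_of_dvd' h7 hv
    rw [Int.isUnit_iff] at h8
    have := h1.two_le
    omega
  · have h7 : (p : ℤ) ∣ u := by
      refine hnot (f p) h2 h4 ?_
      rw [← h]
      refine Ideal.mul_le_right.trans ((Ideal.pow_le_self (Nat.one_le_iff_ne_zero.1 hl)).trans ?_)
      exact h2.prod_le.2 ⟨p, hp, le_rfl⟩
    have h8 : Ideal.span {((v : ℤ) : 𝓞 L)} * PP f m ^ l ≤ f' p := by
      rw [h]
      refine Ideal.mul_le_left.trans ?_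
      rw [Ideal.span_le, Set.singleton_subset_iff]
      exact mem_of_dvd h5 h7
    rcases h3.mul_le.1 h8 with h9 | h9
    · exact hv (dvd_of_mem h1 h3 h5 (h9 (Ideal.mem_span_singleton_self _)))
    · exact h6 (PP_le hS hm h1 h3 h5 (h3.le_of_pow_le h9)).2

theorem not_rat (hS : ∀ p ∈ S, Pr p (f p) (f' p)) {m m' : ℕ} (hm : ∀ p ∈ m.primeFactors, p ∈ S)
    (hm' : ∀ p ∈ m'.primeFactors, p ∈ S) (hsq : Squarefree m) (hsq' : Squarefree m') (hne : m ≠ m')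
    {l : ℕ} (hl : 1 ≤ l) {x y : 𝓞 L} (hx : x ≠ 0) (hy : y ≠ 0)
    (h : Ideal.span {x} * PP f m ^ l = Ideal.span {y} * PP f m' ^ l) (q : ℚ) :
    (y : L) / (x : L) ≠ (q : L) := by
  intro hq
  have hxL : (x : L) ≠ 0 := by exact_mod_cast hx
  have hyx : y * (((q.den : ℤ) : ℤ) : 𝓞 L) = x * ((q.num : ℤ) : 𝓞 L) := by
    refine RingOfIntegers.ext ?_
    show (y : L) * (((q.den : ℤ) : 𝓞 L) : L) = (x : L) * (((q.num : ℤ) : 𝓞 L) : L)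
    have h1 : ((q.den : ℕ) : L) ≠ 0 := by exact_mod_cast q.den_nz
    have h2 : (q : L) = (q.num : L) / (q.den : L) := Rat.cast_def q
    rw [h2, div_eq_div_iff hxL h1] at hq
    have h3 : ∀ z : ℤ, (((z : ℤ) : 𝓞 L) : L) = (z : L) := fun z => map_intCast (algebraMap (𝓞 L) L) z
    rw [h3, h3, Int.cast_natCast, hq, mul_comm]
  have hcop : IsCoprime q.num (q.den : ℤ) := by
    rw [Int.isCoprime_iff_gcd_eq_one]
    exact q.reduced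
  have hx0 : Ideal.span {x} ≠ 0 := by
    rw [Ne, Ideal.zero_eq_bot, Ideal.span_singleton_eq_bot]
    exact hx
  have key : Ideal.span {(((q.den : ℤ) : ℤ) : 𝓞 L)} * PP f m ^ l = Ideal.span {((q.num : ℤ) : 𝓞 L)} * PP f m' ^ l := by
    apply mul_left_cancel₀ hx0
    calc Ideal.span {x} * (Ideal.span {(((q.den : ℤ) : ℤ) : 𝓞 L)} * PP f m ^ l)
        = Ideal.span {(((q.den : ℤ) : ℤ) : 𝓞 L)} * (Ideal.span {x} * PP f m ^ l) := by ring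
      _ = Ideal.span {(((q.den : ℤ) : ℤ) : 𝓞 L)} * (Ideal.span {y} * PP f m' ^ l) := by rw [h]
      _ = (Ideal.span {y} * Ideal.span {(((q.den : ℤ) : ℤ) : 𝓞 L)}) * PP f m' ^ l := by ring
      _ = Ideal.span {x * ((q.num : ℤ) : 𝓞 L)} * PP f m' ^ l := by
        rw [Ideal.span_singleton_mul_span_singleton, hyx]
      _ = _ := by rw [← Ideal.span_singleton_mul_span_singleton, mul_assoc]
  have h1 := sub_of_eq hS hm hm' hl hcop key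
  have h2 := sub_of_eq hS hm' hm hl hcop.symm key.symm
  apply hne
  rw [← Nat.prod_primeFactors_of_squarefree hsq, ← Nat.prod_primeFactors_of_squarefree hsq',
    Finset.Subset.antisymm h1 h2]

theorem gen_of_not_rat (hns : ∀ E : IntermediateField ℚ L, E = ⊥ ∨ E = ⊤) {α : L}
    (h : ∀ q : ℚ, α ≠ (q : L)) : ℚ⟮α⟯ = ⊤ := by
  rcases hns ℚ⟮α⟯ with h1 | h1
  · exfalso
    have h2 : α ∈ ℚ⟮α⟯ := mem_adjoin_simple_self ℚ α
    rw [h1, mem_bot] at h2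
    obtain ⟨q, hq⟩ := h2
    exact h q (by rw [← hq, eq_ratCast])
  · exact h1

theorem norm_pos' (P : (Ideal (𝓞 L))⁰) : (0 : ℝ) < (Ideal.absNorm (P : Ideal (𝓞 L)) : ℝ) := by
  have : Ideal.absNorm (P : Ideal (𝓞 L)) ≠ 0 := by
    rw [Ne, Ideal.absNorm_eq_zero_iff]
    exact nonZeroDivisors.coe_ne_zero P
  exact_mod_cast Nat.pos_of_ne_zero this

theorem alg {n l : ℕ} (hn0 : (0 : ℝ) < n) {a b : ℝ} (ha0 : 0 < a) (hb0 : 0 < b) :
    (2 * ((150 : ℝ) ^ l * (a / b) ^ ((l : ℝ) / n))) ^ (n * (n - 1)) * (b ^ l) ^ (2 * (n - 1)) =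
      (2 * 150 ^ l) ^ (n * (n - 1)) * (a * b) ^ (l * (n - 1)) := by
  have hdiv : 0 < a / b := div_pos ha0 hb0
  have h4 : ((a / b) ^ ((l : ℝ) / n)) ^ n = (a / b) ^ l := by
    rw [← Real.rpow_natCast ((a / b) ^ ((l : ℝ) / n)) n, ← Real.rpow_mul hdiv.le,
      div_mul_cancel₀ _ hn0.ne', Real.rpow_natCast]
  generalize (a / b) ^ ((l : ℝ) / n) = c at h4
  have h5 : (2 * ((150 : ℝ) ^ l * c)) ^ (n * (n - 1)) = (2 * 150 ^ l) ^ (n * (n - 1)) * (c ^ n) ^ (n - 1) := by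
    rw [← mul_assoc, mul_pow, ← pow_mul c n (n - 1)]
  rw [h5, h4, mul_assoc]
  congr 1
  rw [← pow_mul, ← pow_mul, div_pow, div_mul_eq_mul_div, div_eq_iff (by positivity), mul_pow,
    mul_assoc, ← pow_add]
  congr 2
  ring

/-- the separation property -/
theorem sep {n : ℕ} (hn2 : 2 ≤ n) (hn : Module.finrank ℚ L = n) (hns : ∀ E : IntermediateField ℚ L, E = ⊥ ∨ E = ⊤)
    {l : ℕ} (P Q : (Ideal (𝓞 L))⁰) {x y : 𝓞 L} (hx : x ≠ 0)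
    (hrat : ∀ q : ℚ, (y : L) / (x : L) ≠ (q : L))
    (h : Ideal.span {x} * (P : Ideal (𝓞 L)) ^ l = Ideal.span {y} * (Q : Ideal (𝓞 L)) ^ l)
    (hw : ∀ w : InfinitePlace L, w (y : L) ≤ (150 : ℝ) ^ l *
        (((Ideal.absNorm (P : Ideal (𝓞 L)) : ℝ) / Ideal.absNorm (Q : Ideal (𝓞 L))) ^ ((l : ℝ) / n)) *
          w (x : L)) :
    |(discr L : ℝ)| ≤ (2 * 150 ^ l) ^ (n * (n - 1)) *
      ((Ideal.absNorm (P : Ideal (𝓞 L)) : ℝ) * Ideal.absNorm (Q : Ideal (𝓞 L))) ^ (l * (n - 1)) := by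
  have hn0 : (0 : ℝ) < n := by exact_mod_cast (by omega : 0 < n)
  have hxL : (x : L) ≠ 0 := by exact_mod_cast hx
  have ha0 := norm_pos' P
  have hb0 := norm_pos' Q
  have hgen := gen_of_not_rat hns hrat
  have h0 : ∀ c ∈ ((Q ^ l : (Ideal (𝓞 L))⁰) : Ideal (𝓞 L)), ∃ d : 𝓞 L, (y : L) / (x : L) * (c : L) = (d : L) := by
    intro c hc
    have hc' : c ∈ (Q : Ideal (𝓞 L)) ^ l := by
      rw [SubmonoidClass.coe_pow] at hc
      exact hc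
    have h2 : y * c ∈ Ideal.span {y} * (Q : Ideal (𝓞 L)) ^ l :=
      Ideal.mul_mem_mul (Ideal.mem_span_singleton_self _) hc'
    rw [← h] at h2
    obtain ⟨d, hd⟩ := Ideal.mem_span_singleton'.1 (Ideal.mul_le_left h2)
    refine ⟨d, ?_⟩
    rw [div_mul_eq_mul_div, div_eq_iff hxL]
    exact_mod_cast hd.symm
  have hw' : ∀ w : InfinitePlace L, w ((y : L) / (x : L)) ≤ (150 : ℝ) ^ l *
        (((Ideal.absNorm (P : Ideal (𝓞 L)) : ℝ) / Ideal.absNorm (Q : Ideal (𝓞 L))) ^ ((l : ℝ) / n)) := by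
    intro w
    have hwx : 0 < w (x : L) := InfinitePlace.pos_iff.2 hxL
    rw [map_div₀, div_le_iff₀ hwx]
    exact hw w
  have h1 := disc_bound_frac hn _ hgen hw' (Q ^ l) h0
  have h3 : ((Ideal.absNorm ((Q ^ l : (Ideal (𝓞 L))⁰) : Ideal (𝓞 L)) : ℕ) : ℝ) =
      (Ideal.absNorm (Q : Ideal (𝓞 L)) : ℝ) ^ l := by
    rw [SubmonoidClass.coe_pow, map_pow]
    push_cast
    rfl
  rw [h3, alg hn0 ha0 hb0] at h1
  exact h1

theorem PP_ne (hS : ∀ p ∈ S, Pr p (f p) (f' p)) {m : ℕ} (hm : ∀ p ∈ m.primeFactors, p ∈ S) :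
    PP f m ∈ (Ideal (𝓞 L))⁰ := by
  rw [mem_nonZeroDivisors_iff_ne_zero]
  unfold PP
  rw [Finset.prod_ne_zero_iff]
  intro p hp
  obtain ⟨h1, h2, h3, h4, h5, h6⟩ := hS p (hm p hp)
  exact prime_ne_bot h1 h4

theorem norm_PP (hS : ∀ p ∈ S, Pr p (f p) (f' p)) {h : ℕ} (hSn : ∀ p ∈ S, Ideal.absNorm (f p) ≤ p ^ h)
    {m : ℕ} (hm : ∀ p ∈ m.primeFactors, p ∈ S) (hsq : Squarefree m) : Ideal.absNorm (PP f m) ≤ m ^ h := by
  unfold PP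
  rw [map_prod]
  calc ∏ p ∈ m.primeFactors, Ideal.absNorm (f p) ≤ ∏ p ∈ m.primeFactors, p ^ h :=
        Finset.prod_le_prod (fun _ _ => Nat.zero_le _) fun p hp => hSn p (hm p hp)
    _ = m ^ h := by rw [Finset.prod_pow, Nat.prod_primeFactors_of_squarefree hsq]

/-- many squarefree integers composed of good primes -/
theorem count {n : ℕ} (hn2 : 2 ≤ n) (hn : Module.finrank ℚ L = n) (hns : ∀ E : IntermediateField ℚ L, E = ⊥ ∨ E = ⊤)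
    {l : ℕ} (hl : 1 ≤ l) (hS : ∀ p ∈ S, Pr p (f p) (f' p)) {h : ℕ} (hSn : ∀ p ∈ S, Ideal.absNorm (f p) ≤ p ^ h)
    (M : Finset ℕ) {Y : ℝ} (hY : ∀ m ∈ M, Squarefree m ∧ (m : ℝ) ≤ Y ∧ ∀ p ∈ m.primeFactors, p ∈ S)
    (hD : (2 * 150 ^ l) ^ (n * (n - 1)) * Y ^ (2 * h * l * (n - 1)) < |(discr L : ℝ)|)
    (N : ℕ) (hN : 2 ^ n * √|(discr L : ℝ)| < N) :
    (M.card : ℝ) * (Nat.card {c : ClassGroup (𝓞 L) // c ^ l = 1} : ℝ) ≤
      ∑ J ∈ FI L N, (1 + Real.log ((N : ℝ) / Ideal.absNorm J)) ^ n := by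
  have h1 := ev_g hn hl N hN (ι := {m // m ∈ M}) (fun m => ⟨PP f m.1, PP_ne hS (hY m.1 m.2).2.2⟩) (by
    intro p q hpq x y hx hy hxy hw
    have h2 := not_rat hS (hY p.1 p.2).2.2 (hY q.1 q.2).2.2 (hY p.1 p.2).1 (hY q.1 q.2).1
      (fun h => hpq (Subtype.ext h)) hl hx hy hxy
    have h3 := sep hn2 hn hns ⟨PP f p.1, PP_ne hS (hY p.1 p.2).2.2⟩ ⟨PP f q.1, PP_ne hS (hY q.1 q.2).2.2⟩
      hx h2 hxy hw
    have h4 : ∀ m ∈ M, ((Ideal.absNorm (PP f m) : ℕ) : ℝ) ≤ Y ^ h := by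
      intro m hm
      have h5 := norm_PP hS hSn (hY m hm).2.2 (hY m hm).1
      calc ((Ideal.absNorm (PP f m) : ℕ) : ℝ) ≤ ((m ^ h : ℕ) : ℝ) := by exact_mod_cast h5
        _ = (m : ℝ) ^ h := by push_cast; rfl
        _ ≤ Y ^ h := by
          gcongr
          exact (hY m hm).2.1
    have hY0 : 0 ≤ Y := (Nat.cast_nonneg _).trans (hY p.1 p.2).2.1
    refine absurd h3 (not_le.2 (lt_of_le_of_lt ?_ hD))
    refine mul_le_mul_of_nonneg_left ?_ (by positivity)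
    calc (((Ideal.absNorm (PP f p.1) : ℕ) : ℝ) * ((Ideal.absNorm (PP f q.1) : ℕ) : ℝ)) ^ (l * (n - 1))
        ≤ (Y ^ h * Y ^ h) ^ (l * (n - 1)) := by
          gcongr
          · exact h4 p.1 p.2
          · exact h4 q.1 q.2
      _ = Y ^ (2 * h * l * (n - 1)) := by ring)
  rw [Fintype.card_coe] at h1
  exact h1

end Pool.Agent.K1H79.QR
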