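import Mathlib

/-! # Integers composed of the primes of a given set -/

set_option autoImplicit false

namespace Pool.Agent.K1H79.QR

open Finset

open Classical in
/-- the integers up to `z` composed of the primes of `E` -/
noncomputable def Cc (E : Finset ℕ) (z : ℕ) : Finset ℕ :=
  (Icc 1 z).filter (fun a => ∀ p : ℕ, p.Prime → p ∣ a → p ∈ E)

open Classical in
/-- the squarefree ones -/
noncomputable def Ms (E : Finset ℕ) (z : ℕ) : Finset ℕ :=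
  (Icc 1 z).filter (fun a => Squarefree a ∧ ∀ p : ℕ, p.Prime → p ∣ a → p ∈ E)

theorem mem_Cc {E : Finset ℕ} {z a : ℕ} : a ∈ Cc E z ↔ 1 ≤ a ∧ a ≤ z ∧ ∀ p : ℕ, p.Prime → p ∣ a → p ∈ E := by
  classical
  unfold Cc
  rw [mem_filter, mem_Icc, and_assoc]

theorem mem_Ms {E : Finset ℕ} {z a : ℕ} : a ∈ Ms E z ↔ 1 ≤ a ∧ a ≤ z ∧ Squarefree a ∧
    ∀ p : ℕ, p.Prime → p ∣ a → p ∈ E := by
  classical
  unfold Ms
  rw [mem_filter, mem_Icc, and_assoc]

theorem one_mem_Cc {E : Finset ℕ} {z : ℕ} (hz : 1 ≤ z) : 1 ∈ Cc E z := by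
  rw [mem_Cc]
  exact ⟨le_rfl, hz, fun p hp h => absurd (Nat.dvd_one.1 h) hp.one_lt.ne'⟩

theorem Cc_le (E : Finset ℕ) (z : ℕ) : (Cc E z).card ≤ z := by
  classical
  unfold Cc
  calc _ ≤ (Icc 1 z).card := card_filter_le _ _
    _ = z := by rw [Nat.card_Icc]; omega

theorem Ms_mono (E : Finset ℕ) {z z' : ℕ} (h : z ≤ z') : (Ms E z).card ≤ (Ms E z').card := by
  refine card_le_card fun a ha => ?_
  rw [mem_Ms] at ha ⊢
  exact ⟨ha.1, ha.2.1.trans h, ha.2.2⟩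

theorem cube (E : Finset ℕ) {y X : ℕ} (hE : ∀ p ∈ E, p ≤ y) (hX : X ≤ y ^ 2) (hy : 1 ≤ y) :
    (Cc E X).card ≤ (Cc E y).card ^ 3 := by
  have h : Cc E X ⊆ ((Cc E y) ×ˢ ((Cc E y) ×ˢ (Cc E y))).image (fun t => t.1 * (t.2.1 * t.2.2)) := by
    intro a ha
    rw [mem_Cc] at ha
    obtain ⟨h1, h2, h3⟩ := ha
    have hdiv : ∀ b : ℕ, b ∣ a → ∀ p : ℕ, p.Prime → p ∣ b → p ∈ E := fun b hb p hp hpb =>
      h3 p hp (hpb.trans hb)
    have hne : (a.divisors.filter (fun d => d ≤ y)).Nonempty := ⟨1, by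
      rw [mem_filter, Nat.mem_divisors]
      exact ⟨⟨one_dvd _, by omega⟩, hy⟩⟩
    obtain ⟨d, hd, hmax⟩ := exists_max_image _ id hne
    rw [mem_filter, Nat.mem_divisors] at hd
    obtain ⟨⟨hda, -⟩, hdy⟩ := hd
    obtain ⟨e, rfl⟩ := hda
    have hd1 : 1 ≤ d := Nat.pos_of_ne_zero (by rintro rfl; simp at h1)
    have he1 : 1 ≤ e := Nat.pos_of_ne_zero (by rintro rfl; simp at h1)
    rw [mem_image]
    rcases Nat.eq_or_lt_of_le he1 with he | he
    · refine ⟨(d, (1, 1)), ?_, by rw [← he]; ring⟩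
      rw [mem_product, mem_product]
      exact ⟨mem_Cc.2 ⟨hd1, hdy, hdiv d (dvd_mul_right _ _)⟩, one_mem_Cc hy, one_mem_Cc hy⟩
    · obtain ⟨p, hp, b, rfl⟩ := Nat.exists_prime_and_dvd (n := e) (by omega)
      have hb1 : 1 ≤ b := Nat.pos_of_ne_zero (by rintro rfl; simp at h1)
      have hpE : p ∈ E := h3 p hp ⟨d * b, by ring⟩
      have hlt : y < d * p := by
        by_contra hcon
        push Not at hcon
        have h4 := hmax (d * p) (by
          rw [mem_filter, Nat.mem_divisors]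
          exact ⟨⟨⟨b, by ring⟩, by omega⟩, hcon⟩)
        simp only [id] at h4
        have := hp.two_le
        nlinarith
      have hby : b ≤ y := by
        by_contra hcon
        push Not at hcon
        have h5 : y * y < (d * p) * b := by nlinarith
        have h6 : d * (p * b) = (d * p) * b := by ring
        rw [h6] at h2
        nlinarith
      refine ⟨(d, (p, b)), ?_, rfl⟩
      rw [mem_product, mem_product]
      refine ⟨mem_Cc.2 ⟨hd1, hdy, hdiv d (dvd_mul_right _ _)⟩, mem_Cc.2 ⟨hp.one_lt.le, hE p hpE, ?_⟩,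
        mem_Cc.2 ⟨hb1, hby, ?_⟩⟩
      · intro q hq hqp
        rw [(Nat.prime_dvd_prime_iff_eq hq hp).1 hqp]
        exact hpE
      · exact hdiv b ⟨d * p, by ring⟩
  calc (Cc E X).card ≤ _ := card_le_card h
    _ ≤ ((Cc E y) ×ˢ ((Cc E y) ×ˢ (Cc E y))).card := card_image_le
    _ = (Cc E y).card ^ 3 := by rw [card_product, card_product]; ring

theorem sq_step (E : Finset ℕ) (z : ℕ) : (Cc E z).card ≤ (Ms E z).card * (Cc E (Nat.sqrt z)).card := by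
  have h : Cc E z ⊆ ((Ms E z) ×ˢ (Cc E (Nat.sqrt z))).image (fun t => t.2 ^ 2 * t.1) := by
    intro a ha
    rw [mem_Cc] at ha
    obtain ⟨h1, h2, h3⟩ := ha
    obtain ⟨s, f, hfs, hs⟩ := Nat.sq_mul_squarefree a
    have hs1 : 1 ≤ s := Nat.pos_of_ne_zero (by rintro rfl; simp at hfs; omega)
    have hf1 : 1 ≤ f := Nat.pos_of_ne_zero (by rintro rfl; simp at hfs; omega)
    have hsa : s ∣ a := ⟨f ^ 2, by rw [← hfs]; ring⟩
    have hfa : f ∣ a := ⟨f * s, by rw [← hfs]; ring⟩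
    rw [mem_image]
    refine ⟨(s, f), ?_, hfs⟩
    rw [mem_product]
    refine ⟨mem_Ms.2 ⟨hs1, (Nat.le_of_dvd (by omega) hsa).trans h2, hs, fun p hp hd => h3 p hp (hd.trans hsa)⟩,
      mem_Cc.2 ⟨hf1, ?_, fun p hp hd => h3 p hp (hd.trans hfa)⟩⟩
    rw [Nat.le_sqrt, ← sq]
    calc f ^ 2 ≤ f ^ 2 * s := Nat.le_mul_of_pos_right _ hs1
      _ ≤ z := by rw [hfs]; exact h2
  calc (Cc E z).card ≤ _ := card_le_card h
    _ ≤ ((Ms E z) ×ˢ (Cc E (Nat.sqrt z))).card := card_image_le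
    _ = _ := card_product _ _

theorem sq_iter (E : Finset ℕ) (k : ℕ) : ∀ z : ℕ, 1 ≤ z →
    ((Cc E z).card : ℝ) ≤ ((Ms E z).card : ℝ) ^ k * (z : ℝ) ^ (1 / 2 ^ k : ℝ) := by
  induction k with
  | zero =>
    intro z hz
    rw [pow_zero, one_mul, pow_zero, div_one, Real.rpow_one]
    exact_mod_cast Cc_le E z
  | succ k ih =>
    intro z hz
    have h1 : ((Cc E z).card : ℝ) ≤ ((Ms E z).card : ℝ) * ((Cc E (Nat.sqrt z)).card : ℝ) := by
      exact_mod_cast sq_step E z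
    have hs1 : 1 ≤ Nat.sqrt z := by rw [Nat.le_sqrt]; omega
    have h2 := ih (Nat.sqrt z) hs1
    have h3 : ((Ms E (Nat.sqrt z)).card : ℝ) ≤ ((Ms E z).card : ℝ) := by
      exact_mod_cast Ms_mono E (Nat.sqrt_le_self z)
    have h4 : ((Nat.sqrt z : ℕ) : ℝ) ≤ (z : ℝ) ^ (1 / 2 : ℝ) := by
      rw [← Real.sqrt_eq_rpow]
      exact Real.nat_sqrt_le_real_sqrt
    have h5 : ((Nat.sqrt z : ℕ) : ℝ) ^ (1 / 2 ^ k : ℝ) ≤ (z : ℝ) ^ (1 / 2 ^ (k + 1) : ℝ) := by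
      calc ((Nat.sqrt z : ℕ) : ℝ) ^ (1 / 2 ^ k : ℝ) ≤ ((z : ℝ) ^ (1 / 2 : ℝ)) ^ (1 / 2 ^ k : ℝ) := by
            apply Real.rpow_le_rpow (Nat.cast_nonneg _) h4 (by positivity)
        _ = _ := by
            rw [← Real.rpow_mul (Nat.cast_nonneg _)]
            congr 1
            rw [pow_succ]
            field_simp
    calc ((Cc E z).card : ℝ) ≤ ((Ms E z).card : ℝ) * ((Cc E (Nat.sqrt z)).card : ℝ) := h1
      _ ≤ ((Ms E z).card : ℝ) * (((Ms E (Nat.sqrt z)).card : ℝ) ^ k * ((Nat.sqrt z : ℕ) : ℝ) ^ (1 / 2 ^ k : ℝ)) := by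
          gcongr
      _ ≤ ((Ms E z).card : ℝ) * (((Ms E z).card : ℝ) ^ k * (z : ℝ) ^ (1 / 2 ^ (k + 1) : ℝ)) := by
          gcongr
      _ = _ := by rw [pow_succ]; ring

open Classical in
/-- the members without prime factors dividing `T` -/
noncomputable def Bs (P : ℕ → Prop) (T z : ℕ) : Finset ℕ :=
  (Icc 1 z).filter (fun a => Squarefree a ∧ ∀ p : ℕ, p.Prime → p ∣ a → ¬ p ∣ T ∧ P p)

theorem mem_Bs {P : ℕ → Prop} {T z a : ℕ} : a ∈ Bs P T z ↔ 1 ≤ a ∧ a ≤ z ∧ Squarefree a ∧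
    ∀ p : ℕ, p.Prime → p ∣ a → ¬ p ∣ T ∧ P p := by
  classical
  unfold Bs
  rw [mem_filter, mem_Icc, and_assoc]

theorem coprime_step (M : Finset ℕ) {P : ℕ → Prop} {T z : ℕ} (hT : T ≠ 0)
    (hM : ∀ a ∈ M, 1 ≤ a ∧ a ≤ z ∧ Squarefree a ∧ ∀ p : ℕ, p.Prime → p ∣ a → ¬ p ∣ T → P p) :
    M.card ≤ T.divisors.card * (Bs P T z).card := by
  have h : M ⊆ (T.divisors ×ˢ (Bs P T z)).image (fun t => t.1 * t.2) := by
    intro a ha
    obtain ⟨h1, h2, h3, h4⟩ := hM a ha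
    obtain ⟨g, hg⟩ : ∃ g, g = Nat.gcd a T := ⟨_, rfl⟩
    obtain ⟨b, hb⟩ : g ∣ a := hg ▸ Nat.gcd_dvd_left a T
    have hgT : g ∣ T := hg ▸ Nat.gcd_dvd_right a T
    have hb1 : 1 ≤ b := Nat.pos_of_ne_zero (by rintro rfl; rw [mul_zero] at hb; omega)
    have hba : b ∣ a := ⟨g, by rw [hb]; ring⟩
    rw [mem_image]
    refine ⟨(g, b), ?_, hb.symm⟩
    rw [mem_product, Nat.mem_divisors]
    refine ⟨⟨hgT, hT⟩, mem_Bs.2 ⟨hb1, (Nat.le_of_dvd (by omega) hba).trans h2,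
      h3.squarefree_of_dvd hba, fun p hp hpb => ?_⟩⟩
    have hpT : ¬ p ∣ T := by
      intro hpT
      have h5 : p ∣ g := by
        rw [hg]
        exact Nat.dvd_gcd (hpb.trans hba) hpT
      have h6 : p * p ∣ a := by
        rw [hb]
        exact Nat.mul_dvd_mul h5 hpb
      have h7 := h3 p h6
      exact hp.not_isUnit h7
    exact ⟨hpT, h4 p hp (hpb.trans hba) hpT⟩
  calc M.card ≤ _ := card_le_card h
    _ ≤ (T.divisors ×ˢ (Bs P T z)).card := card_image_le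
    _ = _ := card_product _ _

end Pool.Agent.K1H79.QR
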