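import Pool.Agent.TH847.LG.Disc

/-! # The discriminant and a generator whose denominator is a given ideal -/

set_option autoImplicit false

namespace Pool.Agent.K1H79.QR

open NumberField Finset IntermediateField Pool.Agent.TH847.LG
open scoped Classical nonZeroDivisors

variable {K : Type} [Field K] [NumberField K]

theorem pow_mem_pow' {J : FractionalIdeal (𝓞 K)⁰ K} {a : K} (ha : a ∈ J) (j : ℕ) : a ^ j ∈ J ^ j := by
  induction j with
  | zero =>
    rw [pow_zero, pow_zero]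
    exact FractionalIdeal.one_mem_one _
  | succ j ih =>
    rw [pow_succ, pow_succ]
    exact FractionalIdeal.mul_mem_mul ih ha

theorem disc_bound_frac {n : ℕ} (hn : Module.finrank ℚ K = n) (α : K)
    (hz : ℚ⟮α⟯ = ⊤) {B : ℝ} (hw : ∀ w : InfinitePlace K, w α ≤ B) (𝔟 : (Ideal (𝓞 K))⁰)
    (hb : ∀ b ∈ (𝔟 : Ideal (𝓞 K)), ∃ c : 𝓞 K, α * (b : K) = (c : K)) :
    |(discr K : ℝ)| ≤ (2 * B) ^ (n * (n - 1)) * (Ideal.absNorm (𝔟 : Ideal (𝓞 K)) : ℝ) ^ (2 * (n - 1)) := by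
  have hint : IsIntegral ℚ α := Algebra.IsIntegral.isIntegral _
  have htop : Algebra.adjoin ℚ {α} = ⊤ := by
    rw [← IntermediateField.adjoin_simple_toSubalgebra_of_isAlgebraic hint.isAlgebraic, hz]
    rfl
  let pb : PowerBasis ℚ K := PowerBasis.ofAdjoinEqTop' hint htop
  have hgen : pb.gen = α := PowerBasis.ofAdjoinEqTop'_gen hint htop
  have hdim : pb.dim = n := by rw [← pb.finrank, hn]
  -- the fractional ideal
  let J : (FractionalIdeal (𝓞 K)⁰ K)ˣ := (FractionalIdeal.mk0 K 𝔟)⁻¹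
  have hb0 : ((𝔟 : Ideal (𝓞 K)) : FractionalIdeal (𝓞 K)⁰ K) ≠ 0 := by
    rw [Ne, FractionalIdeal.coeIdeal_eq_zero]
    exact nonZeroDivisors.coe_ne_zero 𝔟
  have hJ : (J : FractionalIdeal (𝓞 K)⁰ K) = ((𝔟 : Ideal (𝓞 K)) : FractionalIdeal (𝓞 K)⁰ K)⁻¹ := by
    rw [Units.val_inv_eq_inv_val, FractionalIdeal.coe_mk0]
  have hαJ : α ∈ (J : FractionalIdeal (𝓞 K)⁰ K) := by
    rw [hJ, FractionalIdeal.mem_inv_iff hb0]
    intro y hy
    obtain ⟨b, hbm, rfl⟩ := (FractionalIdeal.mem_coeIdeal _).1 hy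
    obtain ⟨c, hc⟩ := hb b hbm
    have hc' : α * algebraMap (𝓞 K) K b = algebraMap (𝓞 K) K c := hc
    rw [hc']
    exact FractionalIdeal.mem_one_iff _ |>.2 ⟨c, rfl⟩
  have h1J : (1 : K) ∈ (J : FractionalIdeal (𝓞 K)⁰ K) := by
    rw [hJ, FractionalIdeal.mem_inv_iff hb0]
    intro y hy
    obtain ⟨b, hbm, rfl⟩ := (FractionalIdeal.mem_coeIdeal _).1 hy
    rw [one_mul]
    exact FractionalIdeal.mem_one_iff _ |>.2 ⟨b, rfl⟩
  let I : (FractionalIdeal (𝓞 K)⁰ K)ˣ := J ^ (n - 1)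
  have hmem : ∀ j : ℕ, j ≤ n - 1 → α ^ j ∈ (I : FractionalIdeal (𝓞 K)⁰ K) := by
    intro j hj
    have h1 : α ^ j * 1 ^ (n - 1 - j) ∈ (J : FractionalIdeal (𝓞 K)⁰ K) ^ j * (J : FractionalIdeal (𝓞 K)⁰ K) ^ (n - 1 - j) :=
      FractionalIdeal.mul_mem_mul (pow_mem_pow' hαJ j) (pow_mem_pow' h1J _)
    rw [one_pow, mul_one, ← pow_add, Nat.add_sub_cancel' hj] at h1
    change α ^ j ∈ ((J ^ (n - 1) : (FractionalIdeal (𝓞 K)⁰ K)ˣ) : FractionalIdeal (𝓞 K)⁰ K)
    rw [Units.val_pow_eq_pow_val]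
    exact h1
  -- bases
  have hc : Fintype.card (Module.Free.ChooseBasisIndex ℤ (𝓞 K)) = pb.dim := by
    rw [← Module.finrank_eq_card_basis (RingOfIntegers.basis K), RingOfIntegers.rank, pb.finrank]
  let e : Module.Free.ChooseBasisIndex ℤ (𝓞 K) ≃ Fin pb.dim := Fintype.equivFinOfCardEq hc
  have hc' : Fintype.card (Module.Free.ChooseBasisIndex ℤ I) = pb.dim := by
    rw [← Module.finrank_eq_card_basis (basisOfFractionalIdeal K I), pb.finrank]
  let e' : Module.Free.ChooseBasisIndex ℤ I ≃ Fin pb.dim := Fintype.equivFinOfCardEq hc'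
  let b : Module.Basis (Fin pb.dim) ℚ K := (basisOfFractionalIdeal K I).reindex e'
  have hMex : ∀ i j : Fin pb.dim, ∃ m : ℤ, (m : ℚ) = b.toMatrix pb.basis i j := by
    intro i j
    rw [Module.Basis.toMatrix_apply, pb.coe_basis, hgen]
    change ∃ m : ℤ, (m : ℚ) = ((basisOfFractionalIdeal K I).reindex e').repr (α ^ (j : ℕ)) i
    rw [Module.Basis.repr_reindex_apply]
    have h1 : α ^ (j : ℕ) ∈ Submodule.span ℤ (Set.range (basisOfFractionalIdeal K I)) := by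
      rw [mem_span_basisOfFractionalIdeal]
      apply hmem
      have := j.2
      omega
    have h2 := ((basisOfFractionalIdeal K I).mem_span_iff_repr_mem ℤ _).1 h1 (e'.symm i)
    obtain ⟨m, hm⟩ := h2
    exact ⟨m, by simpa using hm⟩
  choose M hM' using hMex
  have hM : b.toMatrix pb.basis = (Matrix.of M).map (Int.castRingHom ℚ) := by
    ext i j
    rw [← hM' i j]
    rfl
  -- the discriminant of b
  have hdb : Algebra.discr ℚ (b : Fin pb.dim → K) =
      ((Ideal.absNorm (𝔟 : Ideal (𝓞 K)) : ℚ)⁻¹ ^ (n - 1)) ^ 2 * (discr K : ℚ) := by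
    let b' : Module.Basis (Fin pb.dim) ℚ K := (integralBasis K).reindex e
    have h2 := Algebra.discr_of_matrix_vecMul (A := ℚ) (b' : Fin pb.dim → K)
      (b'.toMatrix b)
    rw [Module.Basis.toMatrix_map_vecMul] at h2
    rw [h2]
    have h4 : Algebra.discr ℚ (b' : Fin pb.dim → K) = (discr K : ℚ) := by
      rw [coe_discr]
      have := Algebra.discr_reindex ℚ (integralBasis K) e
      rw [← this]
      congr 1
      exact Module.Basis.coe_reindex _ _
    rw [h4]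
    congr 1
    have h5 := det_basisOfFractionalIdeal_eq_absNorm K I (e.trans e'.symm)
    have h6 : |(b'.toMatrix b).det| = FractionalIdeal.absNorm I.1 := by
      rw [← h5, Module.Basis.det_apply]
      have h7 : (b'.toMatrix b) = ((integralBasis K).toMatrix
        ((basisOfFractionalIdeal K I).reindex (e.trans e'.symm).symm)).reindex e e := by
        ext i j
        simp only [Module.Basis.toMatrix_apply, Matrix.reindex_apply, Matrix.submatrix_apply,
          Module.Basis.repr_reindex_apply, Module.Basis.reindex_apply, b, b']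
        rw [Equiv.symm_symm, Equiv.trans_apply, Equiv.apply_symm_apply]
      rw [h7, Matrix.det_reindex_self]
    have h8 : FractionalIdeal.absNorm I.1 = (Ideal.absNorm (𝔟 : Ideal (𝓞 K)) : ℚ)⁻¹ ^ (n - 1) := by
      change FractionalIdeal.absNorm ((J ^ (n - 1) : (FractionalIdeal (𝓞 K)⁰ K)ˣ) : FractionalIdeal (𝓞 K)⁰ K) = _
      rw [Units.val_pow_eq_pow_val, map_pow, hJ, map_inv₀, FractionalIdeal.coeIdeal_absNorm]
    rw [← sq_abs, h6, h8]
  have h1 : Algebra.discr ℚ pb.basis = ((Matrix.of M).det : ℚ) ^ 2 *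
      (((Ideal.absNorm (𝔟 : Ideal (𝓞 K)) : ℚ)⁻¹ ^ (n - 1)) ^ 2 * (discr K : ℚ)) := by
    have h2 := Algebra.discr_of_matrix_vecMul (A := ℚ) (b : Fin pb.dim → K)
      (b.toMatrix pb.basis)
    rw [Module.Basis.toMatrix_map_vecMul] at h2
    rw [h2, hM]
    have h3 : ((Matrix.of M).map (Int.castRingHom ℚ)).det = ((Matrix.of M).det : ℚ) := by
      have := (RingHom.map_det (Int.castRingHom ℚ) (Matrix.of M))
      rw [RingHom.mapMatrix_apply] at this
      rw [← this]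
      rfl
    rw [h3, hdb]
  have hne : (Matrix.of M).det ≠ 0 := by
    intro h0
    have h2 := Algebra.discr_not_zero_of_basis ℚ pb.basis
    rw [h1, h0] at h2
    simp at h2
  generalize (Matrix.of M).det = m at h1 hne
  have hN0 : (0 : ℝ) < (Ideal.absNorm (𝔟 : Ideal (𝓞 K)) : ℝ) := by
    have : Ideal.absNorm (𝔟 : Ideal (𝓞 K)) ≠ 0 := by
      rw [Ne, Ideal.absNorm_eq_zero_iff]
      exact nonZeroDivisors.coe_ne_zero 𝔟
    exact_mod_cast Nat.pos_of_ne_zero this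
  set T : ℝ := (Ideal.absNorm (𝔟 : Ideal (𝓞 K)) : ℝ) with hT
  have h2 : |(discr K : ℝ)| ≤ ‖algebraMap ℚ ℂ (Algebra.discr ℚ pb.basis)‖ * T ^ (2 * (n - 1)) := by
    have h3 : ‖algebraMap ℚ ℂ (Algebra.discr ℚ pb.basis)‖ =
        |(m : ℝ)| ^ 2 * ((T⁻¹ ^ (n - 1)) ^ 2 * |(discr K : ℝ)|) := by
      rw [h1]
      have e1 : algebraMap ℚ ℂ ((m : ℚ) ^ 2 *
          (((Ideal.absNorm (𝔟 : Ideal (𝓞 K)) : ℚ)⁻¹ ^ (n - 1)) ^ 2 * (discr K : ℚ))) =
          (((m : ℝ) ^ 2 * ((T⁻¹ ^ (n - 1)) ^ 2 * (discr K : ℝ)) : ℝ) : ℂ) := by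
        rw [eq_ratCast]
        push_cast
        rfl
      rw [e1, Complex.norm_real, Real.norm_eq_abs, abs_mul, abs_mul, abs_pow,
        abs_of_nonneg (by positivity : (0 : ℝ) ≤ (T⁻¹ ^ (n - 1)) ^ 2)]
    rw [h3]
    have h4 : 1 ≤ |(m : ℝ)| ^ 2 := by
      have : (1 : ℝ) ≤ |(m : ℝ)| := by exact_mod_cast Int.one_le_abs hne
      nlinarith
    have h5 := abs_nonneg (discr K : ℝ)
    have h6 : (T⁻¹ ^ (n - 1)) ^ 2 * T ^ (2 * (n - 1)) = 1 := by
      rw [← pow_mul, mul_comm (n - 1) 2, ← mul_pow, inv_mul_cancel₀ hN0.ne', one_pow]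
    calc |(discr K : ℝ)| ≤ |(m : ℝ)| ^ 2 * |(discr K : ℝ)| := by nlinarith
      _ = |(m : ℝ)| ^ 2 * |(discr K : ℝ)| * ((T⁻¹ ^ (n - 1)) ^ 2 * T ^ (2 * (n - 1))) := by
        rw [h6, mul_one]
      _ = _ := by ring
  refine h2.trans ?_
  refine mul_le_mul_of_nonneg_right ?_ (by positivity)
  have hcard : Fintype.card (K →ₐ[ℚ] ℂ) = pb.dim := by
    rw [AlgHom.card, pb.finrank]
  let f : Fin pb.dim ≃ (K →ₐ[ℚ] ℂ) := (Fintype.equivFinOfCardEq hcard).symm
  rw [Algebra.discr_powerBasis_eq_prod ℚ ℂ pb f, norm_prod]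
  have hconj : ∀ i, ‖f i pb.gen‖ ≤ B := by
    intro i
    rw [hgen]
    have := hw (InfinitePlace.mk ((f i : K →ₐ[ℚ] ℂ) : K →+* ℂ))
    rw [InfinitePlace.apply] at this
    exact this
  calc ∏ i : Fin pb.dim, ‖∏ j ∈ Finset.Ioi i, (f j pb.gen - f i pb.gen) ^ 2‖
      ≤ ∏ i : Fin pb.dim, (2 * B) ^ (2 * (Finset.Ioi i).card) := by
        refine Finset.prod_le_prod (fun i _ => norm_nonneg _) fun i _ => ?_
        rw [norm_prod]
        calc ∏ j ∈ Finset.Ioi i, ‖(f j pb.gen - f i pb.gen) ^ 2‖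
            ≤ ∏ j ∈ Finset.Ioi i, (2 * B) ^ 2 := by
              refine Finset.prod_le_prod (fun j _ => norm_nonneg _) fun j _ => ?_
              rw [norm_pow]
              have h3 : ‖f j pb.gen - f i pb.gen‖ ≤ 2 * B := by
                refine (norm_sub_le _ _).trans ?_
                linarith [hconj i, hconj j]
              exact pow_le_pow_left₀ (norm_nonneg _) h3 2
          _ = (2 * B) ^ (2 * (Finset.Ioi i).card) := by
              rw [Finset.prod_const, ← pow_mul]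
    _ = (2 * B) ^ (n * (n - 1)) := by
        rw [Finset.prod_pow_eq_pow_sum, sum_card_Ioi, hdim]

end Pool.Agent.K1H79.QR
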