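import Pool.Agent.Y159.PT.Ev
import Pool.Agent.TH847.LG.EV

/-! # Basic definitions of the projects `QR` and `RF` (moved here to keep the imports light) -/

set_option autoImplicit false

namespace Pool.Agent.K1H79.QR

open NumberField Filter Pool.Agent.TH847.LS Pool.Agent.TH847.LG

/-- a field without proper subfields -/
def NoSub (L : Type) [Field L] [NumberField L] : Prop := ∀ E : IntermediateField ℚ L, E = ⊥ ∨ E = ⊤

theorem disc_one (L : Type) [Field L] [NumberField L] : 1 ≤ |(discr L : ℝ)| := by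
  have h1 : 1 ≤ |discr L| := Int.one_le_abs (discr_ne_zero L)
  exact_mod_cast h1

/-- a bound with exponent `e` for the fields of degree `n` with a given property -/
def SavE (n l : ℕ) (e : ℝ) (Q : ∀ (L : Type) [Field L] [NumberField L], Prop) : Prop :=
  ∃ C : ℝ, 0 < C ∧ ∀ (L : Type) [Field L] [NumberField L], Module.finrank ℚ L = n → Q L →
    (Nat.card {c : ClassGroup (𝓞 L) // c ^ l = 1} : ℝ) ≤ C * |(discr L : ℝ)| ^ e

theorem SavE.mono {n l : ℕ} {e : ℝ} {Q Q' : ∀ (L : Type) [Field L] [NumberField L], Prop} (h : SavE n l e Q)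
    (hQ : ∀ (L : Type) [Field L] [NumberField L], Module.finrank ℚ L = n → Q' L → Q L) : SavE n l e Q' := by
  obtain ⟨C, hC, h1⟩ := h
  exact ⟨C, hC, fun L _ _ hn hL => h1 L hn (hQ L hn hL)⟩

theorem SavE.exp {n l : ℕ} {e e' : ℝ} {Q : ∀ (L : Type) [Field L] [NumberField L], Prop} (h : SavE n l e Q)
    (he : e ≤ e') : SavE n l e' Q := by
  obtain ⟨C, hC, h1⟩ := h
  refine ⟨C, hC, fun L _ _ hn hL => (h1 L hn hL).trans ?_⟩
  exact mul_le_mul_of_nonneg_left (Real.rpow_le_rpow_of_exponent_le (disc_one L) he) hC.le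

theorem SavE.or {n l : ℕ} {e : ℝ} {Q Q' : ∀ (L : Type) [Field L] [NumberField L], Prop} (h : SavE n l e Q)
    (h' : SavE n l e Q') : SavE n l e (fun L _ _ => Q L ∨ Q' L) := by
  obtain ⟨C, hC, h1⟩ := h
  obtain ⟨C', hC', h2⟩ := h'
  refine ⟨max C C', lt_of_lt_of_le hC (le_max_left _ _), ?_⟩
  intro L _ _ hn hL
  have hD := disc_one L
  rcases hL with hL | hL
  · exact (h1 L hn hL).trans (mul_le_mul_of_nonneg_right (le_max_left _ _) (by positivity))
  · exact (h2 L hn hL).trans (mul_le_mul_of_nonneg_right (le_max_right _ _) (by positivity))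

theorem SavE.small' (n l : ℕ) (hn2 : 2 ≤ n) (e B : ℝ) :
    SavE n l e (fun L _ _ => |(discr L : ℝ)| < B) := by
  obtain ⟨C1, hC10, hC1⟩ := Pool.Agent.Y159.PT.W_bound n hn2 1 one_pos
  refine ⟨C1 * (max B 1) ^ (|3 / 2 - e|), by positivity, ?_⟩
  intro L _ _ hn hB
  obtain ⟨K, hK, hW⟩ := hC1 L hn
  obtain ⟨D, hD⟩ : ∃ D : ℝ, D = |(discr L : ℝ)| := ⟨_, rfl⟩
  have hDn : ((discr L).natAbs : ℝ) = D := by
    rw [hD, Nat.cast_natAbs]
    push_cast
    rfl
  have hD1 : 1 ≤ D := by rw [hD]; exact disc_one L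
  have hD0 : 0 < D := by linarith
  rw [hDn] at hW
  rw [← hD] at hB ⊢
  have h2 := class_le_n hn K hK
  have h3 : (Nat.card {c : ClassGroup (𝓞 L) // c ^ l = 1} : ℝ) ≤ (Nat.card (ClassGroup (𝓞 L)) : ℝ) := by
    exact_mod_cast Nat.card_le_card_of_injective _ Subtype.val_injective
  refine h3.trans (h2.trans (hW.trans ?_))
  have h4 : D ^ (1 / 2 + 1 : ℝ) = D ^ (3 / 2 - e) * D ^ e := by
    rw [← Real.rpow_add hD0]
    congr 1
    ring
  have h5 : D ^ (3 / 2 - e) ≤ (max B 1) ^ (|3 / 2 - e|) := by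
    calc D ^ (3 / 2 - e) ≤ D ^ |3 / 2 - e| := Real.rpow_le_rpow_of_exponent_le hD1 (le_abs_self _)
      _ ≤ (max B 1) ^ (|3 / 2 - e|) := Real.rpow_le_rpow hD0.le (hB.le.trans (le_max_left _ _)) (abs_nonneg _)
  calc C1 * D ^ (1 / 2 + 1 : ℝ) = C1 * D ^ (3 / 2 - e) * D ^ e := by rw [h4]; ring
    _ ≤ C1 * (max B 1) ^ (|3 / 2 - e|) * D ^ e := by gcongr

end Pool.Agent.K1H79.QR
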