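import Pool.Agent.K1H79.QR.Fin

/-! # Torsion in the class groups of fields whose discriminant has a smooth or a small squarefree part,
final statement -/

set_option autoImplicit false

namespace Pool.Agent.K1H79.QR

open NumberField Filter

/-- the threshold -/
noncomputable def tau (n l : ℕ) : ℝ := tt n / wt n l

theorem tau_pos {n l : ℕ} (hn2 : 2 ≤ n) (hl : 1 ≤ l) : 0 < tau n l :=
  div_pos (lt_of_lt_of_le one_pos (tt_one n)) (wt_pos hn2 hl)

/-- small squarefree part -/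
theorem sav_burgess (n l : ℕ) (hn2 : 2 ≤ n) (hl : 1 ≤ l) {η u : ℝ} (hη : 0 < η) (hu : 0 < u) (hu1 : u ≤ 1 / 2) :
    Sav n l (fun L _ _ => NoSub L ∧ ∃ d f : ℤ, discr L = d * f ^ 2 ∧ Squarefree d.natAbs ∧
      |(discr L : ℝ)| ^ η ≤ |(d : ℝ)| ∧ |(d : ℝ)| ≤ |(discr L : ℝ)| ^ (4 * tau n l * (1 - u))) := by
  have hwr := wt_pos hn2 hl
  have ht1 := tt_one n
  have ht0 : 0 < tt n := by linarith
  obtain ⟨δ, P0, hδ, hδ1, hbur⟩ := burgess_csh (u / 12) (by positivity)
  have h1 := sav_csh n l hn2 hl (θ := 1 / 4 + u / 12) (δ := δ) (κ := tt n / (1 + u / 3)) (η := η) (ε := u ^ 2 / 2)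
    (by positivity) (by linarith) hδ hδ1 (by positivity) (by
      rw [div_lt_iff₀ (by positivity)]
      nlinarith) hη (by positivity) (by nlinarith)
  obtain ⟨D0, hD0⟩ := eventually_atTop.1 ((tendsto_rpow_atTop hη).eventually_ge_atTop P0)
  refine ((Sav.small n l hn2 D0).or h1).mono ?_
  rintro L _ _ hn ⟨hns, d, f, hdf, hsq, hηd, hd⟩
  rcases lt_or_ge |(discr L : ℝ)| D0 with hlt | hge
  · exact Or.inl hlt
  · refine Or.inr ⟨hns, d, f, hdf, hsq, hηd, hbur d ((hD0 _ hge).trans hηd) hsq, ?_⟩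
    have hD1 := disc_one L
    have hDpos : 0 < |(discr L : ℝ)| := by linarith
    have hθ : (1 / 4 + u / 12) / (tt n / (1 + u / 3)) = (1 + u / 3) ^ 2 / (4 * tt n) := by
      field_simp
      ring
    calc |(d : ℝ)| ^ ((1 / 4 + u / 12) / (tt n / (1 + u / 3)))
        ≤ (|(discr L : ℝ)| ^ (4 * tau n l * (1 - u))) ^ ((1 / 4 + u / 12) / (tt n / (1 + u / 3))) :=
          Real.rpow_le_rpow (abs_nonneg _) hd (by positivity)
      _ = |(discr L : ℝ)| ^ ((4 * tau n l * (1 - u)) * ((1 + u / 3) ^ 2 / (4 * tt n))) := by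
          rw [← Real.rpow_mul hDpos.le, hθ]
      _ ≤ |(discr L : ℝ)| ^ ((1 - 2 * (u ^ 2 / 2)) / wt n l) := by
          apply Real.rpow_le_rpow_of_exponent_le hD1
          have h2 : (4 * tau n l * (1 - u)) * ((1 + u / 3) ^ 2 / (4 * tt n)) =
              ((1 - u) * (1 + u / 3) ^ 2) / wt n l := by
            unfold tau
            field_simp
          rw [h2]
          apply div_le_div_of_nonneg_right _ hwr.le
          nlinarith [mul_pos hu hu, mul_pos (mul_pos hu hu) hu]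

/-- smooth squarefree part -/
theorem sav_smooth (n l : ℕ) (hn2 : 2 ≤ n) (hl : 1 ≤ l) {η u : ℝ} (hη : 0 < η) (hu : 0 < u) (hu1 : u ≤ 1 / 2) :
    Sav n l (fun L _ _ => NoSub L ∧ ∃ d f : ℤ, discr L = d * f ^ 2 ∧ Squarefree d.natAbs ∧
      |(discr L : ℝ)| ^ η ≤ |(d : ℝ)| ∧ |(discr L : ℝ)| ^ (4 * tau n l * (1 - u / 4)) ≤ |(d : ℝ)| ∧
      |(d : ℝ)| ≤ |(discr L : ℝ)| ∧
      ∀ p : ℕ, p.Prime → (p : ℤ) ∣ d → (p : ℝ) ≤ |(discr L : ℝ)| ^ (tau n l * (1 - u))) := by
  have hwr := wt_pos hn2 hl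
  have ht1 := tt_one n
  have ht0 : 0 < tt n := by linarith
  have hτ := tau_pos hn2 hl
  obtain ⟨g, hg⟩ : ∃ g : ℝ, g = tau n l * u / 8 := ⟨_, rfl⟩
  have hg0 : 0 < g := by rw [hg]; positivity
  obtain ⟨K, hK⟩ := exists_nat_gt (1 / g)
  -- the statement at a grid point
  have key : ∀ i : ℕ, Sav n l (fun L _ _ => (2 * g ≤ i * g ∧ (i * g : ℝ) ≤ 1 / 3) ∧ NoSub L ∧
      ∃ d f : ℤ, discr L = d * f ^ 2 ∧ Squarefree d.natAbs ∧ |(discr L : ℝ)| ^ η ≤ |(d : ℝ)| ∧
      |(d : ℝ)| ^ (i * g : ℝ) ≤ |(discr L : ℝ)| ^ (tau n l * (1 - u / 2)) ∧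
      ∀ p : ℕ, p.Prime → (p : ℤ) ∣ d → (p : ℝ) ≤ |(d : ℝ)| ^ (i * g - g)) := by
    intro i
    by_cases hi : 2 * g ≤ i * g ∧ (i * g : ℝ) ≤ 1 / 3
    swap
    · exact ⟨1, 1, one_pos, one_pos, fun L _ _ _ hL => absurd hL.1 hi⟩
    obtain ⟨hi1, hi2⟩ := hi
    have hig : 0 < (i * g : ℝ) := by linarith
    obtain ⟨δ', P0, hδ', hcs⟩ := Pool.Agent.H568.GR.cs' (i * g) g hg0 (by linarith) (by linarith)
    obtain ⟨δ, hδ⟩ : ∃ δ : ℝ, δ = min 1 δ' := ⟨_, rfl⟩
    have hδ0 : 0 < δ := by rw [hδ]; exact lt_min one_pos hδ'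
    have hδ1 : δ ≤ 1 := by rw [hδ]; exact min_le_left _ _
    have hδ2 : δ ≤ δ' := by rw [hδ]; exact min_le_right _ _
    have h1 := sav_csh n l hn2 hl (θ := i * g) (δ := δ) (κ := tt n / (1 + u / 4)) (η := η) (ε := u / 8)
      hig hi2 hδ0 hδ1 (by positivity) (by
        rw [div_lt_iff₀ (by positivity)]
        nlinarith) hη (by positivity) (by linarith)
    obtain ⟨D0, hD0⟩ := eventually_atTop.1 ((tendsto_rpow_atTop hη).eventually_ge_atTop (max P0 1))
    refine ((Sav.small n l hn2 D0).or h1).mono ?_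
    rintro L _ _ hn ⟨-, hns, d, f, hdf, hsq, hηd, hd, hsm⟩
    rcases lt_or_ge |(discr L : ℝ)| D0 with hlt | hge
    · exact Or.inl hlt
    · have hPd : max P0 1 ≤ |(d : ℝ)| := (hD0 _ hge).trans hηd
      have hd1 : 1 ≤ |(d : ℝ)| := (le_max_right _ _).trans hPd
      have hcsh : CSH d δ (i * g) := by
        intro x
        -- the odd part
        obtain ⟨a, q, ha, hq, hDq⟩ : ∃ a q : ℕ, a ≤ 3 ∧ Odd q ∧ d.natAbs = 2 ^ a * q := by
          rcases Nat.even_or_odd d.natAbs with h | h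
          · obtain ⟨k, hk⟩ := h.two_dvd
            refine ⟨1, k, by norm_num, ?_, by rw [pow_one, hk]⟩
            by_contra hcon
            rw [Nat.not_odd_iff_even] at hcon
            obtain ⟨j, hj⟩ := hcon.two_dvd
            have h4 : 2 * 2 ∣ d.natAbs := ⟨j, by rw [hk, hj]; ring⟩
            have := hsq 2 h4
            exact absurd (Nat.isUnit_iff.mp this) (by norm_num)
          · exact ⟨0, d.natAbs, by norm_num, h, by rw [pow_zero, one_mul]⟩
        have hqs : Squarefree q := hsq.squarefree_of_dvd ⟨2 ^ a, by rw [hDq]; ring⟩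
        refine (hcs d a q ((le_max_left _ _).trans hPd) ha hq hqs hDq (fun p hp hpq => ?_) x).trans ?_
        · exact hsm p hp (Int.natCast_dvd.2 (hpq.trans ⟨2 ^ a, by rw [hDq]; ring⟩))
        · refine mul_le_mul_of_nonneg_right ?_ (by positivity)
          exact Real.rpow_le_rpow_of_exponent_le hd1 (by linarith)
      refine Or.inr ⟨hns, d, f, hdf, hsq, hηd, hcsh, ?_⟩
      have hD1 := disc_one L
      have hDpos : 0 < |(discr L : ℝ)| := by linarith
      have hθ : (i * g) / (tt n / (1 + u / 4)) = (i * g) * ((1 + u / 4) / tt n) := by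
        field_simp
      calc |(d : ℝ)| ^ ((i * g) / (tt n / (1 + u / 4))) = (|(d : ℝ)| ^ (i * g : ℝ)) ^ ((1 + u / 4) / tt n) := by
            rw [hθ, Real.rpow_mul (abs_nonneg _)]
        _ ≤ (|(discr L : ℝ)| ^ (tau n l * (1 - u / 2))) ^ ((1 + u / 4) / tt n) :=
            Real.rpow_le_rpow (by positivity) hd (by positivity)
        _ = |(discr L : ℝ)| ^ ((tau n l * (1 - u / 2)) * ((1 + u / 4) / tt n)) := by
            rw [← Real.rpow_mul hDpos.le]
        _ ≤ |(discr L : ℝ)| ^ ((1 - 2 * (u / 8)) / wt n l) := by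
            apply Real.rpow_le_rpow_of_exponent_le hD1
            have h2 : (tau n l * (1 - u / 2)) * ((1 + u / 4) / tt n) =
                ((1 - u / 2) * (1 + u / 4)) / wt n l := by
              unfold tau
              field_simp
            rw [h2]
            apply div_le_div_of_nonneg_right _ hwr.le
            nlinarith
  refine ((Sav.small n l hn2 2).or (Sav.fin key K)).mono ?_
  rintro L _ _ hn ⟨hns, d, f, hdf, hsq, hηd, hbig, hdD, hsm⟩
  rcases lt_or_ge |(discr L : ℝ)| 2 with hlt | hge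
  · exact Or.inl hlt
  · right
    obtain ⟨D, hD⟩ : ∃ D : ℝ, D = |(discr L : ℝ)| := ⟨_, rfl⟩
    obtain ⟨P, hP⟩ : ∃ P : ℝ, P = |(d : ℝ)| := ⟨_, rfl⟩
    rw [← hD, ← hP] at hηd hbig hdD
    rw [← hD] at hsm hge
    have hD0 : 0 < D := by linarith
    have hD1 : 1 < D := by linarith
    have hlD : 0 < Real.log D := Real.log_pos hD1
    have hP1 : 1 < P := by
      refine lt_of_lt_of_le ?_ hηd
      exact Real.one_lt_rpow hD1 hη
    have hP0 : 0 < P := by linarith
    have hlP : 0 < Real.log P := Real.log_pos hP1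
    -- the exponent
    obtain ⟨θ, hθ⟩ : ∃ θ : ℝ, θ = tau n l * (1 - u / 2) * Real.log D / Real.log P := ⟨_, rfl⟩
    have hPθ : P ^ θ = D ^ (tau n l * (1 - u / 2)) := by
      rw [Real.rpow_def_of_pos hP0, Real.rpow_def_of_pos hD0, hθ]
      congr 1
      field_simp
    have hlogPD : Real.log P ≤ Real.log D := Real.log_le_log hP0 hdD
    have hlogbig : 4 * tau n l * (1 - u / 4) * Real.log D ≤ Real.log P := by
      have := Real.log_le_log (by positivity) hbig
      rwa [Real.log_rpow hD0] at this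
    have hθ1 : tau n l * (1 - u / 2) ≤ θ := by
      rw [hθ, le_div_iff₀ hlP]
      apply mul_le_mul_of_nonneg_left hlogPD
      have : 0 ≤ 1 - u / 2 := by linarith
      positivity
    have hθ2 : θ ≤ 1 / 4 := by
      rw [hθ, div_le_iff₀ hlP]
      have h3 : tau n l * (1 - u / 2) * Real.log D ≤ tau n l * (1 - u / 4) * Real.log D := by
        apply mul_le_mul_of_nonneg_right _ hlD.le
        apply mul_le_mul_of_nonneg_left _ hτ.le
        linarith
      linarith
    -- the grid point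
    obtain ⟨i, hi⟩ : ∃ i : ℕ, i = ⌊θ / g⌋₊ := ⟨_, rfl⟩
    have hθ0 : 0 < θ := lt_of_lt_of_le (mul_pos hτ (by linarith)) hθ1
    have hi1 : (i * g : ℝ) ≤ θ := by
      rw [← le_div_iff₀ hg0, hi]
      exact Nat.floor_le (by positivity)
    have hi2 : θ - g < i * g := by
      have h3 : θ / g < i + 1 := by rw [hi]; exact Nat.lt_floor_add_one _
      rw [div_lt_iff₀ hg0] at h3
      linarith
    have hiK : i < K := by
      have h3 : (i : ℝ) < K := by
        refine lt_of_le_of_lt ?_ hK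
        rw [le_div_iff₀ hg0]
        linarith
      exact_mod_cast h3
    have hgu : 8 * g = tau n l * u := by rw [hg]; ring
    refine ⟨i, hiK, ⟨?_, by linarith⟩, hns, d, f, hdf, hsq, ?_, ?_, ?_⟩
    · -- `2 g ≤ i g`
      have h3 : 3 * g ≤ θ := by
        refine le_trans ?_ hθ1
        have h4 : tau n l * u ≤ tau n l * (1 / 2) := mul_le_mul_of_nonneg_left hu1 hτ.le
        have h5 : tau n l * (1 - u / 2) = tau n l - tau n l * u / 2 := by ring
        rw [h5, ← hgu]
        rw [← hgu] at h4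
        linarith
      linarith
    · rw [← hD, ← hP]
      exact hηd
    · rw [← hD, ← hP, ← hPθ]
      exact Real.rpow_le_rpow_of_exponent_le hP1.le hi1
    · intro p hp hpd
      rw [← hP]
      refine (hsm p hp hpd).trans ?_
      -- `D ^ (τ (1 - u)) ≤ P ^ (i g - g)`
      have h3 : D ^ (tau n l * (1 - u)) = P ^ (θ * ((1 - u) / (1 - u / 2))) := by
        rw [Real.rpow_mul hP0.le, hPθ, ← Real.rpow_mul hD0.le]
        congr 1
        have h9 : (1 - u / 2) ≠ 0 := by
          have : 0 < 1 - u / 2 := by linarith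
          exact this.ne'
        have h10 : (1 - u / 2) * ((1 - u) / (1 - u / 2)) = 1 - u := by
          rw [mul_div_assoc']
          exact mul_div_cancel_left₀ _ h9
        rw [mul_assoc, h10]
      rw [h3]
      apply Real.rpow_le_rpow_of_exponent_le hP1.le
      have h4 : 0 < 1 - u / 2 := by linarith
      have h5 : θ * ((1 - u) / (1 - u / 2)) = θ - θ * (u / 2) / (1 - u / 2) := by
        have e : 1 - u = (1 - u / 2) - u / 2 := by ring
        rw [e, sub_div, div_self h4.ne']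
        ring
      have h6 : 2 * g ≤ θ * (u / 2) / (1 - u / 2) := by
        rw [le_div_iff₀ h4]
        have h7 : tau n l * (1 - u / 2) * (u / 2) ≤ θ * (u / 2) := mul_le_mul_of_nonneg_right hθ1 (by positivity)
        have h8 : tau n l * (1 - u / 2) * (u / 2) = 4 * g * (1 - u / 2) := by
          have : tau n l * (1 - u / 2) * (u / 2) = (tau n l * u) / 2 * (1 - u / 2) := by ring
          rw [this, ← hgu]
          ring
        nlinarith
      rw [h5]
      linarith

/-- the squarefree part of an integer -/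
theorem exists_sqf (d : ℤ) (hd : d ≠ 0) : ∃ d' g : ℤ, d = d' * g ^ 2 ∧ Squarefree d'.natAbs := by
  obtain ⟨s, f, hfs, hs⟩ := Nat.sq_mul_squarefree d.natAbs
  rcases Int.natAbs_eq d with h | h
  · refine ⟨s, f, ?_, by simpa using hs⟩
    rw [h, ← hfs]
    push_cast
    ring
  · refine ⟨-s, f, ?_, by simpa using hs⟩
    rw [h, ← hfs]
    push_cast
    ring

/-- **the final statement** -/
theorem final (n l : ℕ) (hn2 : 2 ≤ n) (hl : 1 ≤ l) {ε : ℝ} (hε : 0 < ε) :
    Sav n l (fun L _ _ => NoSub L ∧ (Even n ∨ ¬ IsSquare (discr L)) ∧ ∃ d f : ℤ, discr L = d * f ^ 2 ∧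
      (|(d : ℝ)| ≤ |(discr L : ℝ)| ^ (4 * tau n l - ε) ∨
        ∀ p : ℕ, p.Prime → (p : ℤ) ∣ d → (p : ℝ) ≤ |(discr L : ℝ)| ^ (tau n l - ε))) := by
  have hτ := tau_pos hn2 hl
  obtain ⟨u, hu⟩ : ∃ u : ℝ, u = min (1 / 2) (ε / (4 * tau n l)) := ⟨_, rfl⟩
  have hu0 : 0 < u := by rw [hu]; exact lt_min (by norm_num) (by positivity)
  have hu1 : u ≤ 1 / 2 := by rw [hu]; exact min_le_left _ _
  have hu2 : 4 * tau n l * u ≤ ε := by
    have h1 : u ≤ ε / (4 * tau n l) := by rw [hu]; exact min_le_right _ _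
    rw [le_div_iff₀ (by positivity)] at h1
    linarith
  obtain ⟨δ0, η, C0, hδ0, hη, hC0, hall⟩ := Pool.Agent.K1H79.TOS.all2 n l hn2 hl
  have hA : Sav n l (fun L _ _ => NoSub L ∧ (Even n ∨ ¬ IsSquare (discr L)) ∧ ∃ d f : ℤ,
      discr L = d * f ^ 2 ∧ |(d : ℝ)| ≤ |(discr L : ℝ)| ^ η) := by
    refine ⟨δ0, C0, hδ0, hC0, ?_⟩
    rintro L _ _ hn ⟨hns, hev, hdf⟩
    exact hall.2.2.2 L hn hns hev hdf
  have hB := sav_burgess n l hn2 hl (η := η) (u := u / 4) hη (by positivity) (by linarith)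
  have hS := sav_smooth n l hn2 hl (η := η) (u := u) hη hu0 hu1
  refine (hA.or (hB.or hS)).mono ?_
  rintro L _ _ hn ⟨hns, hev, d, f, hdf, hcond⟩
  have hDz := discr_ne_zero L
  have hd0 : d ≠ 0 := by
    rintro rfl
    rw [zero_mul] at hdf
    exact hDz hdf
  have hf0 : f ≠ 0 := by
    rintro rfl
    apply hDz
    rw [hdf]
    ring
  obtain ⟨d', g, hdg, hsq⟩ := exists_sqf d hd0
  have hg0 : g ≠ 0 := by
    rintro rfl
    apply hd0
    rw [hdg]
    ring
  have hD1 := disc_one L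
  have hdf' : discr L = d' * (g * f) ^ 2 := by
    rw [hdf, hdg]
    ring
  have hd'd : |(d' : ℝ)| ≤ |(d : ℝ)| := by
    rw [hdg]
    push_cast
    rw [abs_mul, abs_pow, sq_abs]
    apply le_mul_of_one_le_right (abs_nonneg _)
    have : (1 : ℤ) ≤ g ^ 2 := by
      have := sq_pos_of_ne_zero hg0
      omega
    exact_mod_cast this
  have hd'D : |(d' : ℝ)| ≤ |(discr L : ℝ)| := by
    refine hd'd.trans ?_
    rw [hdf]
    push_cast
    rw [abs_mul, abs_pow, sq_abs]
    apply le_mul_of_one_le_right (abs_nonneg _)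
    have : (1 : ℤ) ≤ f ^ 2 := by
      have := sq_pos_of_ne_zero hf0
      omega
    exact_mod_cast this
  rcases le_or_gt |(d' : ℝ)| (|(discr L : ℝ)| ^ η) with h1 | h1
  · exact Or.inl ⟨hns, hev, d', g * f, hdf', h1⟩
  · right
    rcases le_or_gt |(d' : ℝ)| (|(discr L : ℝ)| ^ (4 * tau n l * (1 - u / 4))) with h2 | h2
    · exact Or.inl ⟨hns, d', g * f, hdf', hsq, h1.le, h2⟩
    · right
      refine ⟨hns, d', g * f, hdf', hsq, h1.le, h2.le, hd'D, ?_⟩
      rcases hcond with h3 | h3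
      · exfalso
        have h4 : |(discr L : ℝ)| ^ (4 * tau n l - ε) ≤ |(discr L : ℝ)| ^ (4 * tau n l * (1 - u / 4)) := by
          apply Real.rpow_le_rpow_of_exponent_le hD1
          have : 0 < tau n l * u := mul_pos hτ hu0
          nlinarith
        linarith
      · intro p hp hpd
        refine (h3 p hp (by rw [hdg]; exact Dvd.dvd.mul_right hpd _)).trans ?_
        apply Real.rpow_le_rpow_of_exponent_le hD1
        have : 0 < tau n l * u := mul_pos hτ hu0
        nlinarith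

end Pool.Agent.K1H79.QR
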