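import Pool.Agent.K1H79.QR.Minus
import Pool.Agent.TH408.GR.Mnb

/-! # Many squarefree integers composed of primes with symbol `-1`, in long ranges -/

set_option autoImplicit false

namespace Pool.Agent.K1H79.QR

open Finset Filter

theorem inv_sq_tail (K : ℕ) (hK : 1 ≤ K) (n : ℕ) : ∑ c ∈ Ioc K (K + n), (1 : ℝ) / (c : ℝ) ^ 2 ≤ 1 / K - 1 / (K + n) := by
  induction n with
  | zero => simp
  | succ n ih =>
    rw [← Nat.add_assoc, ← Finset.insert_Ioc_right_eq_Ioc_add_one (by omega), Finset.sum_insert (by simp)]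
    have h1 : (0 : ℝ) < K + n := by positivity
    have h2 : (1 : ℝ) / (((K + n + 1 : ℕ) : ℝ)) ^ 2 ≤ 1 / (K + n) - 1 / (K + n + 1) := by
      push_cast
      rw [div_sub_div _ _ h1.ne' (by positivity), div_le_div_iff₀ (by positivity) (by positivity)]
      nlinarith
    push_cast at h2 ⊢
    have h3 : (K : ℝ) + (n + 1) = K + n + 1 := by ring
    rw [h3]
    linarith

/-- the sum of the reciprocals of the composed integers, in terms of the squarefree ones -/
theorem recip_sq (E : Finset ℕ) (X K : ℕ) (hK : 1 ≤ K) {U : ℝ} (hU : 0 < U) :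
    ∑ a ∈ (Cc E X).filter (fun a : ℕ => U < (a : ℝ)), (1 : ℝ) / a ≤
      K * (((Ms E X).card : ℝ) / U) + (1 / K) * (1 + Real.log X) := by
  classical
  -- decompose `a = c ^ 2 * b`
  have hsub : (Cc E X).filter (fun a : ℕ => U < (a : ℝ)) ⊆
      ((Icc 1 X ×ˢ Ms E X).filter (fun t => U < ((t.1 ^ 2 * t.2 : ℕ) : ℝ))).image (fun t => t.1 ^ 2 * t.2) := by
    intro a ha
    rw [mem_filter, mem_Cc] at ha
    obtain ⟨⟨h1, h2, h3⟩, h4⟩ := ha
    obtain ⟨s, f, hfs, hs⟩ := Nat.sq_mul_squarefree a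
    have hs1 : 1 ≤ s := Nat.pos_of_ne_zero (by rintro rfl; simp at hfs; omega)
    have hf1 : 1 ≤ f := Nat.pos_of_ne_zero (by rintro rfl; simp at hfs; omega)
    have hsa : s ∣ a := ⟨f ^ 2, by rw [← hfs]; ring⟩
    have hfa : f ∣ a := ⟨f * s, by rw [← hfs]; ring⟩
    rw [mem_image]
    refine ⟨(f, s), ?_, hfs⟩
    rw [mem_filter, mem_product, mem_Icc]
    refine ⟨⟨⟨hf1, (Nat.le_of_dvd (by omega) hfa).trans h2⟩,
      mem_Ms.2 ⟨hs1, (Nat.le_of_dvd (by omega) hsa).trans h2, hs, fun p hp hd => h3 p hp (hd.trans hsa)⟩⟩, ?_⟩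
    simp only
    rw [hfs]
    exact h4
  have h1 : ∑ a ∈ (Cc E X).filter (fun a : ℕ => U < (a : ℝ)), (1 : ℝ) / a ≤
      ∑ t ∈ (Icc 1 X ×ˢ Ms E X).filter (fun t => U < ((t.1 ^ 2 * t.2 : ℕ) : ℝ)),
        (1 : ℝ) / ((t.1 ^ 2 * t.2 : ℕ) : ℝ) := by
    refine (sum_le_sum_of_subset_of_nonneg hsub fun _ _ _ => by positivity).trans ?_
    exact Finset.sum_image_le_of_nonneg (fun _ _ => by positivity)
  refine h1.trans ?_
  rw [← sum_filter_add_sum_filter_not _ (fun t : ℕ × ℕ => t.1 ≤ K)]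
  refine add_le_add ?_ ?_
  · -- small `c`
    have h2 : ∀ t ∈ ((Icc 1 X ×ˢ Ms E X).filter (fun t => U < ((t.1 ^ 2 * t.2 : ℕ) : ℝ))).filter
        (fun t : ℕ × ℕ => t.1 ≤ K), (1 : ℝ) / ((t.1 ^ 2 * t.2 : ℕ) : ℝ) ≤ 1 / U := by
      intro t ht
      rw [mem_filter, mem_filter] at ht
      exact one_div_le_one_div_of_le hU ht.1.2.le
    refine (sum_le_sum h2).trans ?_
    rw [sum_const, nsmul_eq_mul]
    have h3 : (((Icc 1 X ×ˢ Ms E X).filter (fun t => U < ((t.1 ^ 2 * t.2 : ℕ) : ℝ))).filter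
        (fun t : ℕ × ℕ => t.1 ≤ K)).card ≤ K * (Ms E X).card := by
      calc _ ≤ (Icc 1 K ×ˢ Ms E X).card := by
            refine card_le_card fun t ht => ?_
            rw [mem_filter, mem_filter, mem_product, mem_Icc] at ht
            rw [mem_product, mem_Icc]
            exact ⟨⟨ht.1.1.1.1, ht.2⟩, ht.1.1.2⟩
        _ = _ := by rw [card_product, Nat.card_Icc, Nat.add_sub_cancel]
    have h4 : ((((Icc 1 X ×ˢ Ms E X).filter (fun t => U < ((t.1 ^ 2 * t.2 : ℕ) : ℝ))).filter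
        (fun t : ℕ × ℕ => t.1 ≤ K)).card : ℝ) ≤ K * (Ms E X).card := by exact_mod_cast h3
    calc _ ≤ (K * (Ms E X).card : ℝ) * (1 / U) := mul_le_mul_of_nonneg_right h4 (by positivity)
      _ = _ := by ring
  · -- large `c`
    have h2 : ∑ t ∈ ((Icc 1 X ×ˢ Ms E X).filter (fun t => U < ((t.1 ^ 2 * t.2 : ℕ) : ℝ))).filter
        (fun t : ℕ × ℕ => ¬ t.1 ≤ K), (1 : ℝ) / ((t.1 ^ 2 * t.2 : ℕ) : ℝ) ≤
        ∑ t ∈ Ioc K (K + X) ×ˢ Icc 1 X, (1 / (t.1 : ℝ) ^ 2) * (1 / (t.2 : ℝ)) := by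
      have h3 : ∀ t : ℕ × ℕ, (1 : ℝ) / ((t.1 ^ 2 * t.2 : ℕ) : ℝ) = (1 / (t.1 : ℝ) ^ 2) * (1 / (t.2 : ℝ)) := by
        intro t
        push_cast
        rw [one_div_mul_one_div]
      simp only [h3]
      refine sum_le_sum_of_subset_of_nonneg (fun t ht => ?_) fun _ _ _ => by positivity
      rw [mem_filter, mem_filter, mem_product, mem_Icc] at ht
      rw [mem_product, mem_Ioc, mem_Icc]
      obtain ⟨⟨⟨⟨h4, h5⟩, h6⟩, h7⟩, h8⟩ := ht
      rw [mem_Ms] at h6
      exact ⟨⟨by omega, by omega⟩, h6.1, h6.2.1⟩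
    refine h2.trans ?_
    rw [sum_product]
    simp only
    rw [← sum_mul_sum]
    have h4 : ∑ c ∈ Ioc K (K + X), (1 : ℝ) / (c : ℝ) ^ 2 ≤ 1 / K := by
      refine (inv_sq_tail K hK X).trans ?_
      have : (0 : ℝ) ≤ 1 / (K + X) := by positivity
      linarith
    have h5 : ∑ b ∈ Icc 1 X, (1 : ℝ) / (b : ℝ) ≤ 1 + Real.log X := by
      have h6 := harmonic_le_one_add_log X
      rw [harmonic_eq_sum_Icc] at h6
      push_cast at h6
      simpa [one_div] using h6
    have h6 : 0 ≤ ∑ c ∈ Ioc K (K + X), (1 : ℝ) / (c : ℝ) ^ 2 := sum_nonneg fun _ _ => by positivity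
    have h7 : 0 ≤ ∑ b ∈ Icc 1 X, (1 : ℝ) / (b : ℝ) := sum_nonneg fun _ _ => by positivity
    exact mul_le_mul h4 h5 h7 (by positivity)

theorem minusN (hDIV : Pool.Agent.H568.GR.S_DIV) {δ μ : ℝ} (hδ : 0 < δ) (hμ : 0 < μ) :
    ∃ N1 : ℝ, ∀ D : ℤ, ∀ N : ℕ, N1 ≤ N → ∀ V : ℝ, 1 ≤ V → V ≤ N →
      (∀ x : ℕ, |∑ n ∈ (Icc 1 x).filter (fun n => Odd n), ((jacobiSym D n : ℤ) : ℝ)| ≤
        (N : ℝ) ^ (-δ) * (x + V)) → ∀ T : ℕ, T ≠ 0 → (2 * D.natAbs) ∣ T →
      (N : ℝ) ^ (1 - μ) ≤ V * ((T.divisors.card : ℝ) * ((Bs (fun p => jacobiSym D p = -1) T N).card : ℝ)) := by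
  obtain ⟨ν, hν⟩ : ∃ ν : ℝ, ν = min (δ / 4) (μ / 8) := ⟨_, rfl⟩
  have hν0 : 0 < ν := by rw [hν]; exact lt_min (by positivity) (by positivity)
  have hν1 : ν ≤ δ / 4 := by rw [hν]; exact min_le_left _ _
  have hν2 : ν ≤ μ / 8 := by rw [hν]; exact min_le_right _ _
  obtain ⟨C, hC, hdiv⟩ := hDIV ν hν0
  have f1 : ∀ᶠ x : ℝ in atTop, 1 + Real.log x ≤ x ^ (ν / 2) := by
    have h1 := (isLittleO_log_rpow_atTop (show 0 < ν / 2 by positivity)).bound
      (show (0 : ℝ) < 1 / 2 by norm_num)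
    filter_upwards [h1, (tendsto_rpow_atTop (show 0 < ν / 2 by positivity)).eventually_ge_atTop 2,
      eventually_ge_atTop 1] with x h1 h2 h3
    have h4 : 0 ≤ Real.log x := Real.log_nonneg h3
    rw [Real.norm_of_nonneg (Real.rpow_pos_of_pos (by linarith) _).le, Real.norm_of_nonneg h4] at h1
    linarith
  have f2 : ∀ᶠ x : ℝ in atTop, 16 * C ≤ x ^ (ν / 2) :=
    (tendsto_rpow_atTop (by positivity)).eventually_ge_atTop _
  have f3 : ∀ᶠ x : ℝ in atTop, 2 ≤ x ^ ν := (tendsto_rpow_atTop hν0).eventually_ge_atTop _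
  obtain ⟨N1, hN1⟩ := eventually_atTop.1 (f1.and (f2.and (f3.and (eventually_ge_atTop (1 : ℝ)))))
  refine ⟨N1, fun D N hN V hW hWN hshort T hT hDT => ?_⟩
  obtain ⟨g1, g2, g3, g4⟩ := hN1 N hN
  obtain ⟨x, hx⟩ : ∃ x : ℝ, x = (N : ℝ) := ⟨_, rfl⟩
  rw [← hx] at g1 g2 g3 g4 hWN hshort ⊢
  have hxpos : 0 < x := by linarith
  have hNn : 1 ≤ N := by
    have : (1 : ℝ) ≤ N := by rw [← hx]; exact g4
    exact_mod_cast this
  have hEp : ∀ p ∈ exc (fD D) N, p.Prime := fun p hp => (mem_exc.1 hp).2.1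
  -- the sum of the modified function
  have hG : (x : ℝ) ≤ |G (fD D) (exc (fD D) N) N| := by
    have h1 := vinG (cm_fD D) N N
    rw [Finset.Ioc_self, Finset.filter_empty, Finset.sum_empty, mul_zero, sub_zero, mul_one, ← hx] at h1
    exact h1
  have hx2 : x ^ (2 * ν) = x ^ ν * x ^ ν := by
    rw [← Real.rpow_add hxpos]; congr 1; ring
  have hx1 : 1 ≤ x ^ ν := Real.one_le_rpow g4 hν0.le
  have hup : |G (fD D) (exc (fD D) N) N| ≤ C * x ^ ν * (2 * x ^ (-δ) * (x * (1 + Real.log x)) +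
      x * ∑ a ∈ (Cc (exc (fD D) N) N).filter (fun a : ℕ => x / (2 * V) < (a : ℝ)), (1 : ℝ) / a) := by
    classical
    have h1 := G_le_W (cm_fD D) (fun Y => if V ≤ (Y : ℝ) then 2 * x ^ (-δ) * Y else Y) (fun Y => by
      rw [sum_fD]
      have h2 := hshort Y
      split_ifs with h
      · refine h2.trans ?_
        have : 0 < x ^ (-δ) := by positivity
        nlinarith
      · have h3 : |∑ n ∈ (Icc 1 Y).filter (fun n => Odd n), ((jacobiSym D n : ℤ) : ℝ)| ≤
            ∑ n ∈ (Icc 1 Y).filter (fun n => Odd n), (1 : ℝ) := by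
          refine (abs_sum_le_sum_abs _ _).trans (sum_le_sum fun n _ => ?_)
          rcases jac_cases D n with h | h | h <;> rw [h] <;> norm_num
        refine h3.trans ?_
        rw [sum_const, nsmul_eq_mul, mul_one]
        have h4 : ((Icc 1 Y).filter (fun n => Odd n)).card ≤ Y := by
          calc _ ≤ (Icc 1 Y).card := card_filter_le _ _
            _ = Y := by rw [Nat.card_Icc]; omega
        exact_mod_cast h4) (exc (fD D) N) hEp N
    refine h1.trans ?_
    unfold W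
    have h2 : ∀ a ∈ Cc (exc (fD D) N) N, (2 : ℝ) ^ a.primeFactors.card *
        (if V ≤ ((N / a : ℕ) : ℝ) then 2 * x ^ (-δ) * ((N / a : ℕ) : ℝ) else ((N / a : ℕ) : ℝ)) ≤
        C * x ^ ν * (2 * x ^ (-δ) * (x * (1 / a)) + x * (if x / (2 * V) < (a : ℝ) then (1 : ℝ) / a else 0)) := by
      intro a ha
      rw [mem_Cc] at ha
      have ha0 : a ≠ 0 := by omega
      have har : (0 : ℝ) < a := by exact_mod_cast ha.1
      have h3 : (2 : ℝ) ^ a.primeFactors.card ≤ C * x ^ ν := by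
        refine (two_pow_le_div ha0).trans ((hdiv a ha.1).trans ?_)
        refine mul_le_mul_of_nonneg_left ?_ (by linarith)
        apply Real.rpow_le_rpow (Nat.cast_nonneg _) _ hν0.le
        rw [hx]
        exact_mod_cast ha.2.1
      have h4 : ((N / a : ℕ) : ℝ) ≤ x * (1 / a) := by
        rw [mul_one_div, hx]
        exact Nat.cast_div_le
      have h5 : (0 : ℝ) ≤ ((N / a : ℕ) : ℝ) := Nat.cast_nonneg _
      refine mul_le_mul h3 ?_ (by split_ifs <;> positivity) (by positivity)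
      split_ifs with h6 h7 h7
      · have : 2 * x ^ (-δ) * ((N / a : ℕ) : ℝ) ≤ 2 * x ^ (-δ) * (x * (1 / a)) := by gcongr
        have h8 : 0 ≤ x * (1 / (a : ℝ)) := by positivity
        linarith
      · have : 2 * x ^ (-δ) * ((N / a : ℕ) : ℝ) ≤ 2 * x ^ (-δ) * (x * (1 / a)) := by gcongr
        linarith
      · have h8 : 0 ≤ 2 * x ^ (-δ) * (x * (1 / (a : ℝ))) := by positivity
        linarith
      · exfalso
        push Not at h6
        apply h7
        -- `x / a < N / a + 1 ≤ 2 V`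
        have h8 : x / a < ((N / a : ℕ) : ℝ) + 1 := by
          rw [div_lt_iff₀ har, hx]
          have h9 : N < (N / a + 1) * a := by
            rw [mul_comm]
            exact Nat.lt_mul_div_succ N (by omega)
          exact_mod_cast h9
        rw [div_lt_iff₀ (by linarith)]
        rw [div_lt_iff₀ har] at h8
        nlinarith
    refine (sum_le_sum h2).trans ?_
    rw [← mul_sum]
    refine mul_le_mul_of_nonneg_left ?_ (by positivity)
    rw [sum_add_distrib, ← mul_sum, ← mul_sum, ← mul_sum, sum_filter]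
    refine add_le_add ?_ le_rfl
    refine mul_le_mul_of_nonneg_left ?_ (by positivity)
    refine mul_le_mul_of_nonneg_left ?_ hxpos.le
    calc ∑ a ∈ Cc (exc (fD D) N) N, (1 : ℝ) / a ≤ ∑ a ∈ Icc 1 N, (1 : ℝ) / a := by
          refine sum_le_sum_of_subset_of_nonneg (fun a ha => ?_) fun _ _ _ => by positivity
          rw [mem_Cc] at ha
          rw [mem_Icc]
          exact ⟨ha.1, ha.2.1⟩
      _ ≤ 1 + Real.log x := by
          have h6 := harmonic_le_one_add_log N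
          rw [harmonic_eq_sum_Icc] at h6
          push_cast at h6
          rw [hx]
          simpa [one_div] using h6
  -- the sum of reciprocals
  obtain ⟨R, hR⟩ : ∃ R : ℝ, R = ∑ a ∈ (Cc (exc (fD D) N) N).filter (fun a : ℕ => x / (2 * V) < (a : ℝ)), (1 : ℝ) / a :=
    ⟨_, rfl⟩
  rw [← hR] at hup
  have hR1 : 1 / (2 * C * x ^ ν) ≤ R := by
    have h1 := hG.trans hup
    have h2 : C * x ^ ν * (2 * x ^ (-δ) * (x * (1 + Real.log x))) ≤ x / 2 := by
      have h3 : x ^ ν * x ^ (-δ) * (1 + Real.log x) ≤ x ^ (-(ν / 2)) := by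
        calc x ^ ν * x ^ (-δ) * (1 + Real.log x) ≤ x ^ ν * x ^ (-δ) * x ^ (ν / 2) := by gcongr
          _ = x ^ (ν + -δ + ν / 2) := by
              rw [← Real.rpow_add hxpos, ← Real.rpow_add hxpos]
          _ ≤ x ^ (-(ν / 2)) := Real.rpow_le_rpow_of_exponent_le g4 (by linarith)
      have h4 : C * x ^ (-(ν / 2)) ≤ 1 / 16 := by
        have h5 : x ^ (-(ν / 2)) * x ^ (ν / 2) = 1 := by
          rw [← Real.rpow_add hxpos]
          have : -(ν / 2) + ν / 2 = 0 := by ring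
          rw [this, Real.rpow_zero]
        have h6 : 0 < x ^ (-(ν / 2)) := by positivity
        have h7 : (16 * C) * x ^ (-(ν / 2)) ≤ x ^ (ν / 2) * x ^ (-(ν / 2)) := mul_le_mul_of_nonneg_right g2 h6.le
        rw [mul_comm (x ^ (ν / 2)), h5] at h7
        linarith
      calc C * x ^ ν * (2 * x ^ (-δ) * (x * (1 + Real.log x))) =
            2 * x * (C * (x ^ ν * x ^ (-δ) * (1 + Real.log x))) := by ring
        _ ≤ 2 * x * (C * x ^ (-(ν / 2))) := by gcongr
        _ ≤ 2 * x * (1 / 16) := by gcongr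
        _ ≤ x / 2 := by linarith
    have h3 : x / 2 ≤ C * x ^ ν * (x * R) := by
      rw [mul_add] at h1
      linarith
    have h4 : 1 / 2 ≤ C * x ^ ν * R := by
      have h5 : x * (1 / 2) ≤ x * (C * x ^ ν * R) := by linarith
      exact le_of_mul_le_mul_left h5 hxpos
    rw [div_le_iff₀ (by positivity)]
    linarith
  -- the squarefree ones
  obtain ⟨K, hK⟩ : ∃ K : ℕ, K = ⌈x ^ (2 * ν)⌉₊ := ⟨_, rfl⟩
  have hx2ν : 1 ≤ x ^ (2 * ν) := Real.one_le_rpow g4 (by positivity)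
  have hK1 : 1 ≤ K := by rw [hK]; exact Nat.one_le_ceil_iff.2 (by positivity)
  have hKl : x ^ (2 * ν) ≤ K := by rw [hK]; exact Nat.le_ceil _
  have hKu : (K : ℝ) ≤ 2 * x ^ (2 * ν) := by
    have : (K : ℝ) < x ^ (2 * ν) + 1 := by rw [hK]; exact Nat.ceil_lt_add_one (by positivity)
    linarith
  have hrs := recip_sq (exc (fD D) N) N K hK1 (U := x / (2 * V)) (by positivity)
  rw [← hR, ← hx] at hrs
  obtain ⟨m, hm⟩ : ∃ m : ℝ, m = ((Ms (exc (fD D) N) N).card : ℝ) := ⟨_, rfl⟩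
  rw [← hm] at hrs
  have hm0 : 0 ≤ m := by rw [hm]; positivity
  have hKpos : (0 : ℝ) < K := by exact_mod_cast hK1
  have h1 : (1 / (K : ℝ)) * (1 + Real.log x) ≤ 1 / (4 * C * x ^ ν) := by
    calc (1 / (K : ℝ)) * (1 + Real.log x) ≤ (1 / x ^ (2 * ν)) * x ^ (ν / 2) := by
          apply mul_le_mul _ g1 _ (by positivity)
          · exact one_div_le_one_div_of_le (by positivity) hKl
          · have := Real.log_nonneg g4
            linarith
      _ ≤ 1 / (4 * C * x ^ ν) := by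
          rw [one_div_mul_eq_div, div_le_div_iff₀ (by positivity) (by positivity), hx2]
          have h2 : x ^ ν = x ^ (ν / 2) * x ^ (ν / 2) := by
            rw [← Real.rpow_add hxpos]; congr 1; ring
          have h3 : 4 * C ≤ x ^ (ν / 2) := by linarith
          have h4 : 0 < x ^ (ν / 2) := by positivity
          calc x ^ (ν / 2) * (4 * C * x ^ ν) = (4 * C) * (x ^ (ν / 2) * x ^ ν) := by ring
            _ ≤ x ^ (ν / 2) * (x ^ (ν / 2) * x ^ ν) := by gcongr
            _ = (x ^ (ν / 2) * x ^ (ν / 2)) * x ^ ν := by ring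
            _ = 1 * (x ^ ν * x ^ ν) := by rw [← h2, one_mul]
  have h2 : 1 / (4 * C * x ^ ν) ≤ K * (m / (x / (2 * V))) := by
    have h3 : 1 / (2 * C * x ^ ν) = 1 / (4 * C * x ^ ν) + 1 / (4 * C * x ^ ν) := by
      field_simp
      norm_num
    linarith
  have h3 : x ≤ 16 * C * x ^ (3 * ν) * (V * m) := by
    have h4 : K * (m / (x / (2 * V))) ≤ 2 * x ^ (2 * ν) * (2 * V * m / x) := by
      have : m / (x / (2 * V)) = 2 * V * m / x := by
        field_simp
      rw [this]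
      apply mul_le_mul_of_nonneg_right hKu
      positivity
    have h5 := h2.trans h4
    have h6 : x ^ (3 * ν) = x ^ (2 * ν) * x ^ ν := by
      rw [← Real.rpow_add hxpos]; congr 1; ring
    rw [div_le_iff₀ (by positivity)] at h5
    have h7 : 2 * x ^ (2 * ν) * (2 * V * m / x) * (4 * C * x ^ ν) = 16 * C * x ^ (3 * ν) * (V * m) / x := by
      rw [h6]
      ring
    rw [h7, le_div_iff₀ hxpos, one_mul] at h5
    exact h5
  have h4 : x ^ (1 - μ) ≤ V * m := by
    have h5 : x ^ (1 - μ) * (16 * C * x ^ (3 * ν)) ≤ x := by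
      calc x ^ (1 - μ) * (16 * C * x ^ (3 * ν)) ≤ x ^ (1 - μ) * (x ^ (ν / 2) * x ^ (3 * ν)) := by gcongr
        _ = x ^ (1 - μ + (ν / 2 + 3 * ν)) := by rw [← Real.rpow_add hxpos, ← Real.rpow_add hxpos]
        _ ≤ x ^ (1 : ℝ) := Real.rpow_le_rpow_of_exponent_le g4 (by linarith)
        _ = x := Real.rpow_one x
    have h6 : x ^ (1 - μ) * (16 * C * x ^ (3 * ν)) ≤ (V * m) * (16 * C * x ^ (3 * ν)) := by
      calc _ ≤ x := h5
        _ ≤ 16 * C * x ^ (3 * ν) * (V * m) := h3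
        _ = _ := by ring
    exact le_of_mul_le_mul_right h6 (by positivity)
  refine h4.trans ?_
  refine mul_le_mul_of_nonneg_left ?_ (by linarith)
  rw [hm]
  have hfin := coprime_step (Ms (exc (fD D) N) N) (P := fun p => jacobiSym D p = -1) (z := N) hT (by
    intro a ha
    rw [mem_Ms] at ha
    refine ⟨ha.1, ha.2.1, ha.2.2.1, fun p hp hpa hpT => ?_⟩
    have h1 := (mem_exc.1 (ha.2.2.2 p hp hpa)).2.2
    have hp2 : ¬ 2 = p := by
      rintro rfl
      exact hpT ((Dvd.intro _ rfl).trans hDT)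
    have hpD : ¬ p ∣ D.natAbs := fun h => hpT ((h.mul_left 2).trans hDT)
    have hodd : Odd p := hp.odd_of_ne_two (fun h => hp2 h.symm)
    unfold fD at h1
    rw [if_pos hodd] at h1
    rcases jac_cases D p with h | h | h
    · exfalso
      have : Fact p.Prime := ⟨hp⟩
      rw [← jacobiSym.legendreSym.to_jacobiSym, legendreSym.eq_zero_iff, ZMod.intCast_zmod_eq_zero_iff_dvd] at h
      exact hpD (Int.natCast_dvd.1 h)
    · rw [h] at h1
      norm_num at h1
    · exact h)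
  exact_mod_cast hfin

end Pool.Agent.K1H79.QR
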