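import Pool.Agent.K1H79.QR.FinE
import Pool.Agent.K1H79.QR.MinusN

/-! # The explicit bound for odd degrees -/

set_option autoImplicit false

namespace Pool.Agent.K1H79.QR

open NumberField Filter Pool.Agent.TH847.LS Pool.Agent.TH847.LG

/-- a bound `V |disc| ^ e` for the fields of degree `n` with a given property involving `V` -/
def SavV (n l : ℕ) (e : ℝ) (Q : ∀ (L : Type) [Field L] [NumberField L], ℝ → Prop) : Prop :=
  ∃ C : ℝ, 0 < C ∧ ∀ (L : Type) [Field L] [NumberField L], Module.finrank ℚ L = n → ∀ V : ℝ, 1 ≤ V → Q L V →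
    (Nat.card {c : ClassGroup (𝓞 L) // c ^ l = 1} : ℝ) ≤ C * (V * |(discr L : ℝ)| ^ e)

theorem SavV.mono {n l : ℕ} {e : ℝ} {Q Q' : ∀ (L : Type) [Field L] [NumberField L], ℝ → Prop} (h : SavV n l e Q)
    (hQ : ∀ (L : Type) [Field L] [NumberField L], Module.finrank ℚ L = n → ∀ V, 1 ≤ V → Q' L V → Q L V) :
    SavV n l e Q' := by
  obtain ⟨C, hC, h1⟩ := h
  exact ⟨C, hC, fun L _ _ hn V hV hL => h1 L hn V hV (hQ L hn V hV hL)⟩

theorem SavV.or {n l : ℕ} {e : ℝ} {Q Q' : ∀ (L : Type) [Field L] [NumberField L], ℝ → Prop} (h : SavV n l e Q)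
    (h' : SavV n l e Q') : SavV n l e (fun L _ _ V => Q L V ∨ Q' L V) := by
  obtain ⟨C, hC, h1⟩ := h
  obtain ⟨C', hC', h2⟩ := h'
  refine ⟨max C C', lt_of_lt_of_le hC (le_max_left _ _), ?_⟩
  intro L _ _ hn V hV hL
  have hD := disc_one L
  rcases hL with hL | hL
  · exact (h1 L hn V hV hL).trans (mul_le_mul_of_nonneg_right (le_max_left _ _) (by positivity))
  · exact (h2 L hn V hV hL).trans (mul_le_mul_of_nonneg_right (le_max_right _ _) (by positivity))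

theorem SavV.fin {n l : ℕ} {e : ℝ} {Q : ℕ → ∀ (L : Type) [Field L] [NumberField L], ℝ → Prop}
    (h : ∀ i, SavV n l e (Q i)) (K : ℕ) : SavV n l e (fun L _ _ V => ∃ i < K, Q i L V) := by
  induction K with
  | zero => exact ⟨1, one_pos, fun L _ _ _ _ _ hL => absurd hL (by simp)⟩
  | succ K ih =>
    refine (ih.or (h K)).mono ?_
    rintro L _ _ hn V hV ⟨i, hi, hQ⟩
    rcases Nat.lt_succ_iff_lt_or_eq.1 hi with h1 | h1
    · exact Or.inl ⟨i, h1, hQ⟩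
    · exact Or.inr (h1 ▸ hQ)

theorem SavV.exp {n l : ℕ} {e e' : ℝ} {Q : ∀ (L : Type) [Field L] [NumberField L], ℝ → Prop} (h : SavV n l e Q)
    (he : e ≤ e') : SavV n l e' Q := by
  obtain ⟨C, hC, h1⟩ := h
  refine ⟨C, hC, fun L _ _ hn V hV hL => (h1 L hn V hV hL).trans ?_⟩
  refine mul_le_mul_of_nonneg_left ?_ hC.le
  exact mul_le_mul_of_nonneg_left (Real.rpow_le_rpow_of_exponent_le (disc_one L) he) (by linarith)

/-- a smaller loss -/
theorem SavV.scale {n l : ℕ} {e : ℝ} (c s : ℝ) (hc : 1 ≤ c) (hs : 0 ≤ s)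
    {Q : ∀ (L : Type) [Field L] [NumberField L], ℝ → Prop} (h : SavV n l e Q) :
    SavV n l (e + s) (fun L _ _ V => Q L (c * (V * |(discr L : ℝ)| ^ s))) := by
  obtain ⟨C, hC, h1⟩ := h
  refine ⟨C * c, by positivity, ?_⟩
  intro L _ _ hn V hV hL
  have hD := disc_one L
  have hDpos : 0 < |(discr L : ℝ)| := by linarith
  have h2 : 1 ≤ |(discr L : ℝ)| ^ s := Real.one_le_rpow hD hs
  have h3 : 1 ≤ V * |(discr L : ℝ)| ^ s := one_le_mul_of_one_le_of_one_le hV h2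
  refine (h1 L hn _ (one_le_mul_of_one_le_of_one_le hc h3) hL).trans (le_of_eq ?_)
  rw [Real.rpow_add hDpos]
  ring

theorem SavE.toV {n l : ℕ} {e : ℝ} {Q : ∀ (L : Type) [Field L] [NumberField L], Prop} (h : SavE n l e Q) :
    SavV n l e (fun L _ _ _ => Q L) := by
  obtain ⟨C, hC, h1⟩ := h
  refine ⟨C, hC, fun L _ _ hn V hV hL => (h1 L hn hL).trans ?_⟩
  refine mul_le_mul_of_nonneg_left ?_ hC.le
  exact le_mul_of_one_le_left (by positivity) hV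

/-- large losses -/
theorem SavV.triv (n l : ℕ) (hn2 : 2 ≤ n) {κ s : ℝ} (hκ : 0 < κ) (c : ℝ) (hc : 0 < c) :
    SavV n l (1 / 2 + κ - s) (fun L _ _ V => |(discr L : ℝ)| ^ s ≤ c * V) := by
  obtain ⟨C1, hC10, hC1⟩ := Pool.Agent.Y159.PT.W_bound n hn2 κ hκ
  refine ⟨C1 * c, by positivity, ?_⟩
  intro L _ _ hn V hV hL
  obtain ⟨K, hK, hW⟩ := hC1 L hn
  obtain ⟨D, hD⟩ : ∃ D : ℝ, D = |(discr L : ℝ)| := ⟨_, rfl⟩
  have hDn : ((discr L).natAbs : ℝ) = D := by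
    rw [hD, Nat.cast_natAbs]
    push_cast
    rfl
  have hD1 : 1 ≤ D := by rw [hD]; exact disc_one L
  have hD0 : 0 < D := by linarith
  rw [hDn] at hW
  rw [← hD] at hL ⊢
  have h2 := class_le_n hn K hK
  have h3 : (Nat.card {c : ClassGroup (𝓞 L) // c ^ l = 1} : ℝ) ≤ (Nat.card (ClassGroup (𝓞 L)) : ℝ) := by
    exact_mod_cast Nat.card_le_card_of_injective _ Subtype.val_injective
  refine h3.trans (h2.trans (hW.trans ?_))
  have h4 : D ^ (1 / 2 + κ) = D ^ s * D ^ (1 / 2 + κ - s) := by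
    rw [← Real.rpow_add hD0]
    congr 1
    ring
  rw [h4]
  calc C1 * (D ^ s * D ^ (1 / 2 + κ - s)) ≤ C1 * ((c * V) * D ^ (1 / 2 + κ - s)) := by gcongr
    _ = _ := by ring

/-- the explicit engine, with a loss -/
theorem engineV (n l : ℕ) (hn2 : 2 ≤ n) (hl : 1 ≤ l) {κ ε μ : ℝ}
    (hκ : 0 < κ) (hε : 0 < ε) (hε1 : ε < 1) (hμ : 0 < μ) (hμ1 : μ < 1) :
    SavV n l (1 / 2 + 2 * κ - (1 - ε) * (1 - μ) / wt n l) (fun L _ _ V => NoSub L ∧ ∃ d f : ℤ,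
      discr L = d * f ^ 2 ∧
      (⌊|(discr L : ℝ)| ^ ((1 - ε) / wt n l)⌋₊ : ℝ) ^ (1 - μ) ≤ V * (((2 * (discr L).natAbs).divisors.card : ℝ) *
        ((Bs (fun p => jacobiSym d p = (-1) ^ n) (2 * (discr L).natAbs)
          ⌊|(discr L : ℝ)| ^ ((1 - ε) / wt n l)⌋₊).card : ℝ))) := by
  have hwr := wt_pos hn2 hl
  obtain ⟨C1, hC10, hC1⟩ := Pool.Agent.Y159.PT.W_bound n hn2 κ hκ
  obtain ⟨C2, hC20, hC2⟩ := Pool.Agent.H568.GR.dvb κ hκ
  obtain ⟨B, hB⟩ : ∃ B : ℝ, B = (2 * 150 ^ l) ^ (n * (n - 1)) := ⟨_, rfl⟩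
  have e1 : ∀ᶠ x : ℝ in atTop, B < x ^ ε := (tendsto_rpow_atTop hε).eventually_gt_atTop B
  obtain ⟨D0, hD0⟩ := eventually_atTop.1 e1
  obtain ⟨e, he⟩ : ∃ e : ℝ, e = 1 / 2 + 2 * κ - (1 - ε) * (1 - μ) / wt n l := ⟨_, rfl⟩
  rw [← he]
  -- large discriminants
  have hlarge : SavV n l e (fun L _ _ V => D0 ≤ |(discr L : ℝ)| ∧ NoSub L ∧ ∃ d f : ℤ,
      discr L = d * f ^ 2 ∧
      (⌊|(discr L : ℝ)| ^ ((1 - ε) / wt n l)⌋₊ : ℝ) ^ (1 - μ) ≤ V * (((2 * (discr L).natAbs).divisors.card : ℝ) *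
        ((Bs (fun p => jacobiSym d p = (-1) ^ n) (2 * (discr L).natAbs)
          ⌊|(discr L : ℝ)| ^ ((1 - ε) / wt n l)⌋₊).card : ℝ))) := by
    refine ⟨2 * (C1 * ((2 : ℝ) ^ κ * C2)), by positivity, ?_⟩
    rintro L _ _ hn V hV ⟨hge, hns, d, f, hdf, hcd⟩
    obtain ⟨D, hD⟩ : ∃ D : ℝ, D = |(discr L : ℝ)| := ⟨_, rfl⟩
    have hDn : ((discr L).natAbs : ℝ) = D := by
      rw [hD, Nat.cast_natAbs]
      push_cast
      rfl
    have hDz : (discr L).natAbs ≠ 0 := Int.natAbs_ne_zero.2 (discr_ne_zero L)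
    have hD_1 : 1 ≤ D := by
      rw [← hDn]
      exact_mod_cast Nat.one_le_iff_ne_zero.2 hDz
    have hD_0 : 0 < D := by linarith
    rw [← hD] at hcd hge ⊢
    obtain ⟨K, hK, hW⟩ := hC1 L hn
    rw [hDn] at hW
    have g1 : B < D ^ ε := hD0 D hge
    obtain ⟨M, hM⟩ : ∃ M : Finset ℕ, M = Bs (fun p => jacobiSym d p = (-1) ^ n) (2 * (discr L).natAbs)
          ⌊D ^ ((1 - ε) / wt n l)⌋₊ := ⟨_, rfl⟩
    rw [← hM] at hcd
    obtain ⟨S, hS⟩ : ∃ S : Set ℕ, S = {p : ℕ | p.Prime ∧ p ≠ 2 ∧ ¬ (p : ℤ) ∣ discr L ∧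
      jacobiSym d p = (-1) ^ n} := ⟨_, rfl⟩
    have hex : ∀ p : ℕ, ∃ 𝔭 𝔭' : Ideal (𝓞 L), p ∈ S → Pr p 𝔭 𝔭' ∧ Ideal.absNorm 𝔭 ≤ p ^ (n / 2) := by
      intro p
      by_cases hp : p ∈ S
      · have hp' := hp
        rw [hS] at hp'
        obtain ⟨h1, h2, h3, h4⟩ := hp'
        have : Fact p.Prime := ⟨h1⟩
        obtain ⟨𝔭, 𝔭', h5⟩ := two_primes hn2 hn h2 h3 (by rw [leg_of_jac hdf h3, h4])
        exact ⟨𝔭, 𝔭', fun _ => h5⟩
      · exact ⟨⊥, ⊥, fun h => absurd h hp⟩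
    choose g g' hg using hex
    obtain ⟨Y, hY⟩ : ∃ Y : ℝ, Y = D ^ ((1 - ε) / wt n l) := ⟨_, rfl⟩
    have hY1 : 1 ≤ Y := by rw [hY]; exact Real.one_le_rpow hD_1 (div_nonneg (by linarith) hwr.le)
    have hcount := count hn2 hn hns hl (S := S) (f := g) (f' := g') (fun p hp => (hg p hp).1) (h := n / 2)
      (fun p hp => (hg p hp).2) M (Y := Y) (by
        intro m hm
        rw [hM, mem_Bs] at hm
        obtain ⟨h1, h2, h3, h4⟩ := hm
        refine ⟨h3, ?_, fun p hp => ?_⟩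
        · rw [hY]
          exact (Nat.le_floor_iff (by positivity)).1 h2
        · have hpp := Nat.prime_of_mem_primeFactors hp
          obtain ⟨h5, h6⟩ := h4 p hpp (Nat.dvd_of_mem_primeFactors hp)
          rw [hS]
          refine ⟨hpp, ?_, ?_, h6⟩
          · rintro rfl
            exact h5 (dvd_mul_right _ _)
          · intro h7
            exact h5 ((Int.natCast_dvd.1 h7).mul_left _)) (by
        rw [← hD, ← hB]
        have h1 : Y ^ (2 * (n / 2) * l * (n - 1)) = D ^ (1 - ε) := by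
          have : 2 * (n / 2) * l * (n - 1) = wt n l := rfl
          rw [this, hY, ← Real.rpow_natCast, ← Real.rpow_mul hD_0.le, div_mul_cancel₀ _ hwr.ne']
        rw [h1]
        calc B * D ^ (1 - ε) < D ^ ε * D ^ (1 - ε) := by
              apply mul_lt_mul_of_pos_right g1 (by positivity)
          _ = D := by
              rw [← Real.rpow_add hD_0]
              have : ε + (1 - ε) = 1 := by ring
              rw [this, Real.rpow_one]) K hK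
    have h5 := hcount.trans hW
    obtain ⟨T, hT⟩ : ∃ T : ℝ, T = (Nat.card {c : ClassGroup (𝓞 L) // c ^ l = 1} : ℝ) := ⟨_, rfl⟩
    have hT0 : 0 ≤ T := by rw [hT]; exact Nat.cast_nonneg _
    rw [← hT] at h5 ⊢
    obtain ⟨m, hm⟩ : ∃ m : ℝ, m = (M.card : ℝ) := ⟨_, rfl⟩
    have hm0 : 0 ≤ m := by rw [hm]; exact Nat.cast_nonneg _
    rw [← hm] at h5 hcd
    rw [← hY] at hcd
    -- divisors
    have h6 : ((2 * (discr L).natAbs).divisors.card : ℝ) ≤ C2 * ((2 : ℝ) ^ κ * D ^ κ) := by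
      refine (hC2 (2 * (discr L).natAbs) (by omega)).trans ?_
      refine mul_le_mul_of_nonneg_left ?_ (by linarith)
      rw [← Real.mul_rpow (by norm_num) hD_0.le]
      push_cast
      rw [hDn]
    have hfl : Y / 2 ≤ (⌊Y⌋₊ : ℝ) := by
      have h1 : Y < (⌊Y⌋₊ : ℝ) + 1 := Nat.lt_floor_add_one _
      have h2 : (1 : ℝ) ≤ (⌊Y⌋₊ : ℝ) := by
        exact_mod_cast (Nat.one_le_floor_iff Y).2 hY1
      linarith
    have h7 : D ^ ((1 - ε) * (1 - μ) / wt n l) ≤ 2 * (⌊Y⌋₊ : ℝ) ^ (1 - μ) := by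
      have h8 : D ^ ((1 - ε) * (1 - μ) / wt n l) = Y ^ (1 - μ) := by
        rw [hY, ← Real.rpow_mul hD_0.le]
        congr 1
        ring
      rw [h8]
      calc Y ^ (1 - μ) ≤ (2 * (⌊Y⌋₊ : ℝ)) ^ (1 - μ) := by
            apply Real.rpow_le_rpow (by linarith) (by linarith) (by linarith)
        _ = 2 ^ (1 - μ) * (⌊Y⌋₊ : ℝ) ^ (1 - μ) := Real.mul_rpow (by norm_num) (Nat.cast_nonneg _)
        _ ≤ 2 * (⌊Y⌋₊ : ℝ) ^ (1 - μ) := by
            apply mul_le_mul_of_nonneg_right _ (by positivity)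
            calc (2 : ℝ) ^ (1 - μ) ≤ 2 ^ (1 : ℝ) := Real.rpow_le_rpow_of_exponent_le (by norm_num) (by linarith)
              _ = 2 := Real.rpow_one 2
    have h8 : D ^ ((1 - ε) * (1 - μ) / wt n l) ≤ 2 * (V * (C2 * ((2 : ℝ) ^ κ * D ^ κ) * m)) := by
      refine h7.trans ?_
      have := hcd.trans (mul_le_mul_of_nonneg_left (mul_le_mul_of_nonneg_right h6 hm0) (by linarith))
      linarith
    have h9 : D ^ ((1 - ε) * (1 - μ) / wt n l) * T ≤
        2 * (V * (C2 * ((2 : ℝ) ^ κ * D ^ κ))) * (C1 * D ^ (1 / 2 + κ)) := by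
      have hC2pos : 0 < C2 := by linarith
      calc D ^ ((1 - ε) * (1 - μ) / wt n l) * T ≤ (2 * (V * (C2 * ((2 : ℝ) ^ κ * D ^ κ) * m))) * T :=
            mul_le_mul_of_nonneg_right h8 hT0
        _ = 2 * (V * (C2 * ((2 : ℝ) ^ κ * D ^ κ))) * (m * T) := by ring
        _ ≤ _ := by
            apply mul_le_mul_of_nonneg_left h5
            positivity
    have h10 : D ^ κ * D ^ (1 / 2 + κ) = D ^ ((1 - ε) * (1 - μ) / wt n l) * D ^ e := by
      rw [he, ← Real.rpow_add hD_0, ← Real.rpow_add hD_0]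
      congr 1
      ring
    have h12 : 0 < D ^ ((1 - ε) * (1 - μ) / wt n l) := by positivity
    have h13 : D ^ ((1 - ε) * (1 - μ) / wt n l) * T ≤
        D ^ ((1 - ε) * (1 - μ) / wt n l) * (2 * (C1 * ((2 : ℝ) ^ κ * C2)) * (V * D ^ e)) := by
      calc _ ≤ 2 * (V * (C2 * ((2 : ℝ) ^ κ * D ^ κ))) * (C1 * D ^ (1 / 2 + κ)) := h9
        _ = V * (2 * (C1 * ((2 : ℝ) ^ κ * C2))) * (D ^ κ * D ^ (1 / 2 + κ)) := by ring
        _ = _ := by rw [h10]; ring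
    exact le_of_mul_le_mul_left h13 h12
  refine (hlarge.or (SavE.small' n l hn2 e D0).toV).mono ?_
  intro L _ _ hn V hV hL
  rcases lt_or_ge |(discr L : ℝ)| D0 with hlt | hge
  · exact Or.inr hlt
  · exact Or.inl ⟨hge, hL⟩

/-- the conclusion for the fields of odd degree with a cancelling character -/
theorem savV_H (n l : ℕ) (hn2 : 2 ≤ n) (hodd : Odd n) (hl : 1 ≤ l) {δ u κ : ℝ}
    (hδ : 0 < δ) (hu : 0 < u) (hu1 : u ≤ 1 / 2) (hκ : 0 < κ) :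
    SavV n l (1 / 2 + 2 * κ - (1 - u / 4) * (1 - u / 4) / wt n l) (fun L _ _ V => NoSub L ∧ ∃ d f : ℤ,
      discr L = d * f ^ 2 ∧ ∀ x : ℕ, |∑ n ∈ (Finset.Icc 1 x).filter (fun n => Odd n), ((jacobiSym d n : ℤ) : ℝ)| ≤
        (⌊|(discr L : ℝ)| ^ ((1 - u / 4) / wt n l)⌋₊ : ℝ) ^ (-δ) * (x + V)) := by
  have hwr := wt_pos hn2 hl
  have h1 := engineV n l hn2 hl (κ := κ) (ε := u / 4) (μ := u / 4) hκ (by positivity) (by linarith) (by positivity)
    (by linarith)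
  obtain ⟨N1, hN1⟩ := minusN Pool.Agent.H568.GR.dvb (δ := δ) (μ := u / 4) hδ (by positivity)
  have hexp : 0 < (1 - u / 4) / wt n l := div_pos (by linarith) hwr
  have e1 : ∀ᶠ x : ℝ in atTop, 2 * (|N1| + 1) ≤ x ^ ((1 - u / 4) / wt n l) :=
    (tendsto_rpow_atTop hexp).eventually_ge_atTop _
  obtain ⟨D0, hD0⟩ := eventually_atTop.1 e1
  have htriv := (SavV.triv n l hn2 (κ := κ) (s := (1 - u / 4) / wt n l) hκ 2 (by norm_num)).exp
    (e' := 1 / 2 + 2 * κ - (1 - u / 4) * (1 - u / 4) / wt n l) (by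
      have h2 : (1 - u / 4) * (1 - u / 4) / wt n l ≤ (1 - u / 4) / wt n l := by
        apply div_le_div_of_nonneg_right _ hwr.le
        nlinarith
      linarith)
  refine (h1.or (htriv.or (SavE.small' n l hn2 _ D0).toV)).mono ?_
  rintro L _ _ hn V hV ⟨hns, d, f, hdf, hH⟩
  rcases lt_or_ge |(discr L : ℝ)| D0 with hlt | hge
  · exact Or.inr (Or.inr hlt)
  · have g1 := hD0 _ hge
    have hDz : (discr L).natAbs ≠ 0 := Int.natAbs_ne_zero.2 (discr_ne_zero L)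
    obtain ⟨D, hD⟩ : ∃ D : ℝ, D = |(discr L : ℝ)| := ⟨_, rfl⟩
    have hD1 : 1 ≤ D := by rw [hD]; exact disc_one L
    rw [← hD] at g1 hH ⊢
    obtain ⟨Y, hY⟩ : ∃ Y : ℝ, Y = D ^ ((1 - u / 4) / wt n l) := ⟨_, rfl⟩
    rw [← hY] at g1 hH ⊢
    have habs := le_abs_self N1
    have habs' := abs_nonneg N1
    have hfl : Y / 2 ≤ (⌊Y⌋₊ : ℝ) := by
      have h1 : Y < (⌊Y⌋₊ : ℝ) + 1 := Nat.lt_floor_add_one _
      linarith
    rcases le_or_gt V (⌊Y⌋₊ : ℝ) with h2 | h2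
    · refine Or.inl ⟨hns, d, f, hdf, ?_⟩
      rw [hodd.neg_one_pow]
      refine hN1 d ⌊Y⌋₊ (by linarith) V hV h2 hH _ (by omega) ?_
      rw [hdf, Int.natAbs_mul]
      exact Nat.mul_dvd_mul_left 2 (dvd_mul_right _ _)
    · right
      left
      linarith

/-- the fields of odd degree with a cancelling character -/
theorem savV_csh (n l : ℕ) (hn2 : 2 ≤ n) (hodd : Odd n) (hl : 1 ≤ l) {θ δ η u κ : ℝ}
    (hδ : 0 < δ) (hη : 0 < η) (hu : 0 < u) (hu1 : u ≤ 1 / 2) (hκ : 0 < κ) :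
    SavV n l (1 / 2 + 2 * κ - (1 - u / 4) * (1 - u / 4) / wt n l) (fun L _ _ V => NoSub L ∧ ∃ d f : ℤ,
      discr L = d * f ^ 2 ∧ |(discr L : ℝ)| ^ η ≤ |(d : ℝ)| ∧ CSH d δ θ ∧ |(d : ℝ)| ^ θ ≤ V) := by
  have hwr := wt_pos hn2 hl
  have hw1 : (1 : ℝ) ≤ wt n l := by
    have : 0 < wt n l := by exact_mod_cast hwr
    exact_mod_cast this
  have h1 := savV_H n l hn2 hodd hl (δ := η * δ) (u := u) (κ := κ) (by positivity) hu hu1 hκ
  have e2 : ∀ᶠ x : ℝ in atTop, (4 : ℝ) ≤ x ^ ((1 - u / 4) / wt n l) :=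
    (tendsto_rpow_atTop (div_pos (by linarith) hwr)).eventually_ge_atTop _
  obtain ⟨D0, hD0⟩ := eventually_atTop.1 e2
  refine ((h1).or (SavE.small' n l hn2 _ D0).toV).mono ?_
  rintro L _ _ hn V hV ⟨hns, d, f, hdf, hηd, hcs, hd⟩
  rcases lt_or_ge |(discr L : ℝ)| D0 with hlt | hge
  · exact Or.inr hlt
  · refine Or.inl ⟨hns, d, f, hdf, fun x => ?_⟩
    have g2 := hD0 _ hge
    obtain ⟨D, hD⟩ : ∃ D : ℝ, D = |(discr L : ℝ)| := ⟨_, rfl⟩
    have hD1 : 1 ≤ D := by rw [hD]; exact disc_one L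
    have hDpos : 0 < D := by linarith
    rw [← hD] at g2 hηd ⊢
    obtain ⟨Y, hY⟩ : ∃ Y : ℝ, Y = D ^ ((1 - u / 4) / wt n l) := ⟨_, rfl⟩
    rw [← hY] at g2 ⊢
    have hfl : Y / 2 ≤ (⌊Y⌋₊ : ℝ) := by
      have h1 : Y < (⌊Y⌋₊ : ℝ) + 1 := Nat.lt_floor_add_one _
      linarith
    have hN0 : (0 : ℝ) < (⌊Y⌋₊ : ℝ) := by linarith
    have hYD : Y ≤ D := by
      rw [hY]
      calc D ^ ((1 - u / 4) / wt n l) ≤ D ^ (1 : ℝ) := by
            apply Real.rpow_le_rpow_of_exponent_le hD1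
            rw [div_le_one hwr]
            linarith
        _ = D := Real.rpow_one D
    have hND : (⌊Y⌋₊ : ℝ) ≤ D := (Nat.floor_le (by linarith)).trans hYD
    have hPpos : 0 < |(d : ℝ)| := lt_of_lt_of_le (by positivity) hηd
    refine (hcs x).trans ?_
    have h3 : |(d : ℝ)| ^ (-δ) ≤ (⌊Y⌋₊ : ℝ) ^ (-(η * δ)) := by
      calc |(d : ℝ)| ^ (-δ) ≤ (D ^ η) ^ (-δ) :=
            Real.rpow_le_rpow_of_nonpos (by positivity) hηd (by linarith)
        _ = D ^ (-(η * δ)) := by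
            rw [← Real.rpow_mul hDpos.le]
            congr 1
            ring
        _ ≤ (⌊Y⌋₊ : ℝ) ^ (-(η * δ)) := Real.rpow_le_rpow_of_nonpos hN0 hND (by
            have : 0 < η * δ := by positivity
            linarith)
    apply mul_le_mul h3 (by linarith) (by positivity) (by positivity)

/-- very small squarefree part -/
theorem savV_tiny (n l : ℕ) (hn2 : 2 ≤ n) (hodd : Odd n) (hl : 1 ≤ l) {η u κ : ℝ}
    (hη : 0 < η) (hu : 0 < u) (hu1 : u ≤ 1 / 2) (hκ : 0 < κ) :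
    SavV n l (1 / 2 + 2 * κ - (1 - u / 4) * (1 - u / 4) / wt n l + 2 * η) (fun L _ _ _ => NoSub L ∧
      ¬ IsSquare (discr L) ∧ ∃ d f : ℤ, discr L = d * f ^ 2 ∧ Squarefree d.natAbs ∧
      |(d : ℝ)| ≤ |(discr L : ℝ)| ^ η) := by
  have hwr := wt_pos hn2 hl
  have hw1 : (1 : ℝ) ≤ wt n l := by
    have : 0 < wt n l := by exact_mod_cast hwr
    exact_mod_cast this
  have h1 := (savV_H n l hn2 hodd hl (δ := η) (u := u) (κ := κ) hη hu hu1 hκ).scale 160 (2 * η) (by norm_num)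
    (by positivity)
  have e2 : ∀ᶠ x : ℝ in atTop, (4 : ℝ) ≤ x ^ ((1 - u / 4) / wt n l) :=
    (tendsto_rpow_atTop (div_pos (by linarith) hwr)).eventually_ge_atTop _
  obtain ⟨D0, hD0⟩ := eventually_atTop.1 e2
  refine ((h1).or (SavE.small' n l hn2 _ D0).toV).mono ?_
  rintro L _ _ hn V hV ⟨hns, hnsq, d, f, hdf, hsq, hd⟩
  rcases lt_or_ge |(discr L : ℝ)| D0 with hlt | hge
  · exact Or.inr hlt
  · refine Or.inl ⟨hns, d, f, hdf, fun x => ?_⟩
    have g2 := hD0 _ hge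
    have hd1 : d ≠ 1 := by
      rintro rfl
      apply hnsq
      exact ⟨f, by rw [hdf]; ring⟩
    obtain ⟨D, hD⟩ : ∃ D : ℝ, D = |(discr L : ℝ)| := ⟨_, rfl⟩
    have hD1 : 1 ≤ D := by rw [hD]; exact disc_one L
    have hDpos : 0 < D := by linarith
    rw [← hD] at g2 hd ⊢
    obtain ⟨Y, hY⟩ : ∃ Y : ℝ, Y = D ^ ((1 - u / 4) / wt n l) := ⟨_, rfl⟩
    rw [← hY] at g2 ⊢
    have hfl : Y / 2 ≤ (⌊Y⌋₊ : ℝ) := by
      have h1 : Y < (⌊Y⌋₊ : ℝ) + 1 := Nat.lt_floor_add_one _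
      linarith
    have hN0 : (0 : ℝ) < (⌊Y⌋₊ : ℝ) := by linarith
    have hYD : Y ≤ D := by
      rw [hY]
      calc D ^ ((1 - u / 4) / wt n l) ≤ D ^ (1 : ℝ) := by
            apply Real.rpow_le_rpow_of_exponent_le hD1
            rw [div_le_one hwr]
            linarith
        _ = D := Real.rpow_one D
    have hND : (⌊Y⌋₊ : ℝ) ≤ D := (Nat.floor_le (by linarith)).trans hYD
    refine (pv d hsq hd1 x).trans ?_
    have h3 : D ^ (-η) ≤ (⌊Y⌋₊ : ℝ) ^ (-η) := Real.rpow_le_rpow_of_nonpos hN0 hND (by linarith)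
    have h4 : D ^ (-η) * (160 * (V * D ^ (2 * η))) = 160 * V * D ^ η := by
      have : D ^ η = D ^ (-η) * D ^ (2 * η) := by
        rw [← Real.rpow_add hDpos]
        congr 1
        ring
      rw [this]
      ring
    have h5 : 0 < D ^ η := by positivity
    have h6 : 0 ≤ (⌊Y⌋₊ : ℝ) ^ (-η) * x := by positivity
    calc 160 * |(d : ℝ)| ≤ 160 * V * D ^ η := by nlinarith
      _ = D ^ (-η) * (160 * (V * D ^ (2 * η))) := h4.symm
      _ ≤ (⌊Y⌋₊ : ℝ) ^ (-η) * (160 * (V * D ^ (2 * η))) := mul_le_mul_of_nonneg_right h3 (by positivity)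
      _ ≤ _ := by rw [mul_add]; linarith

/-- the Burgess range -/
theorem savV_burgess (n l : ℕ) (hn2 : 2 ≤ n) (hodd : Odd n) (hl : 1 ≤ l) {η u κ : ℝ}
    (hη : 0 < η) (hu : 0 < u) (hu1 : u ≤ 1 / 2) (hκ : 0 < κ) :
    SavV n l (1 / 2 + 2 * κ - (1 - u / 4) * (1 - u / 4) / wt n l + η) (fun L _ _ V => NoSub L ∧
      ∃ d f : ℤ, discr L = d * f ^ 2 ∧ Squarefree d.natAbs ∧ |(discr L : ℝ)| ^ η ≤ |(d : ℝ)| ∧
      |(d : ℝ)| ≤ |(discr L : ℝ)| ∧ |(d : ℝ)| ^ (1 / 4 : ℝ) ≤ V) := by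
  obtain ⟨δ, P0, hδ, hδ1, hbur⟩ := burgess_csh η hη
  have h1 := (savV_csh n l hn2 hodd hl (θ := 1 / 4 + η) (δ := δ) (η := η) (u := u) (κ := κ) hδ hη hu hu1 hκ).scale
    1 η le_rfl hη.le
  obtain ⟨D0, hD0⟩ := eventually_atTop.1 ((tendsto_rpow_atTop hη).eventually_ge_atTop P0)
  refine ((h1).or (SavE.small' n l hn2 _ D0).toV).mono ?_
  rintro L _ _ hn V hV ⟨hns, d, f, hdf, hsq, hηd, hdD, hd⟩
  rcases lt_or_ge |(discr L : ℝ)| D0 with hlt | hge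
  · exact Or.inr hlt
  · refine Or.inl ⟨hns, d, f, hdf, hηd, hbur d ((hD0 _ hge).trans hηd) hsq, ?_⟩
    have hD1 := disc_one L
    have hPpos : 0 < |(d : ℝ)| := lt_of_lt_of_le (by positivity) hηd
    rw [Real.rpow_add hPpos, one_mul]
    exact mul_le_mul hd (Real.rpow_le_rpow hPpos.le hdD hη.le) (by positivity) (by linarith)

/-- the smooth range -/
theorem savV_smooth (n l : ℕ) (hn2 : 2 ≤ n) (hodd : Odd n) (hl : 1 ≤ l) {η g u κ : ℝ}
    (hη : 0 < η) (hg0 : 0 < g) (hg1 : g ≤ 1 / 24) (hu : 0 < u) (hu1 : u ≤ 1 / 2) (hκ : 0 < κ) :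
    SavV n l (1 / 2 + 2 * κ - (1 - u / 4) * (1 - u / 4) / wt n l + 2 * g) (fun L _ _ V => NoSub L ∧
      ∃ d f : ℤ, discr L = d * f ^ 2 ∧ Squarefree d.natAbs ∧ |(discr L : ℝ)| ^ η ≤ |(d : ℝ)| ∧
      |(d : ℝ)| ≤ |(discr L : ℝ)| ∧ V ≤ |(d : ℝ)| ^ (1 / 4 : ℝ) ∧
      ∀ p : ℕ, p.Prime → (p : ℤ) ∣ d → (p : ℝ) ≤ V) := by
  have hwr := wt_pos hn2 hl
  obtain ⟨K, hK⟩ := exists_nat_gt (1 / g)
  -- the statement at a grid point
  have key : ∀ i : ℕ, SavV n l (1 / 2 + 2 * κ - (1 - u / 4) * (1 - u / 4) / wt n l)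
      (fun L _ _ V => (2 * g ≤ i * g ∧ (i * g : ℝ) ≤ 1 / 3) ∧ NoSub L ∧
      ∃ d f : ℤ, discr L = d * f ^ 2 ∧ Squarefree d.natAbs ∧
      |(discr L : ℝ)| ^ η ≤ |(d : ℝ)| ∧ |(d : ℝ)| ^ (i * g : ℝ) ≤ V ∧
      ∀ p : ℕ, p.Prime → (p : ℤ) ∣ d → (p : ℝ) ≤ |(d : ℝ)| ^ (i * g - g)) := by
    intro i
    by_cases hi : 2 * g ≤ i * g ∧ (i * g : ℝ) ≤ 1 / 3
    swap
    · exact ⟨1, one_pos, fun L _ _ _ V hV hL => absurd hL.1 hi⟩
    obtain ⟨hi1, hi2⟩ := hi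
    obtain ⟨δ, P0, hδ, hcs⟩ := Pool.Agent.H568.GR.cs' (i * g) g hg0 (by linarith) (by linarith)
    have h1 := savV_csh n l hn2 hodd hl (θ := i * g) (δ := δ) (η := η) (u := u) (κ := κ) hδ hη hu hu1 hκ
    obtain ⟨D0, hD0⟩ := eventually_atTop.1 ((tendsto_rpow_atTop hη).eventually_ge_atTop P0)
    refine ((h1).or (SavE.small' n l hn2 _ D0).toV).mono ?_
    rintro L _ _ hn V hV ⟨-, hns, d, f, hdf, hsq, hηd, hd, hsm⟩
    rcases lt_or_ge |(discr L : ℝ)| D0 with hlt | hge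
    · exact Or.inr hlt
    · have hPd : P0 ≤ |(d : ℝ)| := (hD0 _ hge).trans hηd
      have hcsh : CSH d δ (i * g) := by
        intro x
        obtain ⟨a, q, ha, hq, hDq⟩ : ∃ a q : ℕ, a ≤ 3 ∧ Odd q ∧ d.natAbs = 2 ^ a * q := by
          rcases Nat.even_or_odd d.natAbs with h | h
          · obtain ⟨k, hk⟩ := h.two_dvd
            refine ⟨1, k, by norm_num, ?_, by rw [pow_one, hk]⟩
            by_contra hcon
            rw [Nat.not_odd_iff_even] at hcon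
            obtain ⟨j, hj⟩ := hcon.two_dvd
            have h4 : 2 * 2 ∣ d.natAbs := ⟨j, by rw [hk, hj]; ring⟩
            have := hsq 2 h4
            exact absurd (Nat.isUnit_iff.mp this) (by norm_num)
          · exact ⟨0, d.natAbs, by norm_num, h, by rw [pow_zero, one_mul]⟩
        have hqs : Squarefree q := hsq.squarefree_of_dvd ⟨2 ^ a, by rw [hDq]; ring⟩
        refine hcs d a q hPd ha hq hqs hDq (fun p hp hpq => ?_) x
        exact hsm p hp (Int.natCast_dvd.2 (hpq.trans ⟨2 ^ a, by rw [hDq]; ring⟩))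
      exact Or.inl ⟨hns, d, f, hdf, hηd, hcsh, hd⟩
  have key2 := (SavV.fin key K).scale 1 (2 * g) le_rfl (by positivity)
  refine ((SavE.small' n l hn2 _ 2).toV.or key2).mono ?_
  rintro L _ _ hn V hV ⟨hns, d, f, hdf, hsq, hηd, hdD, hVd, hsm⟩
  rcases lt_or_ge |(discr L : ℝ)| 2 with hlt | hge
  · exact Or.inl hlt
  · right
    obtain ⟨D, hD⟩ : ∃ D : ℝ, D = |(discr L : ℝ)| := ⟨_, rfl⟩
    obtain ⟨P, hP⟩ : ∃ P : ℝ, P = |(d : ℝ)| := ⟨_, rfl⟩
    rw [← hD, ← hP] at hηd hdD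
    rw [← hP] at hVd
    rw [← hD] at hge
    have hD0 : 0 < D := by linarith
    have hD1 : 1 < D := by linarith
    have hP1 : 1 < P := lt_of_lt_of_le (Real.one_lt_rpow hD1 hη) hηd
    have hP0 : 0 < P := by linarith
    have hlP : 0 < Real.log P := Real.log_pos hP1
    have hV0 : 0 < V := by linarith
    -- the exponent
    obtain ⟨θ, hθ⟩ : ∃ θ : ℝ, θ = Real.log V / Real.log P := ⟨_, rfl⟩
    have hPθ : P ^ θ = V := by
      rw [Real.rpow_def_of_pos hP0, hθ]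
      have : Real.log P * (Real.log V / Real.log P) = Real.log V := by field_simp
      rw [this, Real.exp_log hV0]
    have hθ0 : 0 ≤ θ := by rw [hθ]; exact div_nonneg (Real.log_nonneg hV) hlP.le
    have hθ1 : θ ≤ 1 / 4 := by
      rw [hθ, div_le_iff₀ hlP]
      have := Real.log_le_log hV0 hVd
      rwa [Real.log_rpow hP0] at this
    obtain ⟨i, hi⟩ : ∃ i : ℕ, i = ⌊θ / g⌋₊ + 2 := ⟨_, rfl⟩
    have hi1 : (i * g : ℝ) ≤ θ + 2 * g := by
      have h3 : (⌊θ / g⌋₊ : ℝ) ≤ θ / g := Nat.floor_le (by positivity)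
      rw [le_div_iff₀ hg0] at h3
      rw [hi]
      push_cast
      linarith
    have hi2 : θ < i * g - g := by
      have h3 : θ / g < (⌊θ / g⌋₊ : ℝ) + 1 := Nat.lt_floor_add_one _
      rw [div_lt_iff₀ hg0] at h3
      rw [hi]
      push_cast
      linarith
    have hiK : i < K := by
      have h3 : (i : ℝ) < K := by
        refine lt_of_le_of_lt ?_ hK
        rw [le_div_iff₀ hg0]
        linarith
      exact_mod_cast h3
    refine ⟨i, hiK, ⟨?_, by linarith⟩, hns, d, f, hdf, hsq, ?_, ?_, ?_⟩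
    · have : (2 : ℝ) ≤ i := by
        rw [hi]
        push_cast
        have : (0 : ℝ) ≤ (⌊θ / g⌋₊ : ℝ) := Nat.cast_nonneg _
        linarith
      nlinarith
    · rw [← hD, ← hP]
      exact hηd
    · rw [← hP, ← hD, one_mul]
      calc P ^ (i * g : ℝ) ≤ P ^ (θ + 2 * g) := Real.rpow_le_rpow_of_exponent_le hP1.le hi1
        _ = V * P ^ (2 * g) := by rw [Real.rpow_add hP0, hPθ]
        _ ≤ V * D ^ (2 * g) := by
            apply mul_le_mul_of_nonneg_left _ hV0.le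
            exact Real.rpow_le_rpow hP0.le hdD (by positivity)
    · intro p hp hpd
      rw [← hP]
      refine (hsm p hp hpd).trans ?_
      rw [← hPθ]
      exact Real.rpow_le_rpow_of_exponent_le hP1.le hi2.le

/-- **the final statement for odd degrees** -/
theorem finalO (n l : ℕ) (hn2 : 2 ≤ n) (hodd : Odd n) (hl : 1 ≤ l) {ε : ℝ} (hε : 0 < ε) :
    SavV n l (1 / 2 - 1 / wt n l + ε) (fun L _ _ V => NoSub L ∧ ¬ IsSquare (discr L) ∧
      ∃ d f : ℤ, discr L = d * f ^ 2 ∧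
      (|(d : ℝ)| ^ (1 / 4 : ℝ) ≤ V ∨ ∀ p : ℕ, p.Prime → (p : ℤ) ∣ d → (p : ℝ) ≤ V)) := by
  have hwr := wt_pos hn2 hl
  obtain ⟨u, hu⟩ : ∃ u : ℝ, u = min (1 / 2) (ε * wt n l / 4) := ⟨_, rfl⟩
  have hu0 : 0 < u := by rw [hu]; exact lt_min (by norm_num) (by positivity)
  have hu1 : u ≤ 1 / 2 := by rw [hu]; exact min_le_left _ _
  obtain ⟨η, hη⟩ : ∃ η : ℝ, η = min (1 / 24) (ε / 8) := ⟨_, rfl⟩
  have hη0 : 0 < η := by rw [hη]; exact lt_min (by norm_num) (by positivity)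
  have hη1 : η ≤ 1 / 24 := by rw [hη]; exact min_le_left _ _
  have hη2 : η ≤ ε / 8 := by rw [hη]; exact min_le_right _ _
  have hexp : 1 / 2 + 2 * (ε / 8) - (1 - u / 4) * (1 - u / 4) / wt n l + 2 * η ≤ 1 / 2 - 1 / wt n l + ε := by
    have h1 : (1 - u / 4) * (1 - u / 4) / wt n l = 1 / wt n l - (u / 2 - u ^ 2 / 16) / wt n l := by
      rw [← sub_div]
      congr 1
      ring
    have h2 : (u / 2 - u ^ 2 / 16) / wt n l ≤ ε / 4 := by
      rw [div_le_iff₀ hwr]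
      have h3 : u ≤ ε * wt n l / 4 := by rw [hu]; exact min_le_right _ _
      nlinarith [sq_nonneg u]
    rw [h1]
    linarith
  have hT := (savV_tiny n l hn2 hodd hl (η := η) (u := u) (κ := ε / 8) hη0 hu0 hu1 (by positivity)).exp hexp
  have hB := (savV_burgess n l hn2 hodd hl (η := η) (u := u) (κ := ε / 8) hη0 hu0 hu1 (by positivity)).exp
    (e' := 1 / 2 - 1 / wt n l + ε) (by linarith)
  have hS := (savV_smooth n l hn2 hodd hl (η := η) (g := η) (u := u) (κ := ε / 8) hη0 hη0 hη1 hu0 hu1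
    (by positivity)).exp hexp
  refine (hT.or (hB.or hS)).mono ?_
  rintro L _ _ hn V hV ⟨hns, hnsq, d, f, hdf, hcond⟩
  have hDz := discr_ne_zero L
  have hd0 : d ≠ 0 := by
    rintro rfl
    rw [zero_mul] at hdf
    exact hDz hdf
  have hf0 : f ≠ 0 := by
    rintro rfl
    apply hDz
    rw [hdf]
    ring
  obtain ⟨d', g, hdg, hsq⟩ := exists_sqf d hd0
  have hg0 : g ≠ 0 := by
    rintro rfl
    apply hd0
    rw [hdg]
    ring
  have hD1 := disc_one L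
  have hdf' : discr L = d' * (g * f) ^ 2 := by
    rw [hdf, hdg]
    ring
  have hd'd : |(d' : ℝ)| ≤ |(d : ℝ)| := by
    rw [hdg]
    push_cast
    rw [abs_mul, abs_pow, sq_abs]
    apply le_mul_of_one_le_right (abs_nonneg _)
    have : (1 : ℤ) ≤ g ^ 2 := by
      have := sq_pos_of_ne_zero hg0
      omega
    exact_mod_cast this
  have hd'D : |(d' : ℝ)| ≤ |(discr L : ℝ)| := by
    refine hd'd.trans ?_
    rw [hdf]
    push_cast
    rw [abs_mul, abs_pow, sq_abs]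
    apply le_mul_of_one_le_right (abs_nonneg _)
    have : (1 : ℤ) ≤ f ^ 2 := by
      have := sq_pos_of_ne_zero hf0
      omega
    exact_mod_cast this
  rcases le_or_gt |(d' : ℝ)| (|(discr L : ℝ)| ^ η) with h1 | h1
  · exact Or.inl ⟨hns, hnsq, d', g * f, hdf', hsq, h1⟩
  · right
    rcases le_or_gt (|(d' : ℝ)| ^ (1 / 4 : ℝ)) V with h2 | h2
    · exact Or.inl ⟨hns, d', g * f, hdf', hsq, h1.le, hd'D, h2⟩
    · right
      refine ⟨hns, d', g * f, hdf', hsq, h1.le, hd'D, h2.le, ?_⟩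
      rcases hcond with h3 | h3
      · exfalso
        have h4 : |(d' : ℝ)| ^ (1 / 4 : ℝ) ≤ |(d : ℝ)| ^ (1 / 4 : ℝ) :=
          Real.rpow_le_rpow (abs_nonneg _) hd'd (by norm_num)
        linarith
      · intro p hp hpd
        exact h3 p hp (by rw [hdg]; exact Dvd.dvd.mul_right hpd _)

end Pool.Agent.K1H79.QR
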