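import Pool.Agent.K1H79.QR.Gf
import Pool.Agent.H568.GR.Stm2
import Pool.Agent.Helper923.HMertens

/-! # Many squarefree integers composed of primes with symbol `-1` -/

set_option autoImplicit false

namespace Pool.Agent.K1H79.QR

open Finset Filter

/-- the short sums of the symbol of `D` over odd integers show cancellation from `|D| ^ θ` on -/
def CSH (D : ℤ) (δ θ : ℝ) : Prop :=
  ∀ x : ℕ, |∑ n ∈ (Icc 1 x).filter (fun n => Odd n), ((jacobiSym D n : ℤ) : ℝ)| ≤
    |(D : ℝ)| ^ (-δ) * (x + |(D : ℝ)| ^ θ)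

/-- the symbol on odd integers -/
noncomputable def fD (D : ℤ) (n : ℕ) : ℝ := if Odd n then ((jacobiSym D n : ℤ) : ℝ) else 0

theorem jac_cases (D : ℤ) (n : ℕ) : jacobiSym D n = 0 ∨ jacobiSym D n = 1 ∨ jacobiSym D n = -1 :=
  jacobiSym.trichotomy D n

theorem cm_fD (D : ℤ) : CM (fD D) where
  one := by simp [fD]
  mul := by
    intro a b
    unfold fD
    by_cases ha : Odd a
    · by_cases hb : Odd b
      · rw [if_pos (ha.mul hb), if_pos ha, if_pos hb,
          jacobiSym.mul_right' D (by rintro rfl; simp at ha) (by rintro rfl; simp at hb)]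
        push_cast
        rfl
      · rw [if_neg hb, if_neg (fun h => hb (Nat.odd_mul.1 h).2), mul_zero]
    · rw [if_neg ha, if_neg (fun h => ha (Nat.odd_mul.1 h).1), zero_mul]
  bd := by
    intro a
    unfold fD
    split_ifs
    · rcases jac_cases D a with h | h | h <;> rw [h] <;> norm_num
    · simp

theorem sum_fD (D : ℤ) (Y : ℕ) : G (fD D) ∅ Y =
    ∑ n ∈ (Icc 1 Y).filter (fun n => Odd n), ((jacobiSym D n : ℤ) : ℝ) := by
  rw [G_empty (cm_fD D), sum_filter]
  rfl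

theorem two_pow_le_div {a : ℕ} (ha : a ≠ 0) : (2 : ℝ) ^ a.primeFactors.card ≤ (a.divisors.card : ℝ) := by
  have h : 2 ^ a.primeFactors.card ≤ a.divisors.card := by
    rw [← Finset.card_powerset]
    refine Finset.card_le_card_of_injOn (fun s => ∏ p ∈ s, p) ?_ ?_
    · intro s hs
      rw [Finset.mem_coe, Finset.mem_powerset] at hs
      rw [Finset.mem_coe, Nat.mem_divisors]
      refine ⟨(Finset.prod_dvd_prod_of_subset _ _ _ hs).trans (Nat.prod_primeFactors_dvd a), ha⟩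
    · intro s hs t ht hst
      rw [Finset.mem_coe, Finset.mem_powerset] at hs ht
      have e : ∀ u ⊆ a.primeFactors, (∏ p ∈ u, p).primeFactors = u := fun u hu =>
        Nat.primeFactors_prod fun p hp => Nat.prime_of_mem_primeFactors (hu hp)
      simp only at hst
      rw [← e s hs, ← e t ht, hst]
  exact_mod_cast h

theorem minus (hDIV : Pool.Agent.H568.GR.S_DIV) {θ δ κ : ℝ} (hθ : 0 < θ) (hθ1 : θ ≤ 1) (hδ : 0 < δ) (hδ1 : δ ≤ 1)
    (hκ : 1 ≤ κ) (hκ2 : Real.log κ < 1 / 2) :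
    ∃ c P0 : ℝ, 0 < c ∧ ∀ D : ℤ, P0 ≤ |(D : ℝ)| → CSH D δ θ → ∀ T : ℕ, T ≠ 0 → (2 * D.natAbs) ∣ T →
      ∀ z : ℕ, |(D : ℝ)| ^ (θ / κ) + 1 ≤ z →
      |(D : ℝ)| ^ c ≤ (T.divisors.card : ℝ) * ((Bs (fun p => jacobiSym D p = -1) T z).card : ℝ) := by
  have hκ0 : 0 < κ := by linarith
  -- a slightly larger `κ'`
  obtain ⟨κ', hκ'1, hκ'2⟩ : ∃ κ' : ℝ, κ < κ' ∧ Real.log κ' < 1 / 2 := by
    have h1 : κ < Real.exp (1 / 2) := by
      rw [← Real.log_lt_iff_lt_exp hκ0]; exact hκ2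
    obtain ⟨κ', h2, h3⟩ := exists_between h1
    exact ⟨κ', h2, by rw [Real.log_lt_iff_lt_exp (by linarith)]; exact h3⟩
  have hκ'0 : 0 < κ' := by linarith
  have hκ'3 : κ' ≤ 2 := by
    by_contra hcon
    push Not at hcon
    have h1 := Real.log_lt_log (by norm_num) hcon
    have := Real.log_two_gt_d9
    linarith
  obtain ⟨γ, hγ⟩ : ∃ γ : ℝ, γ = 1 / 2 - Real.log κ' := ⟨_, rfl⟩
  have hγ0 : 0 < γ := by rw [hγ]; linarith
  obtain ⟨C, hC0, hC⟩ := Pool.Agent.Helper923.HMertens.mertens_ratio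
  obtain ⟨C1, hC1, hdiv⟩ := hDIV (δ / 4) (by positivity)
  obtain ⟨k, hk⟩ : ∃ k : ℕ, 3 / 2 ^ k ≤ δ / 4 := by
    obtain ⟨k, hk⟩ := pow_unbounded_of_one_lt (12 / δ) (by norm_num : (1 : ℝ) < 2)
    refine ⟨k, ?_⟩
    rw [div_lt_iff₀ hδ] at hk
    rw [div_le_iff₀ (by positivity)]
    nlinarith
  obtain ⟨c1, hc1⟩ : ∃ c1 : ℝ, c1 = γ / (8 * C1) / 64 := ⟨_, rfl⟩
  have hc10 : 0 < c1 := by rw [hc1]; positivity
  have e1 : ∀ᶠ P : ℝ in atTop, Real.log 2 ≤ (κ' / κ - 1) * θ * Real.log P := by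
    have : 0 < (κ' / κ - 1) * θ := by
      apply mul_pos _ hθ
      rw [sub_pos, lt_div_iff₀ hκ0]
      linarith
    exact (Real.tendsto_log_atTop.const_mul_atTop this).eventually_ge_atTop _
  have e2 : ∀ᶠ P : ℝ in atTop, 2 * C / γ + 1 ≤ θ / κ * Real.log P :=
    (Real.tendsto_log_atTop.const_mul_atTop (by positivity)).eventually_ge_atTop _
  have e3 : ∀ᶠ P : ℝ in atTop, 1 / c1 ≤ P ^ (δ / 4) :=
    (tendsto_rpow_atTop (by positivity)).eventually_ge_atTop _
  obtain ⟨P0, hP0⟩ := eventually_atTop.1 (e1.and (e2.and (e3.and (eventually_ge_atTop (2 : ℝ)))))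
  refine ⟨δ / (4 * (3 * k + 1)), P0, by positivity, fun D hD hcs T hT hDT z hz => ?_⟩
  obtain ⟨g1, g2, g3, g4⟩ := hP0 _ hD
  obtain ⟨P, hP⟩ : ∃ P : ℝ, P = |(D : ℝ)| := ⟨_, rfl⟩
  rw [← hP] at g1 g2 g3 g4 hz ⊢
  have hP1 : 1 ≤ P := by linarith
  have hPpos : 0 < P := by linarith
  have hlP : 0 ≤ Real.log P := Real.log_nonneg hP1
  have hX1' : 1 ≤ P ^ θ := Real.one_le_rpow hP1 hθ.le
  obtain ⟨X, hX⟩ : ∃ X : ℕ, X = ⌈P ^ θ⌉₊ := ⟨_, rfl⟩
  have hXl : P ^ θ ≤ X := by rw [hX]; exact Nat.le_ceil _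
  have hXu : (X : ℝ) ≤ 2 * P ^ θ := by
    have h1 : (X : ℝ) < P ^ θ + 1 := by rw [hX]; exact Nat.ceil_lt_add_one (by positivity)
    linarith
  have hX1 : (1 : ℝ) ≤ X := hX1'.trans hXl
  have hX1n : 1 ≤ X := by exact_mod_cast hX1
  have hXpos : (0 : ℝ) < X := by linarith
  have hy1' : 1 ≤ P ^ (θ / κ) := Real.one_le_rpow hP1 (by positivity)
  obtain ⟨y, hy⟩ : ∃ y : ℕ, y = ⌈P ^ (θ / κ)⌉₊ := ⟨_, rfl⟩
  have hyl : P ^ (θ / κ) ≤ y := by rw [hy]; exact Nat.le_ceil _
  have hyu' : (y : ℝ) < P ^ (θ / κ) + 1 := by rw [hy]; exact Nat.ceil_lt_add_one (by positivity)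
  have hyz : y ≤ z := by
    have h1 : (y : ℝ) ≤ z := by linarith
    exact_mod_cast h1
  have hyu : (y : ℝ) ≤ 2 * P := by
    have h1 : P ^ (θ / κ) ≤ P ^ (1 : ℝ) := by
      apply Real.rpow_le_rpow_of_exponent_le hP1
      rw [div_le_one hκ0]
      linarith
    rw [Real.rpow_one] at h1
    linarith
  have hyr : (1 : ℝ) ≤ y := hy1'.trans hyl
  have hy1 : 1 ≤ y := by exact_mod_cast hyr
  have hlyl : θ / κ * Real.log P ≤ Real.log y := by
    have h1 := Real.log_le_log (by positivity) hyl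
    rwa [Real.log_rpow hPpos] at h1
  have hly1 : 1 ≤ Real.log y := by
    have : 0 ≤ 2 * C / γ := by positivity
    linarith
  have hy2 : 2 ≤ y := by
    by_contra hcon
    have h1 : y = 1 := by omega
    rw [h1] at hly1
    simp at hly1
    linarith
  have hlX : Real.log X ≤ κ' * Real.log y := by
    have h1 : Real.log X ≤ Real.log 2 + θ * Real.log P := by
      have h2 := Real.log_le_log hXpos hXu
      rwa [Real.log_mul (by norm_num) (by positivity), Real.log_rpow hPpos] at h2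
    have h2 : κ' * (θ / κ * Real.log P) ≤ κ' * Real.log y := mul_le_mul_of_nonneg_left hlyl hκ'0.le
    have h3 : κ' * (θ / κ * Real.log P) = (κ' / κ - 1) * θ * Real.log P + θ * Real.log P := by
      field_simp
      ring
    linarith
  have hXy : X ≤ y ^ 2 := by
    have h1 : Real.log X ≤ Real.log ((y : ℝ) ^ 2) := by
      rw [Real.log_pow]
      push_cast
      nlinarith
    have h2 := (Real.log_le_log_iff hXpos (by positivity)).1 h1
    exact_mod_cast h2
  -- the exceptional primes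
  have hE : ∀ p ∈ exc (fD D) y, p ≤ y := fun p hp => (mem_exc.1 hp).1
  have hEp : ∀ p ∈ exc (fD D) y, p.Prime := fun p hp => (mem_exc.1 hp).2.1
  obtain ⟨V, hV⟩ : ∃ V : ℝ, V = ((Cc (exc (fD D) y) X).card : ℝ) := ⟨_, rfl⟩
  have hV0 : 0 ≤ V := by rw [hV]; positivity
  -- the upper bound
  have hup : |G (fD D) (exc (fD D) y) X| ≤ 4 * C1 * P ^ (-(3 * δ / 4)) * V * X := by
    have h1 := G_le_W (cm_fD D) (fun Y => P ^ (-δ) * (Y + P ^ θ)) (fun Y => by
      rw [sum_fD]
      have := hcs Y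
      rw [← hP] at this
      exact this) (exc (fD D) y) hEp X
    refine h1.trans ?_
    unfold W
    have h2 : ∀ a ∈ Cc (exc (fD D) y) X, (2 : ℝ) ^ a.primeFactors.card * (P ^ (-δ) * (((X / a : ℕ) : ℝ) + P ^ θ)) ≤
        4 * C1 * P ^ (-(3 * δ / 4)) * X := by
      intro a ha
      rw [mem_Cc] at ha
      have ha0 : a ≠ 0 := by omega
      have h3 : (2 : ℝ) ^ a.primeFactors.card ≤ C1 * (2 * P ^ (δ / 4)) := by
        refine (two_pow_le_div ha0).trans ((hdiv a ha.1).trans ?_)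
        refine mul_le_mul_of_nonneg_left ?_ (by linarith)
        calc (a : ℝ) ^ (δ / 4) ≤ (2 * P ^ θ) ^ (δ / 4) := by
              apply Real.rpow_le_rpow (Nat.cast_nonneg _) _ (by positivity)
              refine le_trans ?_ hXu
              exact_mod_cast ha.2.1
          _ = 2 ^ (δ / 4) * (P ^ θ) ^ (δ / 4) := Real.mul_rpow (by norm_num) (by positivity)
          _ ≤ 2 * P ^ (δ / 4) := by
              apply mul_le_mul
              · calc (2 : ℝ) ^ (δ / 4) ≤ 2 ^ (1 : ℝ) := Real.rpow_le_rpow_of_exponent_le (by norm_num) (by linarith)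
                  _ = 2 := Real.rpow_one 2
              · rw [← Real.rpow_mul hPpos.le]
                apply Real.rpow_le_rpow_of_exponent_le hP1
                nlinarith
              · positivity
              · norm_num
      have h4 : ((X / a : ℕ) : ℝ) ≤ X := by exact_mod_cast Nat.div_le_self X a
      calc (2 : ℝ) ^ a.primeFactors.card * (P ^ (-δ) * (((X / a : ℕ) : ℝ) + P ^ θ)) ≤
            (C1 * (2 * P ^ (δ / 4))) * (P ^ (-δ) * (X + X)) := by
            apply mul_le_mul h3 _ (by positivity) (by positivity)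
            apply mul_le_mul_of_nonneg_left _ (by positivity)
            linarith
        _ = 4 * C1 * (P ^ (δ / 4) * P ^ (-δ)) * X := by ring
        _ = _ := by
            rw [← Real.rpow_add hPpos]
            congr 3
            ring
    calc _ ≤ ∑ a ∈ Cc (exc (fD D) y) X, 4 * C1 * P ^ (-(3 * δ / 4)) * X := sum_le_sum h2
      _ = _ := by
        rw [sum_const, nsmul_eq_mul, hV]
        ring
  -- the lower bound
  have hlow : γ * X ≤ |G (fD D) (exc (fD D) y) X| := by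
    refine le_trans ?_ (vinG (cm_fD D) y X)
    have h3 : ∑ p ∈ (Ioc y X).filter Nat.Prime, (1 : ℝ) / p ≤ Real.log κ' + C / Real.log y := by
      have hlκ : 0 ≤ Real.log κ' := Real.log_nonneg (by linarith)
      have hCl : 0 ≤ C / Real.log y := by positivity
      rcases le_or_gt X y with hXy | hXy
      · rw [Finset.Ioc_eq_empty_of_le hXy, Finset.filter_empty, Finset.sum_empty]
        linarith
      · have hm2 := (abs_le.mp (hC y X hy2 hXy.le)).2
        have hlX0 : 0 < Real.log X := Real.log_pos (by exact_mod_cast (by omega : 1 < X))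
        have hr : Real.log X / Real.log y ≤ κ' := by rwa [div_le_iff₀ (by linarith)]
        have := Real.log_le_log (div_pos hlX0 (by linarith)) hr
        linarith
    have h4 : 2 * (C / Real.log y) ≤ γ := by
      rw [← mul_div_assoc, div_le_iff₀ (by linarith)]
      have h5 : 2 * C / γ ≤ Real.log y := by linarith
      rw [div_le_iff₀ hγ0] at h5
      linarith [mul_comm γ (Real.log y)]
    have h5 : γ ≤ 1 - 2 * ∑ p ∈ (Ioc y X).filter Nat.Prime, (1 : ℝ) / p := by
      rw [hγ] at h4 ⊢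
      linarith
    nlinarith
  have hVl : γ / (8 * C1) * P ^ (3 * δ / 4) ≤ V := by
    have h1 : γ ≤ 4 * C1 * P ^ (-(3 * δ / 4)) * V := by
      have h2 := hlow.trans hup
      exact le_of_mul_le_mul_right (by linarith) hXpos
    have h2 : P ^ (-(3 * δ / 4)) * P ^ (3 * δ / 4) = 1 := by
      rw [← Real.rpow_add hPpos]
      have : -(3 * δ / 4) + 3 * δ / 4 = 0 := by ring
      rw [this, Real.rpow_zero]
    have h3 : 0 < P ^ (3 * δ / 4) := Real.rpow_pos_of_pos hPpos _
    rw [div_mul_eq_mul_div, div_le_iff₀ (by positivity)]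
    calc γ * P ^ (3 * δ / 4) ≤ (4 * C1 * P ^ (-(3 * δ / 4)) * V) * P ^ (3 * δ / 4) :=
          mul_le_mul_of_nonneg_right h1 h3.le
      _ = 4 * C1 * V * (P ^ (-(3 * δ / 4)) * P ^ (3 * δ / 4)) := by ring
      _ = 4 * C1 * V := by rw [h2, mul_one]
      _ ≤ V * (8 * C1) := by nlinarith
  -- from the composed integers to the squarefree ones
  obtain ⟨m, hm⟩ : ∃ m : ℝ, m = ((Ms (exc (fD D) y) y).card : ℝ) := ⟨_, rfl⟩
  have hm1 : 1 ≤ m := by
    rw [hm]
    have : 1 ∈ Ms (exc (fD D) y) y := by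
      rw [mem_Ms]
      exact ⟨le_rfl, hy1, squarefree_one, fun p hp h => absurd (Nat.dvd_one.1 h) hp.one_lt.ne'⟩
    exact_mod_cast Finset.card_pos.2 ⟨1, this⟩
  have hVu : V ≤ (m ^ k * (y : ℝ) ^ (1 / 2 ^ k : ℝ)) ^ 3 := by
    have h1 : V ≤ ((Cc (exc (fD D) y) y).card : ℝ) ^ 3 := by
      rw [hV]
      exact_mod_cast cube _ hE hXy hy1
    refine h1.trans ?_
    gcongr
    rw [hm]
    exact sq_iter _ k y hy1
  have hVu2 : V ≤ m ^ (3 * k) * (8 * P ^ (δ / 4)) := by
    refine hVu.trans ?_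
    rw [mul_pow, ← pow_mul, mul_comm k 3]
    refine mul_le_mul_of_nonneg_left ?_ (by positivity)
    calc ((y : ℝ) ^ (1 / 2 ^ k : ℝ)) ^ 3 = (y : ℝ) ^ (3 / 2 ^ k : ℝ) := by
          rw [← Real.rpow_natCast, ← Real.rpow_mul (by linarith)]
          congr 1
          push_cast
          ring
      _ ≤ (2 * P) ^ (3 / 2 ^ k : ℝ) := Real.rpow_le_rpow (by linarith) hyu (by positivity)
      _ = 2 ^ (3 / 2 ^ k : ℝ) * P ^ (3 / 2 ^ k : ℝ) := Real.mul_rpow (by norm_num) hPpos.le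
      _ ≤ 8 * P ^ (δ / 4) := by
          apply mul_le_mul
          · calc (2 : ℝ) ^ (3 / 2 ^ k : ℝ) ≤ 2 ^ (3 : ℝ) := by
                  apply Real.rpow_le_rpow_of_exponent_le (by norm_num)
                  rw [div_le_iff₀ (by positivity)]
                  have : (1 : ℝ) ≤ 2 ^ k := one_le_pow₀ (by norm_num)
                  linarith
              _ = 8 := by norm_num
          · exact Real.rpow_le_rpow_of_exponent_le hP1 hk
          · positivity
          · norm_num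
  have hm3 : P ^ (δ / 4) ≤ m ^ (3 * k) := by
    have h1 : γ / (8 * C1) * P ^ (3 * δ / 4) ≤ m ^ (3 * k) * (8 * P ^ (δ / 4)) := hVl.trans hVu2
    have h2 : P ^ (3 * δ / 4) = P ^ (δ / 4) * P ^ (δ / 4) * P ^ (δ / 4) := by
      rw [← Real.rpow_add hPpos, ← Real.rpow_add hPpos]
      congr 1
      ring
    have h3 : 0 < P ^ (δ / 4) := Real.rpow_pos_of_pos hPpos _
    have h4 : 1 ≤ c1 * P ^ (δ / 4) := by
      rw [div_le_iff₀ hc10] at g3
      linarith
    have h5 : γ / (8 * C1) = 64 * c1 := by rw [hc1]; ring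
    rw [h2, h5] at h1
    have h6 : 8 * (P ^ (δ / 4) * P ^ (δ / 4)) ≤ m ^ (3 * k) * P ^ (δ / 4) := by
      have h7 : 64 * (1 * (P ^ (δ / 4) * P ^ (δ / 4))) ≤ 64 * ((c1 * P ^ (δ / 4)) * (P ^ (δ / 4) * P ^ (δ / 4))) := by
        gcongr
      nlinarith
    have h8 : (8 * P ^ (δ / 4)) * P ^ (δ / 4) ≤ m ^ (3 * k) * P ^ (δ / 4) := by linarith
    have h9 := le_of_mul_le_mul_right h8 h3
    linarith
  have hm4 : P ^ (δ / (4 * (3 * k + 1))) ≤ m := by
    have h1 : P ^ (δ / 4) ≤ m ^ (3 * k + 1) := by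
      rw [pow_succ]
      calc P ^ (δ / 4) ≤ m ^ (3 * k) := hm3
        _ ≤ m ^ (3 * k) * m := le_mul_of_one_le_right (by positivity) hm1
    have h2 : (P ^ (δ / (4 * (3 * k + 1)))) ^ (3 * k + 1) = P ^ (δ / 4) := by
      rw [← Real.rpow_natCast, ← Real.rpow_mul hPpos.le]
      congr 1
      push_cast
      field_simp
    rw [← h2] at h1
    exact le_of_pow_le_pow_left₀ (by omega) (by linarith) h1
  refine hm4.trans ?_
  rw [hm]
  have hfin := coprime_step (Ms (exc (fD D) y) y) (P := fun p => jacobiSym D p = -1) (z := z) hT (by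
    intro a ha
    rw [mem_Ms] at ha
    refine ⟨ha.1, ha.2.1.trans hyz, ha.2.2.1, fun p hp hpa hpT => ?_⟩
    have h1 := (mem_exc.1 (ha.2.2.2 p hp hpa)).2.2
    have hp2 : ¬ 2 = p := by
      rintro rfl
      exact hpT ((Dvd.intro _ rfl).trans hDT)
    have hpD : ¬ p ∣ D.natAbs := fun h => hpT ((h.mul_left 2).trans hDT)
    have hodd : Odd p := hp.odd_of_ne_two (fun h => hp2 h.symm)
    unfold fD at h1
    rw [if_pos hodd] at h1
    rcases jac_cases D p with h | h | h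
    · exfalso
      haveI : Fact p.Prime := ⟨hp⟩
      rw [← jacobiSym.legendreSym.to_jacobiSym, legendreSym.eq_zero_iff, ZMod.intCast_zmod_eq_zero_iff_dvd] at h
      exact hpD (Int.natCast_dvd.1 h)
    · rw [h] at h1
      norm_num at h1
    · exact h)
  exact_mod_cast hfin

end Pool.Agent.K1H79.QR
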