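import Pool.Agent.R852.BC.Main
import Pool.Agent.K1H79.QR.Minus

/-! # Burgess' bound for the short sums of the symbol of a squarefree integer -/

set_option autoImplicit false

namespace Pool.Agent.K1H79.QR

open Finset Filter Pool.Agent.R852.BC Pool.Agent.H471R4.BW

/-- the character of a squarefree integer -/
theorem exists_char_sq (D : ℤ) (hD : Squarefree D.natAbs) (h9 : 9 ≤ D.natAbs) :
    ∃ (N : ℕ) (θ : MulChar (ZMod 8) ℤ), 2 ≤ N ∧ Odd N ∧ Squarefree N ∧ N ≤ D.natAbs ∧ D.natAbs ≤ 2 * N ∧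
      ∀ l : ℕ, Odd l → jacobiSym D l = θ (l : ZMod 8) * jacobiSym (l : ℤ) N := by
  obtain ⟨e, N, he, hNodd, hsN⟩ : ∃ e N : ℕ, e ≤ 1 ∧ Odd N ∧ D.natAbs = 2 ^ e * N := by
    rcases Nat.even_or_odd D.natAbs with h | h
    · obtain ⟨k, hk⟩ := h.two_dvd
      refine ⟨1, k, le_rfl, ?_, by rw [pow_one, hk]⟩
      by_contra hcon
      rw [Nat.not_odd_iff_even] at hcon
      obtain ⟨j, hj⟩ := hcon.two_dvd
      have h4 : 2 * 2 ∣ D.natAbs := ⟨j, by rw [hk, hj]; ring⟩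
      have := hD 2 h4
      exact absurd (Nat.isUnit_iff.mp this) (by norm_num)
    · exact ⟨0, D.natAbs, by norm_num, h, by rw [pow_zero, one_mul]⟩
  have hNs : N ∣ D.natAbs := ⟨2 ^ e, by rw [hsN]; ring⟩
  have hNsq : Squarefree N := hD.squarefree_of_dvd hNs
  have h2e : 2 ^ e ≤ 2 := by
    calc 2 ^ e ≤ 2 ^ 1 := Nat.pow_le_pow_right (by norm_num) he
      _ = 2 := by norm_num
  have h2N : D.natAbs ≤ 2 * N := by
    rw [hsN]
    exact Nat.mul_le_mul_right _ h2e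
  obtain ⟨a, ha, hDa⟩ : ∃ a : ℕ, a ≤ 1 ∧ D = (-1) ^ a * (2 ^ e * N) := by
    have h1 : ((D.natAbs : ℕ) : ℤ) = 2 ^ e * N := by
      rw [hsN]; push_cast; ring
    rcases Int.natAbs_eq D with h | h
    · exact ⟨0, by norm_num, by rw [← h1, pow_zero, one_mul]; exact h⟩
    · refine ⟨1, le_rfl, ?_⟩
      rw [← h1, pow_one, neg_one_mul]
      exact h
  obtain ⟨k, hk⟩ : ∃ k : ℕ, k = if N % 4 = 3 then 1 else 0 := ⟨_, rfl⟩
  refine ⟨N, chi4' ^ (a + k) * ZMod.χ₈ ^ e, by omega, hNodd, hNsq, Nat.le_of_dvd (by omega) hNs, h2N, ?_⟩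
  intro l hlodd
  have hu : IsUnit (l : ZMod 8) := by
    rw [ZMod.isUnit_iff_coprime]
    have : Nat.Coprime l (2 ^ 3) := Nat.Coprime.pow_right 3 (Nat.coprime_two_right.mpr hlodd)
    simpa using this
  have e2 : jacobiSym D l = ZMod.χ₄ (l : ZMod 4) ^ a * (ZMod.χ₈ (l : ZMod 8) ^ e *
      jacobiSym (N : ℤ) l) := by
    rw [hDa, jacobiSym.mul_left, jacobiSym.mul_left, jacobiSym.pow_left (-1),
      jacobiSym.at_neg_one hlodd, jacobiSym.pow_left 2, jacobiSym.at_two hlodd]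
  have e3 := recip N l hNodd hlodd
  have e4 : (chi4' ^ (a + k) * ZMod.χ₈ ^ e : MulChar (ZMod 8) ℤ) (l : ZMod 8) =
      ZMod.χ₄ (l : ZMod 4) ^ (a + k) * ZMod.χ₈ (l : ZMod 8) ^ e := by
    rw [MulChar.mul_apply]
    have p1 : ∀ (χ : MulChar (ZMod 8) ℤ) (n : ℕ), (χ ^ n) (l : ZMod 8) = χ (l : ZMod 8) ^ n := by
      intro χ n
      induction n with
      | zero => rw [pow_zero, pow_zero, MulChar.one_apply hu]
      | succ n ih => rw [pow_succ, pow_succ, MulChar.mul_apply, ih]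
    rw [p1, p1, chi4'_nat l hlodd]
  have e5 : ZMod.χ₄ (l : ZMod 4) ^ k = if N % 4 = 3 then ZMod.χ₄ (l : ZMod 4) else 1 := by
    rw [hk]
    split_ifs <;> simp
  rw [e4, e2, e3, pow_add, e5]
  ring

theorem sum_char (D : ℤ) {N : ℕ} [NeZero N] (θ : MulChar (ZMod 8) ℤ)
    (h : ∀ l : ℕ, Odd l → jacobiSym D l = θ (l : ZMod 8) * jacobiSym (l : ℤ) N) (x : ℕ) :
    |∑ n ∈ (Icc 1 x).filter (fun n => Odd n), ((jacobiSym D n : ℤ) : ℝ)| =
      ‖shortSum (8 * N) (chi 8 N (psi θ)) x‖ := by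
  have h1 : shortSum (8 * N) (chi 8 N (psi θ)) x =
      ((∑ n ∈ (Icc 1 x).filter (fun n => Odd n), ((jacobiSym D n : ℤ) : ℝ) : ℝ) : ℂ) := by
    unfold shortSum
    rw [sum_filter]
    push_cast
    refine sum_congr rfl fun m _ => ?_
    rw [chi_nat, psi_apply, jchar_apply]
    split_ifs with hm
    · rw [h m hm]
      push_cast
      rfl
    · have hnu : ¬ IsUnit ((m : ℕ) : ZMod 8) := by
        rw [ZMod.isUnit_iff_coprime]
        intro hc
        apply hm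
        have h2 : Nat.Coprime m 2 := Nat.Coprime.coprime_dvd_right (by norm_num) hc
        exact Nat.coprime_two_right.mp h2
      rw [MulChar.map_nonunit _ hnu]
      simp
  rw [h1, Complex.norm_real, Real.norm_eq_abs]

theorem burgess_csh (η : ℝ) (hη : 0 < η) : ∃ δ P0 : ℝ, 0 < δ ∧ δ ≤ 1 ∧ ∀ D : ℤ, P0 ≤ |(D : ℝ)| →
    Squarefree D.natAbs → CSH D δ (1 / 4 + η) := by
  obtain ⟨δ1, hδ1, hbur⟩ := bur8 (η / 2) (by positivity)
  obtain ⟨M0, hM0⟩ := eventually_atTop.mp hbur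
  obtain ⟨δ, hδ⟩ : ∃ δ : ℝ, δ = min 1 (min (η / 4) (δ1 / 2)) := ⟨_, rfl⟩
  have hδ0 : 0 < δ := by
    rw [hδ]
    exact lt_min one_pos (lt_min (by positivity) (by positivity))
  have hδa : δ ≤ 1 := by rw [hδ]; exact min_le_left _ _
  have hδb : δ ≤ η / 4 := by rw [hδ]; exact (min_le_right _ _).trans (min_le_left _ _)
  have hδc : δ ≤ δ1 / 2 := by rw [hδ]; exact (min_le_right _ _).trans (min_le_right _ _)
  have f1 : ∀ᶠ x : ℝ in atTop, (8 : ℝ) ^ (1 / 4 + η / 2) ≤ x ^ (η / 4) :=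
    (tendsto_rpow_atTop (by positivity)).eventually_ge_atTop _
  have f2 : ∀ᶠ x : ℝ in atTop, 4 * (1 + Real.log x) ≤ x ^ (δ1 / 2) := by
    have h1 := (isLittleO_log_rpow_atTop (show (0 : ℝ) < δ1 / 2 by positivity)).def
      (show (0 : ℝ) < 1 / 8 by norm_num)
    have h2 : ∀ᶠ x : ℝ in atTop, 8 ≤ x ^ (δ1 / 2) :=
      (tendsto_rpow_atTop (by positivity)).eventually_ge_atTop _
    filter_upwards [h1, h2, eventually_ge_atTop 1] with x hx hx2 hx1
    have h3 : 0 ≤ Real.log x := Real.log_nonneg hx1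
    rw [Real.norm_eq_abs, Real.norm_eq_abs, abs_of_nonneg h3, abs_of_nonneg (by positivity)] at hx
    linarith
  obtain ⟨P1, hP1⟩ := eventually_atTop.1 f1
  obtain ⟨P2, hP2⟩ := eventually_atTop.1 f2
  refine ⟨δ, max (max P1 P2) (max 9 M0), hδ0, hδa, fun D hD hsq x => ?_⟩
  obtain ⟨P, hP⟩ : ∃ P : ℝ, P = |(D : ℝ)| := ⟨_, rfl⟩
  rw [← hP] at hD ⊢
  have hPnat : P = (D.natAbs : ℝ) := by
    rw [hP, Nat.cast_natAbs, Int.cast_abs]
  have hD1 : P1 ≤ P := ((le_max_left _ _).trans (le_max_left _ _)).trans hD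
  have hD2 : P2 ≤ P := ((le_max_right _ _).trans (le_max_left _ _)).trans hD
  have hD3 : 9 ≤ P := ((le_max_left _ _).trans (le_max_right _ _)).trans hD
  have hD4 : (M0 : ℝ) ≤ P := ((le_max_right _ _).trans (le_max_right _ _)).trans hD
  have h9 : 9 ≤ D.natAbs := by
    rw [hPnat] at hD3
    exact_mod_cast hD3
  obtain ⟨N, θ, hN2, hNodd, hNsq, hND, hDN, hval⟩ := exists_char_sq D hsq h9
  have : NeZero N := ⟨by omega⟩
  have : NeZero (8 * N) := ⟨by omega⟩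
  rw [sum_char D θ hval x]
  have hχ1 : chi 8 N (psi θ) ≠ 1 := chi_ne_one N hNodd hNsq θ (fun h => by omega)
  obtain ⟨q, hq⟩ : ∃ q : ℝ, q = ((8 * N : ℕ) : ℝ) := ⟨_, rfl⟩
  have hND' : (N : ℝ) ≤ P := by rw [hPnat]; exact_mod_cast hND
  have hDN' : P ≤ 2 * N := by rw [hPnat]; exact_mod_cast hDN
  have hq8 : q ≤ 8 * P := by rw [hq]; push_cast; linarith
  have hqP : P ≤ q := by rw [hq]; push_cast; linarith
  have hPpos : 0 < P := by linarith
  have hP1' : 1 ≤ P := by linarith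
  have hqpos : 0 < q := by linarith
  have hq1 : 1 ≤ q := by linarith
  have hx0 : (0 : ℝ) ≤ x := Nat.cast_nonneg x
  rcases lt_or_ge (x : ℝ) (q ^ (1 / 4 + η / 2)) with h1 | h1
  · -- trivial bound
    have h2 := shortSum_triv (chi 8 N (psi θ)) x
    refine h2.trans ?_
    have h3 : (x : ℝ) ≤ P ^ (-δ) * P ^ (1 / 4 + η) := by
      calc (x : ℝ) ≤ q ^ (1 / 4 + η / 2) := h1.le
        _ ≤ (8 * P) ^ (1 / 4 + η / 2) := Real.rpow_le_rpow hqpos.le hq8 (by positivity)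
        _ = 8 ^ (1 / 4 + η / 2) * P ^ (1 / 4 + η / 2) := Real.mul_rpow (by norm_num) hPpos.le
        _ ≤ P ^ (η / 4) * P ^ (1 / 4 + η / 2) := by
            apply mul_le_mul_of_nonneg_right (hP1 P hD1) (by positivity)
        _ = P ^ (η / 4 + (1 / 4 + η / 2)) := by rw [← Real.rpow_add hPpos]
        _ ≤ P ^ (-δ + (1 / 4 + η)) := by
            apply Real.rpow_le_rpow_of_exponent_le hP1'
            linarith
        _ = _ := Real.rpow_add hPpos _ _
    have h4 : 0 ≤ P ^ (-δ) * x := by positivity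
    rw [mul_add]
    linarith
  · rcases le_or_gt (x : ℝ) (q ^ (1 / 2 + δ1)) with h2 | h2
    · -- Burgess
      have hMM0 : M0 ≤ 8 * N := by
        have : (M0 : ℝ) ≤ ((8 * N : ℕ) : ℝ) := by rw [← hq]; linarith
        exact_mod_cast this
      have h3 := hM0 (8 * N) hMM0 N rfl hNodd hNsq (psi θ) x (by rw [← hq]; exact h1) (by rw [← hq]; exact h2)
      rw [← hq] at h3
      refine h3.trans ?_
      have h4 : q ^ (-δ1) ≤ P ^ (-δ) := by
        calc q ^ (-δ1) ≤ P ^ (-δ1) := Real.rpow_le_rpow_of_nonpos hPpos hqP (by linarith)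
          _ ≤ P ^ (-δ) := Real.rpow_le_rpow_of_exponent_le hP1' (by linarith)
      have h5 : 0 ≤ P ^ (-δ) * P ^ (1 / 4 + η) := by positivity
      rw [mul_add]
      have := mul_le_mul_of_nonneg_right h4 hx0
      linarith
    · -- Pólya–Vinogradov
      have h3 := Pool.Agent.H38R2.CG.PVh.sum_le (8 * N) (chi 8 N (psi θ)) (by omega) hχ1 x
      have h3' : ‖shortSum (8 * N) (chi 8 N (psi θ)) x‖ ≤ 4 * √q * (1 + Real.log q) := by
        rw [hq]
        exact h3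
      refine h3'.trans ?_
      have h4 := hP2 q (hD2.trans hqP)
      have h5 : 4 * √q * (1 + Real.log q) ≤ q ^ (-(δ1 / 2)) * q ^ (1 / 2 + δ1) := by
        calc 4 * √q * (1 + Real.log q) = (4 * (1 + Real.log q)) * q ^ (1 / 2 : ℝ) := by
              rw [Real.sqrt_eq_rpow]; ring
          _ ≤ q ^ (δ1 / 2) * q ^ (1 / 2 : ℝ) := by
              apply mul_le_mul_of_nonneg_right h4 (by positivity)
          _ = q ^ (-(δ1 / 2)) * q ^ (1 / 2 + δ1) := by
              rw [← Real.rpow_add hqpos, ← Real.rpow_add hqpos]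
              congr 1
              ring
      have h6 : q ^ (-(δ1 / 2)) ≤ P ^ (-δ) := by
        calc q ^ (-(δ1 / 2)) ≤ P ^ (-(δ1 / 2)) := Real.rpow_le_rpow_of_nonpos hPpos hqP (by linarith)
          _ ≤ P ^ (-δ) := Real.rpow_le_rpow_of_exponent_le hP1' (by linarith)
      have h7 : q ^ (-(δ1 / 2)) * q ^ (1 / 2 + δ1) ≤ P ^ (-δ) * x := by
        apply mul_le_mul h6 h2.le (by positivity) (by positivity)
      have h8 : 0 ≤ P ^ (-δ) * P ^ (1 / 4 + η) := by positivity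
      rw [mul_add]
      linarith

end Pool.Agent.K1H79.QR
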