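import Pool.Agent.K1H79.TOS.Sq2
import Pool.Agent.K1H79.QR.Sep
import Mathlib.NumberTheory.LegendreSymbol.Basic

/-! # The sign of the Frobenius and the discriminant -/

set_option autoImplicit false
set_option linter.unusedSectionVars false
set_option linter.unusedVariables false

namespace Pool.Agent.K1H79.QR

open NumberField Pointwise Ideal
open Pool.Agent.K1H79.TOR (span_prime span_ne_bot mem_of_over)
open Pool.Agent.K1H79.TOS

section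

variable {N : Type} [Field N] [NumberField N] [IsGalois ℚ N]

theorem frob_gen {p : ℕ} (hp : p.Prime) (hu : Unr N p) (P : Ideal (𝓞 N)) [P.IsPrime]
    [P.LiesOver (Ideal.span {(p : ℤ)})] :
    ∃ φ : Gal(N/ℚ), MulAction.stabilizer Gal(N/ℚ) P = Subgroup.zpowers φ ∧
      ∀ x : 𝓞 N, φ • x - x ^ p ∈ P := by
  have hm := span_prime hp
  have hfq : Finite (ℤ ⧸ Ideal.span {(p : ℤ)}) := Ring.HasFiniteQuotients.finiteQuotient (span_ne_bot hp)
  have hP0 : P ≠ ⊥ := Ideal.ne_bot_of_liesOver_of_ne_bot (span_ne_bot hp) P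
  have hPm : P.IsMaximal := (inferInstance : P.IsPrime).isMaximal hP0
  have hin2 : P.inertia Gal(N/ℚ) = ⊥ := hu P inferInstance inferInstance
  have hinj : Function.Injective (Ideal.Quotient.stabilizerHom P (Ideal.span {(p : ℤ)}) Gal(N/ℚ)) := by
    rw [← MonoidHom.ker_eq_bot_iff]
    have h1 := Ideal.Quotient.map_ker_stabilizer_subtype P (Ideal.span {(p : ℤ)}) Gal(N/ℚ)
    rw [hin2, Subgroup.map_eq_bot_iff_of_injective _ (Subgroup.subtype_injective _)] at h1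
    exact h1
  have hfin : Finite (𝓞 N ⧸ P) := Ring.HasFiniteQuotients.finiteQuotient hP0
  let _ : Field (𝓞 N ⧸ P) := Ideal.Quotient.field P
  let _ : Field (ℤ ⧸ Ideal.span {(p : ℤ)}) := Ideal.Quotient.field _
  let _ : Fintype (ℤ ⧸ Ideal.span {(p : ℤ)}) := Fintype.ofFinite _
  have hcard : Fintype.card (ℤ ⧸ Ideal.span {(p : ℤ)}) = p := by
    rw [← Nat.card_eq_fintype_card]
    exact Int.card_ideal_quot p
  let F := FiniteField.frobeniusAlgEquivOfAlgebraic (ℤ ⧸ Ideal.span {(p : ℤ)}) (𝓞 N ⧸ P)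
  obtain ⟨⟨φ, hφ⟩, hφF⟩ := Ideal.Quotient.stabilizerHom_surjective Gal(N/ℚ) (Ideal.span {(p : ℤ)}) P F
  refine ⟨φ, le_antisymm ?_ (Subgroup.zpowers_le.2 hφ), fun x => ?_⟩
  · intro τ hτ
    obtain ⟨k, hk⟩ := (FiniteField.bijective_frobeniusAlgEquivOfAlgebraic_pow
      (ℤ ⧸ Ideal.span {(p : ℤ)}) (𝓞 N ⧸ P)).2 (Ideal.Quotient.stabilizerHom P (Ideal.span {(p : ℤ)}) Gal(N/ℚ) ⟨τ, hτ⟩)
    have hk' : F ^ (k : ℕ) = Ideal.Quotient.stabilizerHom P (Ideal.span {(p : ℤ)}) Gal(N/ℚ) ⟨τ, hτ⟩ := hk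
    rw [← hφF, ← map_pow] at hk'
    have h2 := congrArg Subtype.val (hinj hk')
    refine Subgroup.mem_zpowers_iff.2 ⟨(k : ℕ), ?_⟩
    rw [zpow_natCast]
    exact h2
  · have h1 : Ideal.Quotient.stabilizerHom P (Ideal.span {(p : ℤ)}) Gal(N/ℚ) ⟨φ, hφ⟩ (Ideal.Quotient.mk P x) =
        (Ideal.Quotient.mk P x) ^ p := by
      rw [hφF]
      have h2 := congrFun (FiniteField.coe_frobeniusAlgEquivOfAlgebraic (K := (ℤ ⧸ Ideal.span {(p : ℤ)}))
        (L := (𝓞 N ⧸ P))) (Ideal.Quotient.mk P x)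
      rw [hcard] at h2
      exact h2
    rw [← Ideal.Quotient.eq, map_pow, ← h1]
    rfl

end

section

variable {L N : Type} [Field L] [NumberField L] [Field N] [NumberField N] [Algebra L N] [IsGalois ℚ N]

/-- if only one prime ideal of `L` lies above `p`, the symbol of the discriminant is determined -/
theorem leg_of_inert [IsNormalClosure ℚ L N] (h2 : 1 < Module.finrank ℚ L) {p : ℕ} [hpf : Fact p.Prime]
    (hp2 : p ≠ 2) (hpD : ¬ (p : ℤ) ∣ discr L)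
    (h1 : ∀ 𝔭 𝔭' : Ideal (𝓞 L), 𝔭.IsPrime → 𝔭'.IsPrime → ((p : ℕ) : 𝓞 L) ∈ 𝔭 → ((p : ℕ) : 𝓞 L) ∈ 𝔭' → 𝔭 = 𝔭') :
    legendreSym p (discr L) = -(-1) ^ Module.finrank ℚ L := by
  have hp : p.Prime := hpf.out
  have hm := span_prime hp
  have hgg := gg (HH L N) L
  have hu : Unr N p := unr_of (H := HH L N) core_bot L hp hpD
  obtain ⟨P, hP1, hP2⟩ : ∃ P : Ideal (𝓞 N), P.IsPrime ∧ P.LiesOver (Ideal.span {(p : ℤ)}) := by
    obtain ⟨P⟩ : Nonempty ((Ideal.span {(p : ℤ)}).primesOver (𝓞 N)) := inferInstance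
    exact ⟨P.1, inferInstance, inferInstance⟩
  obtain ⟨φ, hφ, hfr⟩ := frob_gen hp hu P
  -- transitivity
  have htr : ∀ g : Gal(N/ℚ), ∃ k : ℤ, (g : Gal(N/ℚ) ⧸ HH L N) = φ ^ k • ((1 : Gal(N/ℚ)) : Gal(N/ℚ) ⧸ HH L N) := by
    intro g
    have hgp : (g⁻¹ • P).LiesOver (Ideal.span {(p : ℤ)}) := inferInstance
    have hgq : (g⁻¹ • P).IsPrime := inferInstance
    have hov : ∀ Q : Ideal (𝓞 N), Q.LiesOver (Ideal.span {(p : ℤ)}) → ((p : ℕ) : 𝓞 L) ∈ Q.under (𝓞 L) := by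
      intro Q hQ
      rw [Ideal.under_def, Ideal.mem_comap, map_natCast]
      exact mem_of_over Q
    have h7 : P.under (𝓞 L) = (g⁻¹ • P).under (𝓞 L) :=
      h1 _ _ inferInstance inferInstance (hov _ hP2) (hov _ hgp)
    obtain ⟨v, hv⟩ := Algebra.IsInvariant.exists_smul_of_under_eq (𝓞 L) (𝓞 N) (HH L N) _ _ h7
    have h8 : g * v.1 ∈ MulAction.stabilizer Gal(N/ℚ) P := by
      rw [MulAction.mem_stabilizer_iff, mul_smul]
      have h9 : v.1 • P = g⁻¹ • P := hv.symm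
      rw [h9, smul_inv_smul]
    rw [hφ, Subgroup.mem_zpowers_iff] at h8
    obtain ⟨k, hk⟩ := h8
    refine ⟨k, ?_⟩
    have h9 : φ ^ k • ((1 : Gal(N/ℚ)) : Gal(N/ℚ) ⧸ HH L N) = ((φ ^ k * 1 : Gal(N/ℚ)) : Gal(N/ℚ) ⧸ HH L N) := rfl
    rw [h9, mul_one, hk, QuotientGroup.eq, inv_mul_cancel_left]
    exact v.2
  have hcyc : ∀ a b : Gal(N/ℚ) ⧸ HH L N, ∃ k : ℤ, b = φ ^ k • a := by
    intro a b
    obtain ⟨r, rfl⟩ := QuotientGroup.mk_surjective a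
    obtain ⟨s, rfl⟩ := QuotientGroup.mk_surjective b
    obtain ⟨k1, h3⟩ := htr r
    obtain ⟨k2, h4⟩ := htr s
    refine ⟨k2 - k1, ?_⟩
    rw [h3, h4, smul_smul, ← zpow_add, sub_add_cancel]
  have hsg := sgn_cycle (L := L) h2 φ hcyc
  have hsg' : ((sgn L φ : ℤˣ) : ℤ) = -(-1) ^ Module.finrank ℚ L := by
    rw [hsg]
    simp
  rw [← hsg']
  -- the square root of the discriminant
  obtain ⟨s, hs, hσ⟩ := sq_data L N
  have hsint : IsIntegral ℤ s := by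
    refine IsIntegral.of_pow (n := 2) (by norm_num) ?_
    rw [hs]
    exact isIntegral_algebraMap (R := ℤ) (A := N) (x := discr L)
  obtain ⟨u, hu2⟩ : ∃ u : 𝓞 N, (u : N) = s := ⟨⟨s, hsint⟩, rfl⟩
  have hu3 : u ^ 2 = ((discr L : ℤ) : 𝓞 N) := by
    refine RingOfIntegers.ext ?_
    have e1 : (((discr L : ℤ) : 𝓞 N) : N) = (discr L : N) := map_intCast (algebraMap (𝓞 N) N) _
    rw [e1, ← hs, ← hu2]
    rfl
  have hφu : φ • u = ((sgn L φ : ℤ) : 𝓞 N) * u := by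
    refine RingOfIntegers.ext ?_
    have e1 : (((sgn L φ : ℤ) : 𝓞 N) : N) = ((sgn L φ : ℤ) : N) := map_intCast (algebraMap (𝓞 N) N) _
    have e2 : ((φ • u : 𝓞 N) : N) = φ (u : N) := rfl
    have e3 : ((((sgn L φ : ℤ) : 𝓞 N) * u : 𝓞 N) : N) = (((sgn L φ : ℤ) : 𝓞 N) : N) * (u : N) := rfl
    rw [e2, e3, e1, hu2, hσ]
  have hpP : ((p : ℕ) : 𝓞 N) ∈ P := mem_of_over P
  have huP : u ∉ P := by
    intro h
    have h3 : ((discr L : ℤ) : 𝓞 N) ∈ P := by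
      rw [← hu3, sq]
      exact Ideal.mul_mem_left _ _ h
    exact hpD (dvd_of_mem hp hP1 hpP h3)
  have hfu := hfr u
  rw [hφu] at hfu
  -- `sgn - disc ^ ((p - 1) / 2)` lies in `P`
  have hpe : p = 2 * (p / 2) + 1 := by
    have := hp.eq_two_or_odd
    omega
  have h5 : ((sgn L φ : ℤ) : 𝓞 N) * u - u ^ p = (((sgn L φ : ℤ) - (discr L) ^ (p / 2) : ℤ) : 𝓞 N) * u := by
    have e1 : u ^ p = ((discr L : ℤ) : 𝓞 N) ^ (p / 2) * u := by
      conv_lhs => rw [hpe, pow_succ, pow_mul, hu3]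
    rw [e1]
    push_cast
    ring
  rw [h5] at hfu
  have h6 : (((sgn L φ : ℤ) - (discr L) ^ (p / 2) : ℤ) : 𝓞 N) ∈ P := by
    rcases hP1.mem_or_mem hfu with h | h
    · exact h
    · exact absurd h huP
  have h7 : (p : ℤ) ∣ (sgn L φ : ℤ) - (discr L) ^ (p / 2) := dvd_of_mem hp hP1 hpP h6
  have h8 : ((legendreSym p (discr L) : ℤ) : ZMod p) = ((sgn L φ : ℤ) : ZMod p) := by
    rw [legendreSym.eq_pow]
    have h9 := (ZMod.intCast_zmod_eq_zero_iff_dvd _ p).2 h7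
    push_cast at h9
    rw [← sub_eq_zero]
    linear_combination -h9
  have hD0 : ((discr L : ℤ) : ZMod p) ≠ 0 := by
    intro h
    exact hpD ((ZMod.intCast_zmod_eq_zero_iff_dvd _ p).1 h)
  have h10 : (p : ℤ) ∣ legendreSym p (discr L) - (sgn L φ : ℤ) := by
    rw [← ZMod.intCast_zmod_eq_zero_iff_dvd]
    push_cast
    rw [h8, sub_self]
  have hp3 : 3 ≤ p := by
    have := hp.two_le
    omega
  rcases legendreSym.eq_one_or_neg_one p hD0 with h | h <;>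
  rcases Int.units_eq_one_or (sgn L φ) with h' | h' <;>
  rw [h, h'] at h10 ⊢ <;> norm_num at h10 ⊢
  · have := Int.le_of_dvd (by norm_num) h10
    omega
  · have := Int.le_of_dvd (by norm_num) h10
    omega

end

section

variable {L : Type} [Field L] [NumberField L]

theorem two_primes {n : ℕ} (hn2 : 2 ≤ n) (hn : Module.finrank ℚ L = n) {p : ℕ} [hpf : Fact p.Prime]
    (hp2 : p ≠ 2) (hpD : ¬ (p : ℤ) ∣ discr L) (hleg : legendreSym p (discr L) = (-1) ^ n) :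
    ∃ 𝔭 𝔭' : Ideal (𝓞 L), Pr p 𝔭 𝔭' ∧ absNorm 𝔭 ≤ p ^ (n / 2) := by
  have hp : p.Prime := hpf.out
  obtain ⟨𝔭, 𝔭', h1⟩ : ∃ 𝔭 𝔭' : Ideal (𝓞 L), Pr p 𝔭 𝔭' := by
    by_contra hcon
    push Not at hcon
    obtain ⟨N, i1, i2, i3, i4, i5⟩ := exists_nc L
    have h3 := leg_of_inert (L := L) (N := N) (by omega) hp2 hpD (fun 𝔭 𝔭' a1 a2 a3 a4 => by
      by_contra hne
      exact hcon 𝔭 𝔭' ⟨hp, a1, a2, a3, a4, hne⟩)
    rw [hn, hleg] at h3
    rcases neg_one_pow_eq_or ℤ n with h | h <;> rw [h] at h3 <;> norm_num at h3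
  -- the norms
  obtain ⟨_, a1, a2, a3, a4, a5⟩ := h1
  have hm1 := a1.isMaximal (prime_ne_bot hp a3)
  have hm2 := a2.isMaximal (prime_ne_bot hp a4)
  have hcop : IsCoprime 𝔭 𝔭' := by
    rw [Ideal.isCoprime_iff_sup_eq]
    exact hm1.coprime_of_ne hm2 a5
  have hle : Ideal.span {((p : ℕ) : 𝓞 L)} ≤ 𝔭 * 𝔭' := by
    rw [Ideal.mul_eq_inf_of_coprime (Ideal.isCoprime_iff_sup_eq.1 hcop), le_inf_iff,
      Ideal.span_singleton_le_iff_mem, Ideal.span_singleton_le_iff_mem]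
    exact ⟨a3, a4⟩
  have hdvd := Ideal.absNorm_dvd_absNorm_of_le hle
  have hpn : absNorm (Ideal.span {((p : ℕ) : 𝓞 L)}) = p ^ n := by
    rw [Ideal.absNorm_span_natCast, RingOfIntegers.rank, hn]
  rw [hpn, map_mul] at hdvd
  obtain ⟨a, ha, ha'⟩ := (Nat.dvd_prime_pow hp).1 ((Dvd.intro _ rfl).trans hdvd)
  obtain ⟨b, hb, hb'⟩ := (Nat.dvd_prime_pow hp).1 ((Dvd.intro_left _ rfl).trans hdvd)
  rw [ha', hb', ← pow_add] at hdvd
  have hab : a + b ≤ n := (Nat.pow_dvd_pow_iff_le_right hp.one_lt).1 hdvd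
  rcases le_total a b with h | h
  · refine ⟨𝔭, 𝔭', ⟨hp, a1, a2, a3, a4, a5⟩, ?_⟩
    rw [ha']
    exact Nat.pow_le_pow_right hp.pos (by omega)
  · refine ⟨𝔭', 𝔭, ⟨hp, a2, a1, a4, a3, a5.symm⟩, ?_⟩
    rw [hb']
    exact Nat.pow_le_pow_right hp.pos (by omega)

end

end Pool.Agent.K1H79.QR
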