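import Pool.Agent.K1H79.QR.Defs
import Pool.Agent.K1H79.QR.Stick
import Pool.Agent.K1H79.QR.Minus

/-! # From many squarefree integers to the power saving -/

set_option autoImplicit false

namespace Pool.Agent.K1H79.QR

open NumberField Pool.Agent.TH847.LS Pool.Agent.TH847.LG

/-- the exponent of the size condition -/
def wt (n l : ℕ) : ℕ := 2 * (n / 2) * l * (n - 1)

/-- a power saving for the fields of degree `n` with a given property -/
def Sav (n l : ℕ) (Q : ∀ (L : Type) [Field L] [NumberField L], Prop) : Prop :=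
  ∃ δ C : ℝ, 0 < δ ∧ 0 < C ∧ ∀ (L : Type) [Field L] [NumberField L], Module.finrank ℚ L = n → Q L →
    (Nat.card {c : ClassGroup (𝓞 L) // c ^ l = 1} : ℝ) ≤ C * |(discr L : ℝ)| ^ (1 / 2 - δ)

theorem Sav.mono {n l : ℕ} {Q Q' : ∀ (L : Type) [Field L] [NumberField L], Prop} (h : Sav n l Q)
    (hQ : ∀ (L : Type) [Field L] [NumberField L], Module.finrank ℚ L = n → Q' L → Q L) : Sav n l Q' := by
  obtain ⟨δ, C, hδ, hC, h1⟩ := h
  exact ⟨δ, C, hδ, hC, fun L _ _ hn hL => h1 L hn (hQ L hn hL)⟩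

theorem Sav.or {n l : ℕ} {Q Q' : ∀ (L : Type) [Field L] [NumberField L], Prop} (h : Sav n l Q)
    (h' : Sav n l Q') : Sav n l (fun L _ _ => Q L ∨ Q' L) := by
  obtain ⟨δ, C, hδ, hC, h1⟩ := h
  obtain ⟨δ', C', hδ', hC', h2⟩ := h'
  refine ⟨min δ δ', max C C', lt_min hδ hδ', lt_of_lt_of_le hC (le_max_left _ _), ?_⟩
  intro L _ _ hn hL
  have hD := disc_one L
  rcases hL with hL | hL
  · refine (h1 L hn hL).trans ?_
    refine mul_le_mul (le_max_left _ _) ?_ (by positivity) (le_trans hC.le (le_max_left _ _))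
    exact Real.rpow_le_rpow_of_exponent_le hD (by linarith [min_le_left δ δ'])
  · refine (h2 L hn hL).trans ?_
    refine mul_le_mul (le_max_right _ _) ?_ (by positivity) (le_trans hC.le (le_max_left _ _))
    exact Real.rpow_le_rpow_of_exponent_le hD (by linarith [min_le_right δ δ'])

theorem Sav.fin {n l : ℕ} {Q : ℕ → ∀ (L : Type) [Field L] [NumberField L], Prop} (h : ∀ i, Sav n l (Q i))
    (K : ℕ) : Sav n l (fun L _ _ => ∃ i < K, Q i L) := by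
  induction K with
  | zero => exact ⟨1, 1, one_pos, one_pos, fun L _ _ _ hL => absurd hL (by simp)⟩
  | succ K ih =>
    refine (ih.or (h K)).mono ?_
    rintro L _ _ hn ⟨i, hi, hQ⟩
    rcases Nat.lt_succ_iff_lt_or_eq.1 hi with h1 | h1
    · exact Or.inl ⟨i, h1, hQ⟩
    · exact Or.inr (h1 ▸ hQ)

theorem leg_of_jac {L : Type} [Field L] [NumberField L] {d f : ℤ} (hdf : discr L = d * f ^ 2) {p : ℕ}
    [hpf : Fact p.Prime] (hpD : ¬ (p : ℤ) ∣ discr L) : legendreSym p (discr L) = jacobiSym d p := by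
  rw [hdf, legendreSym.mul, ← jacobiSym.legendreSym.to_jacobiSym]
  have h1 : ((f : ℤ) : ZMod p) ≠ 0 := by
    intro h
    apply hpD
    rw [hdf]
    exact Dvd.dvd.mul_left (Dvd.dvd.pow ((ZMod.intCast_zmod_eq_zero_iff_dvd _ p).1 h) (by norm_num)) _
  rw [legendreSym.sq_one' p h1, mul_one]

theorem engine (hDIV : Pool.Agent.H568.GR.S_DIV) (n l : ℕ) (hn2 : 2 ≤ n) (hl : 1 ≤ l) {c η ε : ℝ}
    (hc : 0 < c) (hη : 0 < η) (hε : 0 < ε) :
    Sav n l (fun L _ _ => NoSub L ∧ ∃ d f : ℤ, discr L = d * f ^ 2 ∧ |(discr L : ℝ)| ^ η ≤ |(d : ℝ)| ∧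
      |(d : ℝ)| ^ c ≤ ((2 * (discr L).natAbs).divisors.card : ℝ) *
        ((Bs (fun p => jacobiSym d p = (-1) ^ n) (2 * (discr L).natAbs)
          ⌊|(discr L : ℝ)| ^ ((1 - ε) / wt n l)⌋₊).card : ℝ)) := by
  have hw : 0 < wt n l := by
    unfold wt
    have h1 : 0 < n / 2 := Nat.div_pos hn2 (by norm_num)
    have h2 : 0 < n - 1 := by omega
    positivity
  have hwr : (0 : ℝ) < wt n l := by exact_mod_cast hw
  obtain ⟨κ, hκ⟩ : ∃ κ : ℝ, κ = c * η / 4 := ⟨_, rfl⟩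
  have hκ0 : 0 < κ := by rw [hκ]; positivity
  obtain ⟨C1, hC10, hC1⟩ := Pool.Agent.Y159.PT.W_bound n hn2 κ hκ0
  obtain ⟨C2, hC20, hC2⟩ := hDIV κ hκ0
  obtain ⟨B, hB⟩ : ∃ B : ℝ, B = (2 * 150 ^ l) ^ (n * (n - 1)) := ⟨_, rfl⟩
  obtain ⟨D0, hD0⟩ := Filter.eventually_atTop.1 ((tendsto_rpow_atTop hε).eventually_gt_atTop B)
  obtain ⟨D1, hD1⟩ : ∃ D1 : ℝ, D1 = max 1 D0 := ⟨_, rfl⟩
  have hD11 : 1 ≤ D1 := by rw [hD1]; exact le_max_left _ _
  have hDpow : 1 ≤ D1 ^ (3 * κ) := Real.one_le_rpow hD11 (by positivity)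
  refine ⟨2 * κ, C1 * D1 ^ (3 * κ) * ((2 : ℝ) ^ κ * C2), by positivity, by positivity, ?_⟩
  rintro L _ _ hn ⟨hns, d, f, hdf, hηd, hcd⟩
  obtain ⟨D, hD⟩ : ∃ D : ℝ, D = |(discr L : ℝ)| := ⟨_, rfl⟩
  have hDn : ((discr L).natAbs : ℝ) = D := by
    rw [hD, Nat.cast_natAbs]
    push_cast
    rfl
  have hDz : (discr L).natAbs ≠ 0 := Int.natAbs_ne_zero.2 (discr_ne_zero L)
  have hD_1 : 1 ≤ D := by
    rw [← hDn]
    exact_mod_cast Nat.one_le_iff_ne_zero.2 hDz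
  have hD_0 : 0 < D := by linarith
  rw [← hD] at hcd hηd ⊢
  obtain ⟨K, hK, hW⟩ := hC1 L hn
  rw [hDn] at hW
  have h2κ : 1 ≤ (2 : ℝ) ^ κ := Real.one_le_rpow (by norm_num) hκ0.le
  have hC21 : 1 ≤ (2 : ℝ) ^ κ * C2 := one_le_mul_of_one_le_of_one_le h2κ hC20
  rcases lt_or_ge D D1 with hlt | hge
  · -- small discriminants
    have h2 := class_le_n hn K hK
    have h3 : (Nat.card {c : ClassGroup (𝓞 L) // c ^ l = 1} : ℝ) ≤ (Nat.card (ClassGroup (𝓞 L)) : ℝ) := by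
      exact_mod_cast Nat.card_le_card_of_injective _ Subtype.val_injective
    have h4 : D ^ (1 / 2 + κ) ≤ D1 ^ (3 * κ) * D ^ (1 / 2 - 2 * κ) := by
      have e : D ^ (1 / 2 + κ) = D ^ (3 * κ) * D ^ (1 / 2 - 2 * κ) := by
        rw [← Real.rpow_add hD_0]
        congr 1
        ring
      rw [e]
      gcongr
    calc _ ≤ C1 * D ^ (1 / 2 + κ) := h3.trans (h2.trans hW)
      _ ≤ C1 * (D1 ^ (3 * κ) * D ^ (1 / 2 - 2 * κ)) := by gcongr
      _ ≤ (C1 * (D1 ^ (3 * κ) * D ^ (1 / 2 - 2 * κ))) * ((2 : ℝ) ^ κ * C2) :=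
          le_mul_of_one_le_right (by positivity) hC21
      _ = _ := by ring
  · -- large discriminants
    have g1 : B < D ^ ε := hD0 D ((le_max_right _ _).trans (by rw [← hD1]; exact hge))
    obtain ⟨M, hM⟩ : ∃ M : Finset ℕ, M = Bs (fun p => jacobiSym d p = (-1) ^ n) (2 * (discr L).natAbs)
          ⌊D ^ ((1 - ε) / wt n l)⌋₊ := ⟨_, rfl⟩
    rw [← hM] at hcd
    obtain ⟨S, hS⟩ : ∃ S : Set ℕ, S = {p : ℕ | p.Prime ∧ p ≠ 2 ∧ ¬ (p : ℤ) ∣ discr L ∧
      jacobiSym d p = (-1) ^ n} := ⟨_, rfl⟩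
    have hex : ∀ p : ℕ, ∃ 𝔭 𝔭' : Ideal (𝓞 L), p ∈ S → Pr p 𝔭 𝔭' ∧ Ideal.absNorm 𝔭 ≤ p ^ (n / 2) := by
      intro p
      by_cases hp : p ∈ S
      · have hp' := hp
        rw [hS] at hp'
        obtain ⟨h1, h2, h3, h4⟩ := hp'
        have : Fact p.Prime := ⟨h1⟩
        obtain ⟨𝔭, 𝔭', h5⟩ := two_primes hn2 hn h2 h3 (by rw [leg_of_jac hdf h3, h4])
        exact ⟨𝔭, 𝔭', fun _ => h5⟩
      · exact ⟨⊥, ⊥, fun h => absurd h hp⟩
    choose g g' hg using hex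
    obtain ⟨Y, hY⟩ : ∃ Y : ℝ, Y = D ^ ((1 - ε) / wt n l) := ⟨_, rfl⟩
    have hY0 : 0 ≤ Y := by rw [hY]; positivity
    have hcount := count hn2 hn hns hl (S := S) (f := g) (f' := g') (fun p hp => (hg p hp).1) (h := n / 2)
      (fun p hp => (hg p hp).2) M (Y := Y) (by
        intro m hm
        rw [hM, mem_Bs] at hm
        obtain ⟨h1, h2, h3, h4⟩ := hm
        refine ⟨h3, ?_, fun p hp => ?_⟩
        · rw [hY]
          exact (Nat.le_floor_iff (by positivity)).1 h2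
        · have hpp := Nat.prime_of_mem_primeFactors hp
          obtain ⟨h5, h6⟩ := h4 p hpp (Nat.dvd_of_mem_primeFactors hp)
          rw [hS]
          refine ⟨hpp, ?_, ?_, h6⟩
          · rintro rfl
            exact h5 (dvd_mul_right _ _)
          · intro h7
            exact h5 ((Int.natCast_dvd.1 h7).mul_left _)) (by
        rw [← hD, ← hB]
        have h1 : Y ^ (2 * (n / 2) * l * (n - 1)) = D ^ (1 - ε) := by
          have : 2 * (n / 2) * l * (n - 1) = wt n l := rfl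
          rw [this, hY, ← Real.rpow_natCast, ← Real.rpow_mul hD_0.le, div_mul_cancel₀ _ hwr.ne']
        rw [h1]
        calc B * D ^ (1 - ε) < D ^ ε * D ^ (1 - ε) := by
              apply mul_lt_mul_of_pos_right g1 (by positivity)
          _ = D := by
              rw [← Real.rpow_add hD_0]
              have : ε + (1 - ε) = 1 := by ring
              rw [this, Real.rpow_one]) K hK
    have h5 := hcount.trans hW
    obtain ⟨T, hT⟩ : ∃ T : ℝ, T = (Nat.card {c : ClassGroup (𝓞 L) // c ^ l = 1} : ℝ) := ⟨_, rfl⟩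
    have hT0 : 0 ≤ T := by rw [hT]; exact Nat.cast_nonneg _
    rw [← hT] at h5 ⊢
    obtain ⟨m, hm⟩ : ∃ m : ℝ, m = (M.card : ℝ) := ⟨_, rfl⟩
    have hm0 : 0 ≤ m := by rw [hm]; exact Nat.cast_nonneg _
    rw [← hm] at h5 hcd
    -- divisors
    have h6 : ((2 * (discr L).natAbs).divisors.card : ℝ) ≤ C2 * ((2 : ℝ) ^ κ * D ^ κ) := by
      refine (hC2 (2 * (discr L).natAbs) (by omega)).trans ?_
      refine mul_le_mul_of_nonneg_left ?_ (by linarith)
      rw [← Real.mul_rpow (by norm_num) hD_0.le]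
      push_cast
      rw [hDn]
    have h7 : D ^ (4 * κ) ≤ |(d : ℝ)| ^ c := by
      calc D ^ (4 * κ) = (D ^ η) ^ c := by
            rw [← Real.rpow_mul hD_0.le]
            congr 1
            rw [hκ]
            ring
        _ ≤ |(d : ℝ)| ^ c := Real.rpow_le_rpow (by positivity) hηd hc.le
    have h8 : D ^ (4 * κ) ≤ C2 * ((2 : ℝ) ^ κ * D ^ κ) * m :=
      h7.trans (hcd.trans (mul_le_mul_of_nonneg_right h6 hm0))
    have h9 : D ^ (4 * κ) * T ≤ (C2 * ((2 : ℝ) ^ κ * D ^ κ)) * (C1 * D ^ (1 / 2 + κ)) := by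
      calc D ^ (4 * κ) * T ≤ (C2 * ((2 : ℝ) ^ κ * D ^ κ) * m) * T := mul_le_mul_of_nonneg_right h8 hT0
        _ = (C2 * ((2 : ℝ) ^ κ * D ^ κ)) * (m * T) := by ring
        _ ≤ _ := by
            apply mul_le_mul_of_nonneg_left h5
            have : 0 < C2 := by linarith
            positivity
    have h10 : D ^ κ * D ^ (1 / 2 + κ) = D ^ (4 * κ) * D ^ (1 / 2 - 2 * κ) := by
      rw [← Real.rpow_add hD_0, ← Real.rpow_add hD_0]
      congr 1
      ring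
    have h11 : T ≤ C1 * ((2 : ℝ) ^ κ * C2) * D ^ (1 / 2 - 2 * κ) := by
      have h12 : 0 < D ^ (4 * κ) := by positivity
      have h13 : D ^ (4 * κ) * T ≤ D ^ (4 * κ) * (C1 * ((2 : ℝ) ^ κ * C2) * D ^ (1 / 2 - 2 * κ)) := by
        calc D ^ (4 * κ) * T ≤ (C2 * ((2 : ℝ) ^ κ * D ^ κ)) * (C1 * D ^ (1 / 2 + κ)) := h9
          _ = C1 * ((2 : ℝ) ^ κ * C2) * (D ^ κ * D ^ (1 / 2 + κ)) := by ring
          _ = _ := by rw [h10]; ring
      exact le_of_mul_le_mul_left h13 h12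
    refine h11.trans ?_
    have h14 : 0 ≤ C1 * ((2 : ℝ) ^ κ * C2) * D ^ (1 / 2 - 2 * κ) := by
      have : 0 < C2 := by linarith
      positivity
    calc _ ≤ C1 * ((2 : ℝ) ^ κ * C2) * D ^ (1 / 2 - 2 * κ) * D1 ^ (3 * κ) := le_mul_of_one_le_right h14 hDpow
      _ = _ := by ring

end Pool.Agent.K1H79.QR
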