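import Pool.Agent.K1H79.QR.Eng
import Pool.Agent.K1H79.QR.Plus
import Pool.Agent.K1H79.QR.Burg
import Pool.Agent.H568.GR.All
import Pool.Agent.K1H79.TOS.All2

/-! # Torsion in the class groups of fields whose discriminant has a smooth or a small squarefree part -/

set_option autoImplicit false

namespace Pool.Agent.K1H79.QR

open NumberField Filter Pool.Agent.TH847.LS Pool.Agent.TH847.LG

/-- the gain for odd degrees -/
noncomputable def tt (n : ℕ) : ℝ := if Even n then 1 else Real.exp (1 / 2)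

theorem tt_one (n : ℕ) : 1 ≤ tt n := by
  unfold tt
  split_ifs
  · exact le_rfl
  · exact Real.one_le_exp (by norm_num)

theorem unif (n : ℕ) {θ δ κ : ℝ} (hθ : 0 < θ) (hθ3 : θ ≤ 1 / 3) (hδ : 0 < δ) (hδ1 : δ ≤ 1) (hκ : 0 < κ)
    (hκt : κ < tt n) : ∃ c P0 : ℝ, 0 < c ∧ ∀ D : ℤ, P0 ≤ |(D : ℝ)| → Squarefree D.natAbs → CSH D δ θ →
      ∀ T : ℕ, T ≠ 0 → (2 * D.natAbs) ∣ T → ∀ z : ℕ, |(D : ℝ)| ^ (θ / κ) + 1 ≤ z →
      |(D : ℝ)| ^ c ≤ (T.divisors.card : ℝ) * ((Bs (fun p => jacobiSym D p = (-1) ^ n) T z).card : ℝ) := by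
  rcases Nat.even_or_odd n with hn | hn
  · have h1 : κ < 1 := by
      unfold tt at hκt
      rwa [if_pos hn] at hκt
    have h2 : 0 < θ / κ - θ := by
      rw [sub_pos, lt_div_iff₀ hκ]
      nlinarith
    obtain ⟨ε, hε⟩ : ∃ ε : ℝ, ε = min (θ / κ - θ) (min (θ / 30) (1 / 20)) := ⟨_, rfl⟩
    have hε0 : 0 < ε := by
      rw [hε]
      exact lt_min h2 (lt_min (by positivity) (by norm_num))
    have e1 : ε ≤ θ / κ - θ := by rw [hε]; exact min_le_left _ _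
    have e2 : ε ≤ θ / 30 := by rw [hε]; exact (min_le_right _ _).trans (min_le_left _ _)
    have e3 : ε ≤ 1 / 20 := by rw [hε]; exact (min_le_right _ _).trans (min_le_right _ _)
    obtain ⟨P0, hP0⟩ := plus Pool.Agent.H568.GR.dec Pool.Agent.H568.GR.lval' Pool.Agent.H568.GR.cnt
      Pool.Agent.H568.GR.rec Pool.Agent.H568.GR.dvb (θ := θ) (δ := δ) (ε := ε) hε0 (by linarith)
      (by linarith) hδ
    refine ⟨θ, max P0 1, hθ, fun D hD hsq hcs T hT hDT z hz => ?_⟩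
    have hD1 : 1 ≤ |(D : ℝ)| := (le_max_right _ _).trans hD
    have h3 := hP0 D ((le_max_left _ _).trans hD) hsq hcs T hT hDT z (by
      have h4 : |(D : ℝ)| ^ (θ + ε) ≤ |(D : ℝ)| ^ (θ / κ) :=
        Real.rpow_le_rpow_of_exponent_le hD1 (by linarith)
      linarith)
    rw [hn.neg_one_pow]
    exact h3
  · have h1 : κ < Real.exp (1 / 2) := by
      unfold tt at hκt
      rwa [if_neg (Nat.not_even_iff_odd.2 hn)] at hκt
    have h2 : Real.log (max κ 1) < 1 / 2 := by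
      rw [Real.log_lt_iff_lt_exp (lt_of_lt_of_le one_pos (le_max_right _ _))]
      exact max_lt h1 (Real.one_lt_exp_iff.2 (by norm_num))
    obtain ⟨c, P0, hc, hP0⟩ := minus Pool.Agent.H568.GR.dvb (θ := θ) (δ := δ) (κ := max κ 1) hθ (by linarith)
      hδ hδ1 (le_max_right _ _) h2
    refine ⟨c, max P0 1, hc, fun D hD hsq hcs T hT hDT z hz => ?_⟩
    have hD1 : 1 ≤ |(D : ℝ)| := (le_max_right _ _).trans hD
    have h3 := hP0 D ((le_max_left _ _).trans hD) hcs T hT hDT z (by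
      have h4 : |(D : ℝ)| ^ (θ / max κ 1) ≤ |(D : ℝ)| ^ (θ / κ) := by
        apply Real.rpow_le_rpow_of_exponent_le hD1
        exact div_le_div_of_nonneg_left hθ.le hκ (le_max_left _ _)
      linarith)
    rw [hn.neg_one_pow]
    exact h3

theorem Sav.small (n l : ℕ) (hn2 : 2 ≤ n) (B : ℝ) : Sav n l (fun L _ _ => |(discr L : ℝ)| < B) := by
  obtain ⟨C1, hC10, hC1⟩ := Pool.Agent.Y159.PT.W_bound n hn2 1 one_pos
  refine ⟨1, C1 * (max B 1) ^ 2, one_pos, by positivity, ?_⟩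
  intro L _ _ hn hB
  obtain ⟨K, hK, hW⟩ := hC1 L hn
  obtain ⟨D, hD⟩ : ∃ D : ℝ, D = |(discr L : ℝ)| := ⟨_, rfl⟩
  have hDn : ((discr L).natAbs : ℝ) = D := by
    rw [hD, Nat.cast_natAbs]
    push_cast
    rfl
  have hD1 : 1 ≤ D := by rw [hD]; exact disc_one L
  have hD0 : 0 < D := by linarith
  rw [hDn] at hW
  rw [← hD] at hB ⊢
  have h2 := class_le_n hn K hK
  have h3 : (Nat.card {c : ClassGroup (𝓞 L) // c ^ l = 1} : ℝ) ≤ (Nat.card (ClassGroup (𝓞 L)) : ℝ) := by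
    exact_mod_cast Nat.card_le_card_of_injective _ Subtype.val_injective
  refine h3.trans (h2.trans (hW.trans ?_))
  have h4 : D ^ (1 / 2 + 1 : ℝ) = D ^ 2 * D ^ (1 / 2 - 1 : ℝ) := by
    rw [← Real.rpow_natCast, ← Real.rpow_add hD0]
    norm_num
  rw [h4, mul_assoc]
  gcongr
  exact hB.le.trans (le_max_left _ _)

theorem wt_pos {n l : ℕ} (hn2 : 2 ≤ n) (hl : 1 ≤ l) : (0 : ℝ) < wt n l := by
  have hw : 0 < wt n l := by
    unfold wt
    have h1 : 0 < n / 2 := Nat.div_pos hn2 (by norm_num)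
    have h2 : 0 < n - 1 := by omega
    positivity
  exact_mod_cast hw

/-- the fields with a cancelling character -/
theorem sav_csh (n l : ℕ) (hn2 : 2 ≤ n) (hl : 1 ≤ l) {θ δ κ η ε : ℝ} (hθ : 0 < θ) (hθ3 : θ ≤ 1 / 3)
    (hδ : 0 < δ) (hδ1 : δ ≤ 1) (hκ : 0 < κ) (hκt : κ < tt n) (hη : 0 < η) (hε : 0 < ε) (hε1 : ε < 1) :
    Sav n l (fun L _ _ => NoSub L ∧ ∃ d f : ℤ, discr L = d * f ^ 2 ∧ Squarefree d.natAbs ∧
      |(discr L : ℝ)| ^ η ≤ |(d : ℝ)| ∧ CSH d δ θ ∧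
      |(d : ℝ)| ^ (θ / κ) ≤ |(discr L : ℝ)| ^ ((1 - 2 * ε) / wt n l)) := by
  have hwr := wt_pos hn2 hl
  obtain ⟨c, P0, hc, hP0⟩ := unif n hθ hθ3 hδ hδ1 hκ hκt
  have h1 := engine Pool.Agent.H568.GR.dvb n l hn2 hl hc hη hε
  have e1 : ∀ᶠ x : ℝ in atTop, P0 ≤ x ^ η := (tendsto_rpow_atTop hη).eventually_ge_atTop _
  have e2 : ∀ᶠ x : ℝ in atTop, (3 : ℝ) ≤ x ^ (ε / wt n l) :=
    (tendsto_rpow_atTop (by positivity)).eventually_ge_atTop _
  have e4 : ∀ᶠ x : ℝ in atTop, (4 : ℝ) ≤ x ^ ((1 - ε) / wt n l) :=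
    (tendsto_rpow_atTop (div_pos (by linarith) hwr)).eventually_ge_atTop _
  obtain ⟨D0, hD0⟩ := eventually_atTop.1 (e1.and (e2.and e4))
  refine ((Sav.small n l hn2 D0).or h1).mono ?_
  rintro L _ _ hn ⟨hns, d, f, hdf, hsq, hηd, hcs, hsize⟩
  rcases lt_or_ge |(discr L : ℝ)| D0 with hlt | hge
  · exact Or.inl hlt
  · refine Or.inr ⟨hns, d, f, hdf, hηd, ?_⟩
    obtain ⟨g1, g2, g4⟩ := hD0 _ hge
    obtain ⟨D, hD⟩ : ∃ D : ℝ, D = |(discr L : ℝ)| := ⟨_, rfl⟩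
    have hD1 : 1 ≤ D := by rw [hD]; exact disc_one L
    have hDpos : 0 < D := by linarith
    have hDz : (discr L).natAbs ≠ 0 := Int.natAbs_ne_zero.2 (discr_ne_zero L)
    rw [← hD] at g1 g2 g4 hsize hηd ⊢
    refine hP0 d (g1.trans hηd) hsq hcs _ (by omega) ?_ _ ?_
    · rw [hdf, Int.natAbs_mul]
      exact Nat.mul_dvd_mul_left 2 (dvd_mul_right _ _)
    · have h2 : D ^ ((1 - ε) / wt n l) < (⌊D ^ ((1 - ε) / wt n l)⌋₊ : ℝ) + 1 := Nat.lt_floor_add_one _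
      have h3 : D ^ ((1 - ε) / wt n l) = D ^ (ε / wt n l) * D ^ ((1 - 2 * ε) / wt n l) := by
        rw [← Real.rpow_add hDpos]
        congr 1
        ring
      have h5 : 0 < D ^ ((1 - 2 * ε) / wt n l) := Real.rpow_pos_of_pos hDpos _
      have h6 : 3 * D ^ ((1 - 2 * ε) / wt n l) ≤ D ^ ((1 - ε) / wt n l) := by
        rw [h3]
        exact mul_le_mul_of_nonneg_right g2 h5.le
      linarith

end Pool.Agent.K1H79.QR
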