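import Pool.Agent.K1H79.QR.Burg

/-! # The Pólya–Vinogradov bound for the symbol of a squarefree integer -/

set_option autoImplicit false

namespace Pool.Agent.K1H79.QR

open Finset Filter Pool.Agent.R852.BC Pool.Agent.H471R4.BW

/-- the character of a squarefree integer different from `1` -/
theorem exists_char_all (D : ℤ) (hD : Squarefree D.natAbs) (hD1 : D ≠ 1) :
    ∃ (N : ℕ) (θ : MulChar (ZMod 8) ℤ), N ≠ 0 ∧ Odd N ∧ Squarefree N ∧ N ≤ D.natAbs ∧ (N = 1 → θ ≠ 1) ∧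
      ∀ l : ℕ, Odd l → jacobiSym D l = θ (l : ZMod 8) * jacobiSym (l : ℤ) N := by
  have hD0 : D.natAbs ≠ 0 := hD.ne_zero
  obtain ⟨e, N, he, hNodd, hsN⟩ : ∃ e N : ℕ, e ≤ 1 ∧ Odd N ∧ D.natAbs = 2 ^ e * N := by
    rcases Nat.even_or_odd D.natAbs with h | h
    · obtain ⟨k, hk⟩ := h.two_dvd
      refine ⟨1, k, le_rfl, ?_, by rw [pow_one, hk]⟩
      by_contra hcon
      rw [Nat.not_odd_iff_even] at hcon
      obtain ⟨j, hj⟩ := hcon.two_dvd
      have h4 : 2 * 2 ∣ D.natAbs := ⟨j, by rw [hk, hj]; ring⟩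
      have := hD 2 h4
      exact absurd (Nat.isUnit_iff.mp this) (by norm_num)
    · exact ⟨0, D.natAbs, by norm_num, h, by rw [pow_zero, one_mul]⟩
  have hN0 : N ≠ 0 := by
    rintro rfl
    exact hD0 (by rw [hsN, mul_zero])
  have hNs : N ∣ D.natAbs := ⟨2 ^ e, by rw [hsN]; ring⟩
  have hNsq : Squarefree N := hD.squarefree_of_dvd hNs
  obtain ⟨a, ha, hDa⟩ : ∃ a : ℕ, a ≤ 1 ∧ D = (-1) ^ a * (2 ^ e * N) := by
    have h1 : ((D.natAbs : ℕ) : ℤ) = 2 ^ e * N := by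
      rw [hsN]; push_cast; ring
    rcases Int.natAbs_eq D with h | h
    · exact ⟨0, by norm_num, by rw [← h1, pow_zero, one_mul]; exact h⟩
    · refine ⟨1, le_rfl, ?_⟩
      rw [← h1, pow_one, neg_one_mul]
      exact h
  obtain ⟨k, hk⟩ : ∃ k : ℕ, k = if N % 4 = 3 then 1 else 0 := ⟨_, rfl⟩
  refine ⟨N, chi4' ^ (a + k) * ZMod.χ₈ ^ e, hN0, hNodd, hNsq, Nat.le_of_dvd (by omega) hNs, ?_, ?_⟩
  · intro hN1 hθ
    have hk0 : k = 0 := by rw [hk, hN1]; norm_num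
    rw [hk0, add_zero] at hθ
    have hval : ∀ x : ZMod 8, (chi4' ^ a * ZMod.χ₈ ^ e : MulChar (ZMod 8) ℤ) x = (1 : MulChar (ZMod 8) ℤ) x := by
      intro x; rw [hθ]
    have h3 : (1 : MulChar (ZMod 8) ℤ) (3 : ZMod 8) = 1 := MulChar.one_apply (by decide)
    have h5 : (1 : MulChar (ZMod 8) ℤ) (5 : ZMod 8) = 1 := MulChar.one_apply (by decide)
    have v3 := hval 3
    have v5 := hval 5
    rw [h3] at v3
    rw [h5] at v5
    have c3 : chi4' (3 : ZMod 8) = -1 := by decide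
    have c5 : chi4' (5 : ZMod 8) = 1 := by decide
    have d3 : ZMod.χ₈ (3 : ZMod 8) = -1 := by decide
    have d5 : ZMod.χ₈ (5 : ZMod 8) = -1 := by decide
    have ha' : a = 0 ∨ a = 1 := by omega
    have he' : e = 0 ∨ e = 1 := by omega
    rcases ha' with ha0 | ha1 <;> rcases he' with he0 | he1
    · apply hD1
      rw [hDa, ha0, he0, hN1]
      norm_num
    · rw [ha0, he1, pow_zero, one_mul, pow_one, d3] at v3
      norm_num at v3
    · rw [ha1, he0, pow_zero, mul_one, pow_one, c3] at v3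
      norm_num at v3
    · rw [ha1, he1, pow_one, pow_one, MulChar.mul_apply, c5, d5] at v5
      norm_num at v5
  · intro l hlodd
    have hu : IsUnit (l : ZMod 8) := by
      rw [ZMod.isUnit_iff_coprime]
      have : Nat.Coprime l (2 ^ 3) := Nat.Coprime.pow_right 3 (Nat.coprime_two_right.mpr hlodd)
      simpa using this
    have e2 : jacobiSym D l = ZMod.χ₄ (l : ZMod 4) ^ a * (ZMod.χ₈ (l : ZMod 8) ^ e *
        jacobiSym (N : ℤ) l) := by
      rw [hDa, jacobiSym.mul_left, jacobiSym.mul_left, jacobiSym.pow_left (-1),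
        jacobiSym.at_neg_one hlodd, jacobiSym.pow_left 2, jacobiSym.at_two hlodd]
    have e3 := recip N l hNodd hlodd
    have e4 : (chi4' ^ (a + k) * ZMod.χ₈ ^ e : MulChar (ZMod 8) ℤ) (l : ZMod 8) =
        ZMod.χ₄ (l : ZMod 4) ^ (a + k) * ZMod.χ₈ (l : ZMod 8) ^ e := by
      rw [MulChar.mul_apply]
      have p1 : ∀ (χ : MulChar (ZMod 8) ℤ) (n : ℕ), (χ ^ n) (l : ZMod 8) = χ (l : ZMod 8) ^ n := by
        intro χ n
        induction n with
        | zero => rw [pow_zero, pow_zero, MulChar.one_apply hu]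
        | succ n ih => rw [pow_succ, pow_succ, MulChar.mul_apply, ih]
      rw [p1, p1, chi4'_nat l hlodd]
    have e5 : ZMod.χ₄ (l : ZMod 4) ^ k = if N % 4 = 3 then ZMod.χ₄ (l : ZMod 4) else 1 := by
      rw [hk]
      split_ifs <;> simp
    rw [e4, e2, e3, pow_add, e5]
    ring

theorem pv (D : ℤ) (hD : Squarefree D.natAbs) (hD1 : D ≠ 1) (x : ℕ) :
    |∑ n ∈ (Icc 1 x).filter (fun n => Odd n), ((jacobiSym D n : ℤ) : ℝ)| ≤ 160 * |(D : ℝ)| := by
  obtain ⟨N, θ, hN0, hNodd, hNsq, hND, hNθ, hval⟩ := exists_char_all D hD hD1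
  have : NeZero N := ⟨hN0⟩
  have : NeZero (8 * N) := ⟨by omega⟩
  rw [sum_char D θ hval x]
  have hχ1 : chi 8 N (psi θ) ≠ 1 := chi_ne_one N hNodd hNsq θ hNθ
  have h3 := Pool.Agent.H38R2.CG.PVh.sum_le (8 * N) (chi 8 N (psi θ)) (by omega) hχ1 x
  obtain ⟨q, hq⟩ : ∃ q : ℝ, q = ((8 * N : ℕ) : ℝ) := ⟨_, rfl⟩
  have h3' : ‖shortSum (8 * N) (chi 8 N (psi θ)) x‖ ≤ 4 * √q * (1 + Real.log q) := by
    rw [hq]
    exact h3
  have hPnat : |(D : ℝ)| = (D.natAbs : ℝ) := by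
    rw [Nat.cast_natAbs, Int.cast_abs]
  have hND' : (N : ℝ) ≤ |(D : ℝ)| := by rw [hPnat]; exact_mod_cast hND
  have hq1 : 1 ≤ q := by rw [hq]; exact_mod_cast (by omega : 1 ≤ 8 * N)
  have hqD : q ≤ 8 * |(D : ℝ)| := by rw [hq]; push_cast; linarith
  have hs : √q * √q = q := Real.mul_self_sqrt (by linarith)
  have hs1 : 1 ≤ √q := by rw [Real.one_le_sqrt]; exact hq1
  have hlog : Real.log q ≤ 2 * √q := by
    have h1 : Real.log q = 2 * Real.log (√q) := by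
      rw [Real.log_sqrt (by linarith)]
      ring
    have h2 := Real.log_le_sub_one_of_pos (by linarith : 0 < √q)
    rw [h1]
    linarith
  refine h3'.trans ?_
  nlinarith

end Pool.Agent.K1H79.QR
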