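import Pool.Agent.TH408.GR.Mnb
import Pool.Agent.K1H79.QR.Minus

/-! # Many squarefree integers composed of primes with symbol `1`, in long ranges
(a version of `Pool.Agent.TH408.GR.mnb` in which the length is a free parameter) -/

set_option autoImplicit false

namespace Pool.Agent.K1H79.QR

open Finset Filter Real Pool.Agent.H568.GR Pool.Agent.TH408.GR

set_option maxHeartbeats 4000000 in
theorem mnbN (hDEC : S_DEC) (hL : S_L) (hCNT : S_CNT) (hDIV : S_DIV)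
    {δ A μ : ℝ} (hδ : 0 < δ) (hδ1 : δ ≤ 1) (hA : 1 ≤ A) (hμ : 0 < μ) :
    ∃ N1 : ℝ, ∀ D : ℤ, D ≠ 0 → (∃ n : ℕ, Odd n ∧ jacobiSym D n = -1) → ∀ N : ℕ, N1 ≤ N →
      |(D : ℝ)| ≤ (N : ℝ) ^ A →
      (∀ x : ℕ, |∑ n ∈ (Icc 1 x).filter (fun n => Odd n), ((jacobiSym D n : ℤ) : ℝ)| ≤
        (N : ℝ) ^ (-δ) * (x + (N : ℝ) ^ (1 - δ))) →
      (N : ℝ) ^ (1 - μ) ≤ (MM D N).card := by
  have hA0 : 0 < A := by linarith
  obtain ⟨ν, hν⟩ : ∃ ν : ℝ, ν = min (δ / (8 * A)) (μ / (50 * A)) := ⟨_, rfl⟩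
  have hν0 : 0 < ν := by
    rw [hν]
    exact lt_min (by positivity) (by positivity)
  have hν1 : A * ν ≤ δ / 8 := by
    have h1 : ν ≤ δ / (8 * A) := by rw [hν]; exact min_le_left _ _
    rw [le_div_iff₀ (by positivity)] at h1
    linarith
  have hν2 : 50 * (A * ν) ≤ μ := by
    have h1 : ν ≤ μ / (50 * A) := by rw [hν]; exact min_le_right _ _
    rw [le_div_iff₀ (by positivity)] at h1
    linarith
  have hνA : ν ≤ A * ν := le_mul_of_one_le_left hν0.le hA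
  obtain ⟨c, hc, hLc⟩ := hL ν hν0
  obtain ⟨C, hC, hdiv⟩ := hDIV ν hν0
  have f1 : ∀ᶠ x : ℝ in atTop, 1 + (log 2 + (A + 1) * log x) ≤ x ^ (δ / 2) := by
    have h1 := (isLittleO_log_rpow_atTop (show 0 < δ / 2 by positivity)).bound
      (show (0 : ℝ) < 1 / (2 * (A + 1)) by positivity)
    filter_upwards [h1, (tendsto_rpow_atTop (show 0 < δ / 2 by positivity)).eventually_ge_atTop (2 * (1 + log 2)),
      eventually_ge_atTop 1] with x h1 h2 h3
    have h4 : 0 ≤ log x := log_nonneg h3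
    rw [norm_of_nonneg (rpow_pos_of_pos (by linarith) _).le, norm_of_nonneg h4] at h1
    have h5 : (A + 1) * log x ≤ x ^ (δ / 2) / 2 := by
      calc (A + 1) * log x ≤ (A + 1) * (1 / (2 * (A + 1)) * x ^ (δ / 2)) := by gcongr
        _ = x ^ (δ / 2) / 2 := by field_simp
    linarith
  have f2 := ev_le (δ / 2) (A * ν) 32 (c / 8) (by linarith) (by positivity)
  have f3 := ev_le 1 (A * ν) 6 (c / 8) (by nlinarith) (by positivity)
  have f4 := ev_le ((2 * A + 1) * ν) (A * ν) (10 * C ^ 2) (c / 8) (by nlinarith) (by positivity)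
  have f5 := ev_le μ ((26 * A + 17) * ν) (8 * C ^ 2 / c) 1 (by nlinarith) one_pos
  obtain ⟨N1, hN1⟩ := eventually_atTop.1 (f1.and (f2.and (f3.and (f4.and (f5.and (eventually_ge_atTop (1 : ℝ)))))))
  refine ⟨N1, fun D hD0 hneg N hN hDN hshort => ?_⟩
  obtain ⟨g1, g2, g3, g4, g5, hN1'⟩ := hN1 N hN
  obtain ⟨x, hx⟩ : ∃ x : ℝ, x = (N : ℝ) := ⟨_, rfl⟩
  rw [← hx] at g1 g2 g3 g4 g5 hN1' hDN hshort ⊢
  have hxpos : 0 < x := by linarith
  have hNn : 1 ≤ N := by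
    have : (1 : ℝ) ≤ N := by rw [← hx]; exact hN1'
    exact_mod_cast this
  obtain ⟨P, hP⟩ : ∃ P : ℝ, P = |(D : ℝ)| := ⟨_, rfl⟩
  have hPnat : P = (D.natAbs : ℝ) := by
    rw [hP, Nat.cast_natAbs, Int.cast_abs]
  have hP1 : 1 ≤ P := by
    rw [hPnat]
    exact_mod_cast Int.natAbs_pos.2 hD0
  have hPpos : 0 < P := by linarith
  rw [← hP] at hDN
  obtain ⟨L, hL1, hL2⟩ := hLc D hD0 hneg
  rw [← hP] at hL1
  obtain ⟨v, hv⟩ : ∃ v : ℝ, v = x ^ (-(δ / 2)) := ⟨_, rfl⟩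
  have hv0 : 0 < v := by rw [hv]; exact rpow_pos_of_pos hxpos _
  have hv1 : v ≤ 1 := by rw [hv]; exact rpow_le_one_of_one_le_of_nonpos hN1' (by linarith)
  obtain ⟨u, hu⟩ : ∃ u : ℝ, u = x ^ (-(A * ν)) := ⟨_, rfl⟩
  have hu0 : 0 < u := by rw [hu]; exact rpow_pos_of_pos hxpos _
  obtain ⟨y, hy⟩ : ∃ y : ℕ, y = ⌈x * v⌉₊ := ⟨_, rfl⟩
  have hy1 : 1 ≤ y := by rw [hy]; exact Nat.one_le_ceil_iff.2 (by positivity)
  have hyN : y ≤ N := by
    rw [hy]
    refine Nat.ceil_le.2 ?_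
    rw [← hx]
    nlinarith
  have hyge : x * v ≤ y := by rw [hy]; exact Nat.le_ceil _
  have hyle : (y : ℝ) ≤ x * v + 1 := by rw [hy]; exact (Nat.ceil_lt_add_one (by positivity)).le
  obtain ⟨Z, hZ⟩ : ∃ Z : ℕ, Z = ⌈x ^ (A + 1)⌉₊ := ⟨_, rfl⟩
  have hZge : x ^ (A + 1) ≤ Z := by rw [hZ]; exact Nat.le_ceil _
  have hxA1 : 1 ≤ x ^ (A + 1) := one_le_rpow hN1' (by linarith)
  have hZle : (Z : ℝ) ≤ 2 * x ^ (A + 1) := by
    have : (Z : ℝ) < x ^ (A + 1) + 1 := by rw [hZ]; exact Nat.ceil_lt_add_one (by positivity)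
    linarith
  have hxA : x ≤ x ^ (A + 1) := by
    calc x = x ^ (1 : ℝ) := (rpow_one x).symm
      _ ≤ x ^ (A + 1) := rpow_le_rpow_of_exponent_le hN1' (by linarith)
  have hNZ : N ≤ Z := by
    have : (N : ℝ) ≤ Z := by rw [← hx]; linarith
    exact_mod_cast this
  have hZ1 : 1 ≤ Z := hNn.trans hNZ
  have hZpos : (0 : ℝ) < Z := by exact_mod_cast hZ1
  have hLZ := hL2 Z hZ1
  rw [← hP] at hLZ
  have hvv : x ^ (-δ) = v * v := by
    rw [hv, ← rpow_add hxpos]; congr 1; ring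
  have he : 8 * P / Z ≤ 8 / x := by
    rw [div_le_div_iff₀ hZpos hxpos]
    have h1 : P * x ≤ x ^ (A + 1) := by
      rw [rpow_add hxpos, rpow_one]
      exact mul_le_mul_of_nonneg_right hDN hxpos.le
    nlinarith
  have hN0y : x ^ (1 - δ) ≤ (y : ℝ) := by
    refine le_trans ?_ hyge
    have h1 : x * v = x ^ (1 - δ / 2) := by
      rw [hv]
      nth_rewrite 1 [← rpow_one x]
      rw [← rpow_add hxpos]
      congr 1
    rw [h1]
    exact rpow_le_rpow_of_exponent_le hN1' (by linarith)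
  have hcnt := hCNT D (x ^ (-δ)) (x ^ (1 - δ)) L (8 * P / Z) N y Z
    (rpow_pos_of_pos hxpos _) (rpow_le_one_of_one_le_of_nonpos hN1' (by linarith))
    (one_le_rpow hN1' (by linarith)) hy1 hyN hNZ hN0y (by positivity) hshort hLZ
  obtain ⟨S, hS⟩ : ∃ S : ℝ, S = ∑ n ∈ (Icc 1 N).filter (fun n => Odd n), ∑ d ∈ n.divisors,
    ((jacobiSym D d : ℤ) : ℝ) := ⟨_, rfl⟩
  rw [← hS, ← hx] at hcnt
  have hS0 : 0 ≤ S := by
    rw [hS]
    refine sum_nonneg fun n hn => ?_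
    rw [mem_filter, mem_Icc] at hn
    exact sum_div_nonneg D (by omega)
  rw [abs_of_nonneg hS0, hvv] at hcnt
  -- lower bound
  have hlogZ : log Z ≤ log 2 + (A + 1) * log x := by
    have h1 := log_le_log hZpos hZle
    rwa [log_mul (by norm_num) (by positivity), log_rpow hxpos] at h1
  have hLu : c * u ≤ |L| := by
    refine le_trans ?_ hL1
    apply mul_le_mul_of_nonneg_left _ hc.le
    rw [hu]
    calc x ^ (-(A * ν)) = (x ^ A) ^ (-ν) := by
          rw [← rpow_mul hxpos.le]; congr 1; ring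
      _ ≤ P ^ (-ν) := rpow_le_rpow_of_nonpos hPpos hDN (by linarith)
  have hvlog : v * v * (1 + log Z) ≤ v := by
    have h1 : v * x ^ (δ / 2) = 1 := by
      rw [hv, ← rpow_add hxpos]
      have : -(δ / 2) + δ / 2 = 0 := by ring
      rw [this, rpow_zero]
    calc v * v * (1 + log Z) ≤ v * v * x ^ (δ / 2) := by
          apply mul_le_mul_of_nonneg_left _ (by positivity)
          linarith
      _ = v * (v * x ^ (δ / 2)) := by ring
      _ = v := by rw [h1, mul_one]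
  have hy0 : (0 : ℝ) < y := by exact_mod_cast hy1
  have hquot : 20 * (v * v) * x ^ 2 / y ≤ 20 * (x * v) := by
    rw [div_le_iff₀ hy0]
    nlinarith [mul_le_mul_of_nonneg_left hyge (show 0 ≤ 20 * (x * v) by positivity)]
  have h32 : x * (32 * v) ≤ x * (c / 8 * u) := by
    apply mul_le_mul_of_nonneg_left _ hxpos.le
    rw [hv, hu]
    exact g2
  have h6 : (6 : ℝ) ≤ c / 8 * u * x := by
    have h1 : x ^ (-(1 : ℝ)) * x = 1 := by
      rw [rpow_neg hxpos.le, rpow_one, inv_mul_cancel₀ hxpos.ne']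
    calc (6 : ℝ) = 6 * x ^ (-(1 : ℝ)) * x := by rw [mul_assoc, h1, mul_one]
      _ ≤ c / 8 * x ^ (-(A * ν)) * x := mul_le_mul_of_nonneg_right g3 hxpos.le
      _ = _ := by rw [hu]
  have hlow : c / 4 * x * u ≤ S := by
    refine le_trans ?_ hcnt
    have h1 : x / 2 * (c * u - 8 / x - 20 * v) ≤
        x / 2 * (|L| - 8 * P / Z - 20 * (v * v) * (1 + log Z)) := by
      apply mul_le_mul_of_nonneg_left _ (by positivity)
      linarith
    have h2 : x / 2 * (c * u - 8 / x - 20 * v) = x / 2 * (c * u) - 4 - 10 * (x * v) := by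
      field_simp
      ring
    have h3 : 0 ≤ c * u * x := by positivity
    nlinarith
  -- upper bound
  obtain ⟨b, hb⟩ : ∃ b : ℝ, b = 4 * (3 * A + 2) * ν := ⟨_, rfl⟩
  have hb0 : 0 ≤ b := by rw [hb]; positivity
  have hB1 : (1 : ℝ) ≤ x ^ b := one_le_rpow hN1' hb0
  have hdec := hDEC D hD0 N (x ^ b) (C * x ^ ν) hB1 (by
    intro n hn
    rw [mem_Icc] at hn
    refine (hdiv n hn.1).trans ?_
    apply mul_le_mul_of_nonneg_left _ (by linarith)
    apply rpow_le_rpow (by positivity) _ (by positivity)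
    rw [hx]
    exact_mod_cast hn.2)
  rw [← hS, ← hx] at hdec
  have htau : (D.natAbs.divisors.card : ℝ) ≤ C * x ^ (A * ν) := by
    refine (hdiv _ (Int.natAbs_pos.2 hD0)).trans ?_
    apply mul_le_mul_of_nonneg_left _ (by linarith)
    rw [← hPnat, rpow_mul hxpos.le]
    exact rpow_le_rpow hPpos.le hDN hν0.le
  have hBsq : (x ^ b) ^ 2 = x ^ (2 * b) := by
    rw [← rpow_natCast, ← rpow_mul hxpos.le]; congr 1; push_cast; ring
  have hBq : (x ^ b) ^ (1 / 4 : ℝ) = x ^ ((3 * A + 2) * ν) := by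
    rw [← rpow_mul hxpos.le, hb]; congr 1; ring
  rw [hBsq, hBq] at hdec
  obtain ⟨M, hM⟩ : ∃ M : ℝ, M = ((MM D N).card : ℝ) := ⟨_, rfl⟩
  have hM0 : 0 ≤ M := by rw [hM]; positivity
  rw [← hM] at hdec ⊢
  have hup : S ≤ C ^ 2 * x ^ ((A + 1) * ν) * (x ^ (2 * b) * M + 10 * x / x ^ ((3 * A + 2) * ν)) := by
    refine hdec.trans ?_
    apply mul_le_mul_of_nonneg_right _ (by positivity)
    have h1 : x ^ ((A + 1) * ν) = x ^ ν * x ^ (A * ν) := by
      rw [← rpow_add hxpos]; congr 1; ring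
    rw [h1]
    calc C * x ^ ν * (D.natAbs.divisors.card : ℝ)
        ≤ C * x ^ ν * (C * x ^ (A * ν)) :=
          mul_le_mul_of_nonneg_left htau (by positivity)
      _ = C ^ 2 * (x ^ ν * x ^ (A * ν)) := by ring
  have hsecond : C ^ 2 * x ^ ((A + 1) * ν) * (10 * x / x ^ ((3 * A + 2) * ν)) ≤ c / 8 * x * u := by
    have h1 : x ^ ((A + 1) * ν) / x ^ ((3 * A + 2) * ν) = x ^ (-((2 * A + 1) * ν)) := by
      rw [← rpow_sub hxpos]; congr 1; ring
    calc C ^ 2 * x ^ ((A + 1) * ν) * (10 * x / x ^ ((3 * A + 2) * ν))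
        = x * (10 * C ^ 2 * (x ^ ((A + 1) * ν) / x ^ ((3 * A + 2) * ν))) := by ring
      _ = x * (10 * C ^ 2 * x ^ (-((2 * A + 1) * ν))) := by rw [h1]
      _ ≤ x * (c / 8 * x ^ (-(A * ν))) := mul_le_mul_of_nonneg_left g4 hxpos.le
      _ = c / 8 * x * u := by rw [hu]; ring
  have hmain : c / 8 * x * u ≤ C ^ 2 * x ^ ((A + 1) * ν + 2 * b) * M := by
    have h1 : C ^ 2 * x ^ ((A + 1) * ν) * (x ^ (2 * b) * M) = C ^ 2 * x ^ ((A + 1) * ν + 2 * b) * M := by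
      rw [rpow_add hxpos]; ring
    rw [mul_add, h1] at hup
    have h2 : c / 4 * x * u = c / 8 * x * u + c / 8 * x * u := by ring
    linarith
  -- conclusion
  have h9 : x ^ (1 - μ) * (8 * C ^ 2 / c) ≤ x ^ (1 - (26 * A + 17) * ν) := by
    have h1 : x ^ (1 - μ) = x * x ^ (-μ) := by
      nth_rewrite 2 [← rpow_one x]
      rw [← rpow_add hxpos]; congr 1
    have h2 : x ^ (1 - (26 * A + 17) * ν) = x * x ^ (-((26 * A + 17) * ν)) := by
      nth_rewrite 2 [← rpow_one x]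
      rw [← rpow_add hxpos]; congr 1
    rw [h1, h2]
    calc x * x ^ (-μ) * (8 * C ^ 2 / c) = x * (8 * C ^ 2 / c * x ^ (-μ)) := by ring
      _ ≤ x * (1 * x ^ (-((26 * A + 17) * ν))) := mul_le_mul_of_nonneg_left g5 hxpos.le
      _ = _ := by ring
  have h10 : x ^ (1 - (26 * A + 17) * ν) * x ^ ((A + 1) * ν + 2 * b) = x * u := by
    rw [hu, ← rpow_add hxpos]
    nth_rewrite 2 [← rpow_one x]
    rw [← rpow_add hxpos, hb]
    congr 1
    ring
  have h11 : x ^ (1 - μ) * (C ^ 2 * x ^ ((A + 1) * ν + 2 * b)) ≤ M * (C ^ 2 * x ^ ((A + 1) * ν + 2 * b)) := by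
    calc x ^ (1 - μ) * (C ^ 2 * x ^ ((A + 1) * ν + 2 * b))
        = (x ^ (1 - μ) * (8 * C ^ 2 / c)) * (c / 8 * x ^ ((A + 1) * ν + 2 * b)) := by
          field_simp
      _ ≤ x ^ (1 - (26 * A + 17) * ν) * (c / 8 * x ^ ((A + 1) * ν + 2 * b)) :=
          mul_le_mul_of_nonneg_right h9 (by positivity)
      _ = c / 8 * (x ^ (1 - (26 * A + 17) * ν) * x ^ ((A + 1) * ν + 2 * b)) := by ring
      _ = c / 8 * (x * u) := by rw [h10]
      _ ≤ M * (C ^ 2 * x ^ ((A + 1) * ν + 2 * b)) := by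
          linarith
  exact le_of_mul_le_mul_right h11 (by positivity)

end Pool.Agent.K1H79.QR
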