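import Pool.Agent.K1H79.QR.Eng
import Pool.Agent.K1H79.QR.PlusN
import Pool.Agent.K1H79.QR.PVb
import Pool.Agent.K1H79.QR.Fin

/-! # The explicit exponent for even degrees -/

set_option autoImplicit false

namespace Pool.Agent.K1H79.QR

open NumberField Filter Pool.Agent.TH847.LS Pool.Agent.TH847.LG

theorem SavE.fin {n l : ℕ} {e : ℝ} {Q : ℕ → ∀ (L : Type) [Field L] [NumberField L], Prop}
    (h : ∀ i, SavE n l e (Q i)) (K : ℕ) : SavE n l e (fun L _ _ => ∃ i < K, Q i L) := by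
  induction K with
  | zero => exact ⟨1, one_pos, fun L _ _ _ hL => absurd hL (by simp)⟩
  | succ K ih =>
    refine (ih.or (h K)).mono ?_
    rintro L _ _ hn ⟨i, hi, hQ⟩
    rcases Nat.lt_succ_iff_lt_or_eq.1 hi with h1 | h1
    · exact Or.inl ⟨i, h1, hQ⟩
    · exact Or.inr (h1 ▸ hQ)

/-- the symbol takes the value `-1` -/
theorem exists_neg_one (D : ℤ) (hD : Squarefree D.natAbs) (hD1 : D ≠ 1) :
    ∃ n : ℕ, Odd n ∧ jacobiSym D n = -1 := by
  have hD0 : D.natAbs ≠ 0 := hD.ne_zero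
  obtain ⟨a, q, ha, hq, hDq⟩ : ∃ a q : ℕ, a ≤ 1 ∧ Odd q ∧ D.natAbs = 2 ^ a * q := by
    rcases Nat.even_or_odd D.natAbs with h | h
    · obtain ⟨k, hk⟩ := h.two_dvd
      refine ⟨1, k, le_rfl, ?_, by rw [pow_one, hk]⟩
      by_contra hcon
      rw [Nat.not_odd_iff_even] at hcon
      obtain ⟨j, hj⟩ := hcon.two_dvd
      have h4 : 2 * 2 ∣ D.natAbs := ⟨j, by rw [hk, hj]; ring⟩
      have := hD 2 h4
      exact absurd (Nat.isUnit_iff.mp this) (by norm_num)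
    · exact ⟨0, D.natAbs, by norm_num, h, by rw [pow_zero, one_mul]⟩
  have hqs : Squarefree q := hD.squarefree_of_dvd ⟨2 ^ a, by rw [hDq]; ring⟩
  by_cases hqsq : IsSquare q
  · have hq1 : q = 1 := by
      obtain ⟨r, hr⟩ := hqsq
      have h1 := hqs r ⟨1, by rw [mul_one]; exact hr⟩
      rw [Nat.isUnit_iff] at h1
      rw [hr, h1]
    rw [hq1, mul_one] at hDq
    have ha' : a = 0 ∨ a = 1 := by omega
    rcases ha' with h | h
    · rw [h, pow_zero] at hDq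
      have hD' : D = -1 := by omega
      rw [hD']
      exact ⟨3, by decide, by rw [jacobiSym.at_neg_one (by decide)]; decide⟩
    · rw [h, pow_one] at hDq
      have hD' : D = 2 ∨ D = -2 := by omega
      rcases hD' with h' | h'
      · rw [h']
        exact ⟨3, by decide, by rw [jacobiSym.at_two (by decide)]; decide⟩
      · rw [h']
        exact ⟨5, by decide, by rw [jacobiSym.at_neg_two (by decide)]; decide⟩
  · exact (Pool.Agent.H568.GR.rec D a q hq hDq).2 hqsq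

/-- the short sums in the form used for long ranges -/
def HN (D : ℤ) (N : ℕ) (δ : ℝ) : Prop :=
  ∀ x : ℕ, |∑ n ∈ (Finset.Icc 1 x).filter (fun n => Odd n), ((jacobiSym D n : ℤ) : ℝ)| ≤
    (N : ℝ) ^ (-δ) * (x + (N : ℝ) ^ (1 - δ))

theorem bs_of_MM (D : ℤ) (N T : ℕ) (hT : T ≠ 0) :
    ((Pool.Agent.H568.GR.MM D N).card : ℝ) ≤
      (T.divisors.card : ℝ) * ((Bs (fun p => jacobiSym D p = 1) T N).card : ℝ) := by
  have h2 := coprime_step (Pool.Agent.H568.GR.MM D N) (P := fun p => jacobiSym D p = 1) (z := N) hT (by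
    intro m hm
    classical
    unfold Pool.Agent.H568.GR.MM at hm
    rw [Finset.mem_filter, Finset.mem_Icc] at hm
    exact ⟨hm.1.1, hm.1.2, hm.2.1, fun p hp hpm hpT => (hm.2.2 p hp hpm).2⟩)
  exact_mod_cast h2

theorem plusN {δ A μ : ℝ} (hδ : 0 < δ) (hδ1 : δ ≤ 1 / 4) (hA : 1 ≤ A) (hμ : 0 < μ) :
    ∃ N1 : ℝ, ∀ D : ℤ, Squarefree D.natAbs → ∀ N : ℕ, N1 ≤ N → |(D : ℝ)| ≤ (N : ℝ) ^ A →
      (D ≠ 1 → HN D N δ) → ∀ T : ℕ, T ≠ 0 →
      (N : ℝ) ^ (1 - μ) ≤ (T.divisors.card : ℝ) * ((Bs (fun p => jacobiSym D p = 1) T N).card : ℝ) := by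
  obtain ⟨N1, hN1⟩ := mnbN Pool.Agent.H568.GR.dec Pool.Agent.H568.GR.lval' Pool.Agent.H568.GR.cnt
    Pool.Agent.H568.GR.dvb hδ (by linarith) hA hμ
  have e1 : ∀ᶠ x : ℝ in atTop, (800 : ℝ) ≤ x ^ (1 - 2 * δ) :=
    (tendsto_rpow_atTop (by linarith)).eventually_ge_atTop _
  obtain ⟨N2, hN2⟩ := eventually_atTop.1 (e1.and (eventually_ge_atTop (5 : ℝ)))
  refine ⟨max N1 N2, fun D hsq N hN hDN hH T hT => ?_⟩
  have hNa : N1 ≤ N := (le_max_left _ _).trans hN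
  obtain ⟨g1, g2⟩ := hN2 N ((le_max_right _ _).trans hN)
  have hNpos : (0 : ℝ) < N := by linarith
  by_cases hD1 : D = 1
  · -- the trivial character: use the primes split in `ℚ(√5)`
    have h5sq : Squarefree ((5 : ℤ)).natAbs := by
      have : Nat.Prime 5 := by norm_num
      simpa using this.squarefree
    have h5 := hN1 5 (by norm_num) (exists_neg_one 5 h5sq (by norm_num)) N hNa (by
      calc |((5 : ℤ) : ℝ)| = 5 := by norm_num
        _ ≤ (N : ℝ) := g2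
        _ = (N : ℝ) ^ (1 : ℝ) := (Real.rpow_one _).symm
        _ ≤ (N : ℝ) ^ A := Real.rpow_le_rpow_of_exponent_le (by linarith) hA) (by
      intro x
      refine (pv 5 h5sq (by norm_num) x).trans ?_
      have h6 : (N : ℝ) ^ (-δ) * (N : ℝ) ^ (1 - δ) = (N : ℝ) ^ (1 - 2 * δ) := by
        rw [← Real.rpow_add hNpos]
        congr 1
        ring
      have h7 : 0 ≤ (N : ℝ) ^ (-δ) * x := by positivity
      rw [mul_add, h6]
      have h8 : 160 * |((5 : ℤ) : ℝ)| = 800 := by norm_num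
      rw [h8]
      linarith)
    refine h5.trans ((bs_of_MM 5 N T hT).trans ?_)
    refine mul_le_mul_of_nonneg_left ?_ (Nat.cast_nonneg _)
    have hsub : Bs (fun p => jacobiSym 5 p = 1) T N ⊆ Bs (fun p => jacobiSym D p = 1) T N := by
      intro m hm
      rw [mem_Bs] at hm ⊢
      refine ⟨hm.1, hm.2.1, hm.2.2.1, fun p hp hpm => ⟨(hm.2.2.2 p hp hpm).1, ?_⟩⟩
      rw [hD1, jacobiSym.one_left]
    exact_mod_cast Finset.card_le_card hsub
  · refine (hN1 D ?_ (exists_neg_one D hsq hD1) N hNa hDN (hH hD1)).trans (bs_of_MM D N T hT)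
    rintro rfl
    exact hsq.ne_zero (by simp)

/-- the explicit engine -/
theorem engineE (n l : ℕ) (hn2 : 2 ≤ n) (hl : 1 ≤ l) {κ ε μ : ℝ}
    (hκ : 0 < κ) (hε : 0 < ε) (hε1 : ε < 1) (hμ : 0 < μ) (hμ1 : μ < 1) :
    SavE n l (1 / 2 + 2 * κ - (1 - ε) * (1 - μ) / wt n l) (fun L _ _ => NoSub L ∧ ∃ d f : ℤ,
      discr L = d * f ^ 2 ∧
      (⌊|(discr L : ℝ)| ^ ((1 - ε) / wt n l)⌋₊ : ℝ) ^ (1 - μ) ≤ ((2 * (discr L).natAbs).divisors.card : ℝ) *
        ((Bs (fun p => jacobiSym d p = (-1) ^ n) (2 * (discr L).natAbs)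
          ⌊|(discr L : ℝ)| ^ ((1 - ε) / wt n l)⌋₊).card : ℝ)) := by
  have hwr := wt_pos hn2 hl
  obtain ⟨C1, hC10, hC1⟩ := Pool.Agent.Y159.PT.W_bound n hn2 κ hκ
  obtain ⟨C2, hC20, hC2⟩ := Pool.Agent.H568.GR.dvb κ hκ
  obtain ⟨B, hB⟩ : ∃ B : ℝ, B = (2 * 150 ^ l) ^ (n * (n - 1)) := ⟨_, rfl⟩
  have e1 : ∀ᶠ x : ℝ in atTop, B < x ^ ε := (tendsto_rpow_atTop hε).eventually_gt_atTop B
  obtain ⟨D0, hD0⟩ := eventually_atTop.1 e1
  obtain ⟨e, he⟩ : ∃ e : ℝ, e = 1 / 2 + 2 * κ - (1 - ε) * (1 - μ) / wt n l := ⟨_, rfl⟩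
  rw [← he]
  -- large discriminants
  have hlarge : SavE n l e (fun L _ _ => D0 ≤ |(discr L : ℝ)| ∧ NoSub L ∧ ∃ d f : ℤ,
      discr L = d * f ^ 2 ∧
      (⌊|(discr L : ℝ)| ^ ((1 - ε) / wt n l)⌋₊ : ℝ) ^ (1 - μ) ≤ ((2 * (discr L).natAbs).divisors.card : ℝ) *
        ((Bs (fun p => jacobiSym d p = (-1) ^ n) (2 * (discr L).natAbs)
          ⌊|(discr L : ℝ)| ^ ((1 - ε) / wt n l)⌋₊).card : ℝ)) := by
    refine ⟨2 * (C1 * ((2 : ℝ) ^ κ * C2)), by positivity, ?_⟩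
    rintro L _ _ hn ⟨hge, hns, d, f, hdf, hcd⟩
    obtain ⟨D, hD⟩ : ∃ D : ℝ, D = |(discr L : ℝ)| := ⟨_, rfl⟩
    have hDn : ((discr L).natAbs : ℝ) = D := by
      rw [hD, Nat.cast_natAbs]
      push_cast
      rfl
    have hDz : (discr L).natAbs ≠ 0 := Int.natAbs_ne_zero.2 (discr_ne_zero L)
    have hD_1 : 1 ≤ D := by
      rw [← hDn]
      exact_mod_cast Nat.one_le_iff_ne_zero.2 hDz
    have hD_0 : 0 < D := by linarith
    rw [← hD] at hcd hge ⊢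
    obtain ⟨K, hK, hW⟩ := hC1 L hn
    rw [hDn] at hW
    have g1 : B < D ^ ε := hD0 D hge
    obtain ⟨M, hM⟩ : ∃ M : Finset ℕ, M = Bs (fun p => jacobiSym d p = (-1) ^ n) (2 * (discr L).natAbs)
          ⌊D ^ ((1 - ε) / wt n l)⌋₊ := ⟨_, rfl⟩
    rw [← hM] at hcd
    obtain ⟨S, hS⟩ : ∃ S : Set ℕ, S = {p : ℕ | p.Prime ∧ p ≠ 2 ∧ ¬ (p : ℤ) ∣ discr L ∧
      jacobiSym d p = (-1) ^ n} := ⟨_, rfl⟩
    have hex : ∀ p : ℕ, ∃ 𝔭 𝔭' : Ideal (𝓞 L), p ∈ S → Pr p 𝔭 𝔭' ∧ Ideal.absNorm 𝔭 ≤ p ^ (n / 2) := by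
      intro p
      by_cases hp : p ∈ S
      · have hp' := hp
        rw [hS] at hp'
        obtain ⟨h1, h2, h3, h4⟩ := hp'
        have : Fact p.Prime := ⟨h1⟩
        obtain ⟨𝔭, 𝔭', h5⟩ := two_primes hn2 hn h2 h3 (by rw [leg_of_jac hdf h3, h4])
        exact ⟨𝔭, 𝔭', fun _ => h5⟩
      · exact ⟨⊥, ⊥, fun h => absurd h hp⟩
    choose g g' hg using hex
    obtain ⟨Y, hY⟩ : ∃ Y : ℝ, Y = D ^ ((1 - ε) / wt n l) := ⟨_, rfl⟩
    have hY1 : 1 ≤ Y := by rw [hY]; exact Real.one_le_rpow hD_1 (div_nonneg (by linarith) hwr.le)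
    have hcount := count hn2 hn hns hl (S := S) (f := g) (f' := g') (fun p hp => (hg p hp).1) (h := n / 2)
      (fun p hp => (hg p hp).2) M (Y := Y) (by
        intro m hm
        rw [hM, mem_Bs] at hm
        obtain ⟨h1, h2, h3, h4⟩ := hm
        refine ⟨h3, ?_, fun p hp => ?_⟩
        · rw [hY]
          exact (Nat.le_floor_iff (by positivity)).1 h2
        · have hpp := Nat.prime_of_mem_primeFactors hp
          obtain ⟨h5, h6⟩ := h4 p hpp (Nat.dvd_of_mem_primeFactors hp)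
          rw [hS]
          refine ⟨hpp, ?_, ?_, h6⟩
          · rintro rfl
            exact h5 (dvd_mul_right _ _)
          · intro h7
            exact h5 ((Int.natCast_dvd.1 h7).mul_left _)) (by
        rw [← hD, ← hB]
        have h1 : Y ^ (2 * (n / 2) * l * (n - 1)) = D ^ (1 - ε) := by
          have : 2 * (n / 2) * l * (n - 1) = wt n l := rfl
          rw [this, hY, ← Real.rpow_natCast, ← Real.rpow_mul hD_0.le, div_mul_cancel₀ _ hwr.ne']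
        rw [h1]
        calc B * D ^ (1 - ε) < D ^ ε * D ^ (1 - ε) := by
              apply mul_lt_mul_of_pos_right g1 (by positivity)
          _ = D := by
              rw [← Real.rpow_add hD_0]
              have : ε + (1 - ε) = 1 := by ring
              rw [this, Real.rpow_one]) K hK
    have h5 := hcount.trans hW
    obtain ⟨T, hT⟩ : ∃ T : ℝ, T = (Nat.card {c : ClassGroup (𝓞 L) // c ^ l = 1} : ℝ) := ⟨_, rfl⟩
    have hT0 : 0 ≤ T := by rw [hT]; exact Nat.cast_nonneg _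
    rw [← hT] at h5 ⊢
    obtain ⟨m, hm⟩ : ∃ m : ℝ, m = (M.card : ℝ) := ⟨_, rfl⟩
    have hm0 : 0 ≤ m := by rw [hm]; exact Nat.cast_nonneg _
    rw [← hm] at h5 hcd
    rw [← hY] at hcd
    -- divisors
    have h6 : ((2 * (discr L).natAbs).divisors.card : ℝ) ≤ C2 * ((2 : ℝ) ^ κ * D ^ κ) := by
      refine (hC2 (2 * (discr L).natAbs) (by omega)).trans ?_
      refine mul_le_mul_of_nonneg_left ?_ (by linarith)
      rw [← Real.mul_rpow (by norm_num) hD_0.le]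
      push_cast
      rw [hDn]
    have hfl : Y / 2 ≤ (⌊Y⌋₊ : ℝ) := by
      have h1 : Y < (⌊Y⌋₊ : ℝ) + 1 := Nat.lt_floor_add_one _
      have h2 : (1 : ℝ) ≤ (⌊Y⌋₊ : ℝ) := by
        exact_mod_cast (Nat.one_le_floor_iff Y).2 hY1
      linarith
    have h7 : D ^ ((1 - ε) * (1 - μ) / wt n l) ≤ 2 * (⌊Y⌋₊ : ℝ) ^ (1 - μ) := by
      have h8 : D ^ ((1 - ε) * (1 - μ) / wt n l) = Y ^ (1 - μ) := by
        rw [hY, ← Real.rpow_mul hD_0.le]
        congr 1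
        ring
      rw [h8]
      calc Y ^ (1 - μ) ≤ (2 * (⌊Y⌋₊ : ℝ)) ^ (1 - μ) := by
            apply Real.rpow_le_rpow (by linarith) (by linarith) (by linarith)
        _ = 2 ^ (1 - μ) * (⌊Y⌋₊ : ℝ) ^ (1 - μ) := Real.mul_rpow (by norm_num) (Nat.cast_nonneg _)
        _ ≤ 2 * (⌊Y⌋₊ : ℝ) ^ (1 - μ) := by
            apply mul_le_mul_of_nonneg_right _ (by positivity)
            calc (2 : ℝ) ^ (1 - μ) ≤ 2 ^ (1 : ℝ) := Real.rpow_le_rpow_of_exponent_le (by norm_num) (by linarith)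
              _ = 2 := Real.rpow_one 2
    have h8 : D ^ ((1 - ε) * (1 - μ) / wt n l) ≤ 2 * (C2 * ((2 : ℝ) ^ κ * D ^ κ) * m) := by
      refine h7.trans ?_
      have := hcd.trans (mul_le_mul_of_nonneg_right h6 hm0)
      linarith
    have h9 : D ^ ((1 - ε) * (1 - μ) / wt n l) * T ≤ 2 * (C2 * ((2 : ℝ) ^ κ * D ^ κ)) * (C1 * D ^ (1 / 2 + κ)) := by
      have hC2pos : 0 < C2 := by linarith
      calc D ^ ((1 - ε) * (1 - μ) / wt n l) * T ≤ (2 * (C2 * ((2 : ℝ) ^ κ * D ^ κ) * m)) * T :=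
            mul_le_mul_of_nonneg_right h8 hT0
        _ = 2 * (C2 * ((2 : ℝ) ^ κ * D ^ κ)) * (m * T) := by ring
        _ ≤ _ := by
            apply mul_le_mul_of_nonneg_left h5
            positivity
    have h10 : D ^ κ * D ^ (1 / 2 + κ) = D ^ ((1 - ε) * (1 - μ) / wt n l) * D ^ e := by
      rw [he, ← Real.rpow_add hD_0, ← Real.rpow_add hD_0]
      congr 1
      ring
    have h12 : 0 < D ^ ((1 - ε) * (1 - μ) / wt n l) := by positivity
    have h13 : D ^ ((1 - ε) * (1 - μ) / wt n l) * T ≤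
        D ^ ((1 - ε) * (1 - μ) / wt n l) * (2 * (C1 * ((2 : ℝ) ^ κ * C2)) * D ^ e) := by
      calc _ ≤ 2 * (C2 * ((2 : ℝ) ^ κ * D ^ κ)) * (C1 * D ^ (1 / 2 + κ)) := h9
        _ = 2 * (C1 * ((2 : ℝ) ^ κ * C2)) * (D ^ κ * D ^ (1 / 2 + κ)) := by ring
        _ = _ := by rw [h10]; ring
    exact le_of_mul_le_mul_left h13 h12
  refine (hlarge.or (SavE.small' n l hn2 e D0)).mono ?_
  intro L _ _ hn hL
  rcases lt_or_ge |(discr L : ℝ)| D0 with hlt | hge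
  · exact Or.inr hlt
  · exact Or.inl ⟨hge, hL⟩

end Pool.Agent.K1H79.QR
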