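import Pool.Agent.K1H79.QR.EngE
import Pool.Agent.K1H79.QR.Fin2

/-! # The explicit exponent for even degrees: final statement -/

set_option autoImplicit false

namespace Pool.Agent.K1H79.QR

open NumberField Filter

/-- the conclusion for the fields of even degree with a cancelling character -/
theorem savE_HN (n l : ℕ) (hn2 : 2 ≤ n) (hev : Even n) (hl : 1 ≤ l) {δ u κ : ℝ}
    (hδ : 0 < δ) (hδ1 : δ ≤ 1 / 4) (hu : 0 < u) (hu1 : u ≤ 1 / 2) (hκ : 0 < κ) :
    SavE n l (1 / 2 + 2 * κ - (1 - u / 4) * (1 - u / 4) / wt n l) (fun L _ _ => NoSub L ∧ ∃ d f : ℤ,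
      discr L = d * f ^ 2 ∧ Squarefree d.natAbs ∧
      (d ≠ 1 → HN d ⌊|(discr L : ℝ)| ^ ((1 - u / 4) / wt n l)⌋₊ δ)) := by
  have hwr := wt_pos hn2 hl
  have h1 := engineE n l hn2 hl (κ := κ) (ε := u / 4) (μ := u / 4) hκ (by positivity) (by linarith) (by positivity)
    (by linarith)
  have hw1 : (1 : ℝ) ≤ wt n l := by
    have : 0 < wt n l := by exact_mod_cast hwr
    exact_mod_cast this
  obtain ⟨N1, hN1⟩ := plusN (δ := δ) (A := 4 * wt n l) (μ := u / 4) hδ hδ1 (by linarith) (by positivity)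
  have hexp : 0 < (1 - u / 4) / wt n l := div_pos (by linarith) hwr
  have e1 : ∀ᶠ x : ℝ in atTop, 2 * (|N1| + 1) ≤ x ^ ((1 - u / 4) / wt n l) :=
    (tendsto_rpow_atTop hexp).eventually_ge_atTop _
  have e2 : ∀ᶠ x : ℝ in atTop, (4 : ℝ) ≤ x ^ ((1 - u / 4) / wt n l) :=
    (tendsto_rpow_atTop hexp).eventually_ge_atTop _
  obtain ⟨D0, hD0⟩ := eventually_atTop.1 (e1.and e2)
  refine ((h1).or (SavE.small' n l hn2 _ D0)).mono ?_
  rintro L _ _ hn ⟨hns, d, f, hdf, hsq, hH⟩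
  rcases lt_or_ge |(discr L : ℝ)| D0 with hlt | hge
  · exact Or.inr hlt
  · refine Or.inl ⟨hns, d, f, hdf, ?_⟩
    obtain ⟨g1, g2⟩ := hD0 _ hge
    have hDz : (discr L).natAbs ≠ 0 := Int.natAbs_ne_zero.2 (discr_ne_zero L)
    obtain ⟨D, hD⟩ : ∃ D : ℝ, D = |(discr L : ℝ)| := ⟨_, rfl⟩
    have hD1 : 1 ≤ D := by rw [hD]; exact disc_one L
    have hDpos : 0 < D := by linarith
    have hdD : |(d : ℝ)| ≤ D := by
      rw [hD, hdf]
      push_cast
      rw [abs_mul, abs_pow, sq_abs]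
      apply le_mul_of_one_le_right (abs_nonneg _)
      have hf0 : f ≠ 0 := by
        rintro rfl
        apply discr_ne_zero L
        rw [hdf]
        ring
      have : (1 : ℤ) ≤ f ^ 2 := by
        have := sq_pos_of_ne_zero hf0
        omega
      exact_mod_cast this
    rw [← hD] at g1 g2 hH ⊢
    obtain ⟨Y, hY⟩ : ∃ Y : ℝ, Y = D ^ ((1 - u / 4) / wt n l) := ⟨_, rfl⟩
    rw [← hY] at g1 g2 hH ⊢
    have hfl : Y / 2 ≤ (⌊Y⌋₊ : ℝ) := by
      have h1 : Y < (⌊Y⌋₊ : ℝ) + 1 := Nat.lt_floor_add_one _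
      linarith
    rw [hev.neg_one_pow]
    refine hN1 d hsq ⌊Y⌋₊ ?_ ?_ hH _ (by omega)
    · have := le_abs_self N1
      linarith
    · -- `|d| ≤ N ^ A`
      have h2 : Y ^ (1 / 2 : ℝ) ≤ (⌊Y⌋₊ : ℝ) := by
        refine le_trans ?_ hfl
        have h3 : (2 : ℝ) ≤ Y ^ (1 / 2 : ℝ) := by
          have h4 : (4 : ℝ) ^ (1 / 2 : ℝ) ≤ Y ^ (1 / 2 : ℝ) :=
            Real.rpow_le_rpow (by norm_num) g2 (by norm_num)
          have h5 : (4 : ℝ) ^ (1 / 2 : ℝ) = 2 := by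
            rw [← Real.sqrt_eq_rpow]
            have : (4 : ℝ) = 2 ^ 2 := by norm_num
            rw [this, Real.sqrt_sq (by norm_num)]
          linarith
        have h6 : Y ^ (1 / 2 : ℝ) * Y ^ (1 / 2 : ℝ) = Y := by
          rw [← Real.rpow_add (by linarith)]
          norm_num
        nlinarith
      calc |(d : ℝ)| ≤ D := hdD
        _ ≤ D ^ (((1 - u / 4) / wt n l) * (1 / 2) * (4 * wt n l)) := by
            have h7 : ((1 - u / 4) / wt n l) * (1 / 2) * (4 * wt n l) = 2 * (1 - u / 4) := by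
              field_simp
              ring
            rw [h7]
            calc D = D ^ (1 : ℝ) := (Real.rpow_one _).symm
              _ ≤ D ^ (2 * (1 - u / 4)) := Real.rpow_le_rpow_of_exponent_le hD1 (by linarith)
        _ = (Y ^ (1 / 2 : ℝ)) ^ (4 * (wt n l : ℝ)) := by
            rw [hY, ← Real.rpow_mul hDpos.le, ← Real.rpow_mul hDpos.le]
        _ ≤ (⌊Y⌋₊ : ℝ) ^ (4 * (wt n l : ℝ)) := by
            apply Real.rpow_le_rpow (by positivity) h2 (by positivity)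

/-- very small squarefree part -/
theorem savE_tiny (n l : ℕ) (hn2 : 2 ≤ n) (hev : Even n) (hl : 1 ≤ l) {u κ : ℝ}
    (hu : 0 < u) (hu1 : u ≤ 1 / 2) (hκ : 0 < κ) :
    SavE n l (1 / 2 + 2 * κ - (1 - u / 4) * (1 - u / 4) / wt n l) (fun L _ _ => NoSub L ∧ ∃ d f : ℤ,
      discr L = d * f ^ 2 ∧ Squarefree d.natAbs ∧ |(d : ℝ)| ≤ |(discr L : ℝ)| ^ (1 / (4 * wt n l) : ℝ)) := by
  have hwr := wt_pos hn2 hl
  have h1 := savE_HN n l hn2 hev hl (δ := 1 / 4) (u := u) (κ := κ) (by norm_num) le_rfl hu hu1 hκ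
  have e1 : ∀ᶠ x : ℝ in atTop, (320 : ℝ) ≤ x ^ (3 / (16 * wt n l) : ℝ) :=
    (tendsto_rpow_atTop (by positivity)).eventually_ge_atTop _
  have e2 : ∀ᶠ x : ℝ in atTop, (4 : ℝ) ≤ x ^ ((1 - u / 4) / wt n l) :=
    (tendsto_rpow_atTop (div_pos (by linarith) hwr)).eventually_ge_atTop _
  obtain ⟨D0, hD0⟩ := eventually_atTop.1 (e1.and e2)
  refine ((h1).or (SavE.small' n l hn2 _ D0)).mono ?_
  rintro L _ _ hn ⟨hns, d, f, hdf, hsq, hd⟩
  rcases lt_or_ge |(discr L : ℝ)| D0 with hlt | hge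
  · exact Or.inr hlt
  · refine Or.inl ⟨hns, d, f, hdf, hsq, fun hd1 x => ?_⟩
    obtain ⟨g1, g2⟩ := hD0 _ hge
    obtain ⟨D, hD⟩ : ∃ D : ℝ, D = |(discr L : ℝ)| := ⟨_, rfl⟩
    have hD1 : 1 ≤ D := by rw [hD]; exact disc_one L
    have hDpos : 0 < D := by linarith
    rw [← hD] at g1 g2 hd ⊢
    obtain ⟨Y, hY⟩ : ∃ Y : ℝ, Y = D ^ ((1 - u / 4) / wt n l) := ⟨_, rfl⟩
    rw [← hY] at g2 ⊢
    have hfl : Y / 2 ≤ (⌊Y⌋₊ : ℝ) := by
      have h1 : Y < (⌊Y⌋₊ : ℝ) + 1 := Nat.lt_floor_add_one _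
      linarith
    have hN0 : (0 : ℝ) < (⌊Y⌋₊ : ℝ) := by linarith
    refine (pv d hsq hd1 x).trans ?_
    have h3 : (⌊Y⌋₊ : ℝ) ^ (-(1 / 4) : ℝ) * (⌊Y⌋₊ : ℝ) ^ (1 - 1 / 4 : ℝ) = (⌊Y⌋₊ : ℝ) ^ (1 / 2 : ℝ) := by
      rw [← Real.rpow_add hN0]
      norm_num
    have h4 : 0 ≤ (⌊Y⌋₊ : ℝ) ^ (-(1 / 4) : ℝ) * x := by positivity
    rw [mul_add, h3]
    have h5 : 160 * |(d : ℝ)| ≤ (⌊Y⌋₊ : ℝ) ^ (1 / 2 : ℝ) := by
      calc 160 * |(d : ℝ)| ≤ 160 * D ^ (1 / (4 * wt n l) : ℝ) := by linarith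
        _ ≤ (1 / 2) * (D ^ (3 / (16 * wt n l) : ℝ) * D ^ (1 / (4 * wt n l) : ℝ)) := by
            have : 0 < D ^ (1 / (4 * wt n l) : ℝ) := by positivity
            nlinarith
        _ = (1 / 2) * D ^ (7 / (16 * wt n l) : ℝ) := by
            rw [← Real.rpow_add hDpos]
            congr 2
            field_simp
            norm_num
        _ ≤ (1 / 2) * Y ^ (1 / 2 : ℝ) := by
            rw [hY, ← Real.rpow_mul hDpos.le]
            refine mul_le_mul_of_nonneg_left ?_ (by norm_num)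
            apply Real.rpow_le_rpow_of_exponent_le hD1
            rw [div_mul_eq_mul_div, div_le_div_iff₀ (by positivity) hwr]
            nlinarith
        _ ≤ (1 / 2) ^ (1 / 2 : ℝ) * Y ^ (1 / 2 : ℝ) := by
            apply mul_le_mul_of_nonneg_right _ (by positivity)
            calc (1 / 2 : ℝ) = (1 / 2) ^ (1 : ℝ) := (Real.rpow_one _).symm
              _ ≤ (1 / 2) ^ (1 / 2 : ℝ) :=
                Real.rpow_le_rpow_of_exponent_ge (by norm_num) (by norm_num) (by norm_num)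
        _ = (Y / 2) ^ (1 / 2 : ℝ) := by
            rw [← Real.mul_rpow (by norm_num) (by linarith)]
            congr 1
            ring
        _ ≤ (⌊Y⌋₊ : ℝ) ^ (1 / 2 : ℝ) := Real.rpow_le_rpow (by linarith) hfl (by norm_num)
    linarith

/-- the fields with a cancelling character -/
theorem savE_csh (n l : ℕ) (hn2 : 2 ≤ n) (hev : Even n) (hl : 1 ≤ l) {θ δ u κ : ℝ}
    (hδ : 0 < δ) (hu : 0 < u) (hu1 : u ≤ 1 / 2) (hκ : 0 < κ) :
    SavE n l (1 / 2 + 2 * κ - (1 - u / 4) * (1 - u / 4) / wt n l) (fun L _ _ => NoSub L ∧ ∃ d f : ℤ,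
      discr L = d * f ^ 2 ∧ Squarefree d.natAbs ∧ |(discr L : ℝ)| ^ (1 / (4 * wt n l) : ℝ) ≤ |(d : ℝ)| ∧
      CSH d δ θ ∧ |(d : ℝ)| ^ θ ≤ |(discr L : ℝ)| ^ ((1 - u / 2) / wt n l)) := by
  have hwr := wt_pos hn2 hl
  have hw1 : (1 : ℝ) ≤ wt n l := by
    have : 0 < wt n l := by exact_mod_cast hwr
    exact_mod_cast this
  obtain ⟨γ, hγ⟩ : ∃ γ : ℝ, γ = min (1 / 4) (min (δ / (4 * wt n l)) (u / 8)) := ⟨_, rfl⟩
  have hγ0 : 0 < γ := by
    rw [hγ]
    exact lt_min (by norm_num) (lt_min (by positivity) (by positivity))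
  have hγ1 : γ ≤ 1 / 4 := by rw [hγ]; exact min_le_left _ _
  have hγ2 : γ ≤ δ / (4 * wt n l) := by rw [hγ]; exact (min_le_right _ _).trans (min_le_left _ _)
  have hγ3 : γ ≤ u / 8 := by rw [hγ]; exact (min_le_right _ _).trans (min_le_right _ _)
  have h1 := savE_HN n l hn2 hev hl (δ := γ) (u := u) (κ := κ) hγ0 hγ1 hu hu1 hκ
  have e1 : ∀ᶠ x : ℝ in atTop, (2 : ℝ) ≤ x ^ (u / (8 * wt n l) : ℝ) :=
    (tendsto_rpow_atTop (by positivity)).eventually_ge_atTop _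
  have e2 : ∀ᶠ x : ℝ in atTop, (4 : ℝ) ≤ x ^ ((1 - u / 4) / wt n l) :=
    (tendsto_rpow_atTop (div_pos (by linarith) hwr)).eventually_ge_atTop _
  obtain ⟨D0, hD0⟩ := eventually_atTop.1 (e1.and e2)
  refine ((h1).or (SavE.small' n l hn2 _ D0)).mono ?_
  rintro L _ _ hn ⟨hns, d, f, hdf, hsq, hηd, hcs, hd⟩
  rcases lt_or_ge |(discr L : ℝ)| D0 with hlt | hge
  · exact Or.inr hlt
  · refine Or.inl ⟨hns, d, f, hdf, hsq, fun hd1 x => ?_⟩
    obtain ⟨g1, g2⟩ := hD0 _ hge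
    obtain ⟨D, hD⟩ : ∃ D : ℝ, D = |(discr L : ℝ)| := ⟨_, rfl⟩
    have hD1 : 1 ≤ D := by rw [hD]; exact disc_one L
    have hDpos : 0 < D := by linarith
    rw [← hD] at g1 g2 hd hηd ⊢
    obtain ⟨Y, hY⟩ : ∃ Y : ℝ, Y = D ^ ((1 - u / 4) / wt n l) := ⟨_, rfl⟩
    rw [← hY] at g2 ⊢
    have hfl : Y / 2 ≤ (⌊Y⌋₊ : ℝ) := by
      have h1 : Y < (⌊Y⌋₊ : ℝ) + 1 := Nat.lt_floor_add_one _
      linarith
    have hN1 : (1 : ℝ) ≤ (⌊Y⌋₊ : ℝ) := by linarith
    have hN0 : (0 : ℝ) < (⌊Y⌋₊ : ℝ) := by linarith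
    have hYD : Y ≤ D := by
      rw [hY]
      calc D ^ ((1 - u / 4) / wt n l) ≤ D ^ (1 : ℝ) := by
            apply Real.rpow_le_rpow_of_exponent_le hD1
            rw [div_le_one hwr]
            linarith
        _ = D := Real.rpow_one D
    have hND : (⌊Y⌋₊ : ℝ) ≤ D := (Nat.floor_le (by linarith)).trans hYD
    have hPpos : 0 < |(d : ℝ)| := lt_of_lt_of_le (by positivity) hηd
    refine (hcs x).trans ?_
    have h3 : |(d : ℝ)| ^ (-δ) ≤ (⌊Y⌋₊ : ℝ) ^ (-γ) := by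
      calc |(d : ℝ)| ^ (-δ) ≤ (D ^ (1 / (4 * wt n l) : ℝ)) ^ (-δ) :=
            Real.rpow_le_rpow_of_nonpos (by positivity) hηd (by linarith)
        _ = D ^ (-(δ / (4 * wt n l))) := by
            rw [← Real.rpow_mul hDpos.le]
            congr 1
            ring
        _ ≤ D ^ (-γ) := Real.rpow_le_rpow_of_exponent_le hD1 (by linarith)
        _ ≤ (⌊Y⌋₊ : ℝ) ^ (-γ) := Real.rpow_le_rpow_of_nonpos hN0 hND (by linarith)
    have h4 : |(d : ℝ)| ^ θ ≤ (⌊Y⌋₊ : ℝ) ^ (1 - γ) := by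
      refine hd.trans ?_
      calc D ^ ((1 - u / 2) / wt n l) ≤ (1 / 2) * (D ^ (u / (8 * wt n l)) * D ^ ((1 - u / 2) / wt n l)) := by
            have : 0 < D ^ ((1 - u / 2) / wt n l) := by positivity
            nlinarith
        _ = (1 / 2) * D ^ ((1 - 3 * u / 8) / wt n l) := by
            rw [← Real.rpow_add hDpos]
            congr 2
            field_simp
            ring
        _ ≤ (1 / 2) * Y ^ (1 - γ) := by
            rw [hY, ← Real.rpow_mul hDpos.le]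
            refine mul_le_mul_of_nonneg_left ?_ (by norm_num)
            apply Real.rpow_le_rpow_of_exponent_le hD1
            rw [div_mul_eq_mul_div]
            apply div_le_div_of_nonneg_right _ hwr.le
            nlinarith
        _ ≤ (1 / 2) ^ (1 - γ) * Y ^ (1 - γ) := by
            apply mul_le_mul_of_nonneg_right _ (by positivity)
            calc (1 / 2 : ℝ) = (1 / 2) ^ (1 : ℝ) := (Real.rpow_one _).symm
              _ ≤ (1 / 2) ^ (1 - γ) :=
                Real.rpow_le_rpow_of_exponent_ge (by norm_num) (by norm_num) (by linarith)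
        _ = (Y / 2) ^ (1 - γ) := by
            rw [← Real.mul_rpow (by norm_num) (by linarith)]
            congr 1
            ring
        _ ≤ (⌊Y⌋₊ : ℝ) ^ (1 - γ) := Real.rpow_le_rpow (by linarith) hfl (by linarith)
    apply mul_le_mul h3 (by linarith) (by positivity) (by positivity)

/-- small squarefree part -/
theorem savE_burgess (n l : ℕ) (hn2 : 2 ≤ n) (hev : Even n) (hl : 1 ≤ l) {u κ : ℝ} (hu : 0 < u) (hu1 : u ≤ 1 / 2)
    (hκ : 0 < κ) :
    SavE n l (1 / 2 + 2 * κ - (1 - u / 4) * (1 - u / 4) / wt n l) (fun L _ _ => NoSub L ∧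
      ∃ d f : ℤ, discr L = d * f ^ 2 ∧ Squarefree d.natAbs ∧
      |(discr L : ℝ)| ^ (1 / (4 * wt n l) : ℝ) ≤ |(d : ℝ)| ∧
      |(d : ℝ)| ≤ |(discr L : ℝ)| ^ (4 / wt n l * (1 - u))) := by
  have hwr := wt_pos hn2 hl
  obtain ⟨δ, P0, hδ, hδ1, hbur⟩ := burgess_csh (u / 12) (by positivity)
  have h1 := savE_csh n l hn2 hev hl (θ := 1 / 4 + u / 12) (δ := δ) (u := u) (κ := κ) hδ hu hu1 hκ
  have hη : (0 : ℝ) < 1 / (4 * wt n l) := by positivity
  obtain ⟨D0, hD0⟩ := eventually_atTop.1 ((tendsto_rpow_atTop hη).eventually_ge_atTop P0)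
  refine ((h1).or (SavE.small' n l hn2 _ D0)).mono ?_
  rintro L _ _ hn ⟨hns, d, f, hdf, hsq, hηd, hd⟩
  rcases lt_or_ge |(discr L : ℝ)| D0 with hlt | hge
  · exact Or.inr hlt
  · refine Or.inl ⟨hns, d, f, hdf, hsq, hηd, hbur d ((hD0 _ hge).trans hηd) hsq, ?_⟩
    have hD1 := disc_one L
    have hDpos : 0 < |(discr L : ℝ)| := by linarith
    calc |(d : ℝ)| ^ (1 / 4 + u / 12)
        ≤ (|(discr L : ℝ)| ^ (4 / wt n l * (1 - u))) ^ (1 / 4 + u / 12) :=
          Real.rpow_le_rpow (abs_nonneg _) hd (by positivity)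
      _ = |(discr L : ℝ)| ^ ((4 / wt n l * (1 - u)) * (1 / 4 + u / 12)) := by
          rw [← Real.rpow_mul hDpos.le]
      _ ≤ |(discr L : ℝ)| ^ ((1 - u / 2) / wt n l) := by
          apply Real.rpow_le_rpow_of_exponent_le hD1
          have h2 : (4 / wt n l * (1 - u)) * (1 / 4 + u / 12) = ((1 - u) * (1 + u / 3)) / wt n l := by
            field_simp
            ring
          rw [h2]
          apply div_le_div_of_nonneg_right _ hwr.le
          nlinarith [mul_pos hu hu]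

/-- smooth squarefree part -/
theorem savE_smooth (n l : ℕ) (hn2 : 2 ≤ n) (hev : Even n) (hl : 1 ≤ l) {u κ : ℝ} (hu : 0 < u) (hu1 : u ≤ 1 / 2)
    (hκ : 0 < κ) :
    SavE n l (1 / 2 + 2 * κ - (1 - u / 4) * (1 - u / 4) / wt n l) (fun L _ _ => NoSub L ∧
      ∃ d f : ℤ, discr L = d * f ^ 2 ∧ Squarefree d.natAbs ∧
      |(discr L : ℝ)| ^ (1 / (4 * wt n l) : ℝ) ≤ |(d : ℝ)| ∧
      |(discr L : ℝ)| ^ (4 / wt n l * (1 - u / 4)) ≤ |(d : ℝ)| ∧
      |(d : ℝ)| ≤ |(discr L : ℝ)| ∧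
      ∀ p : ℕ, p.Prime → (p : ℤ) ∣ d → (p : ℝ) ≤ |(discr L : ℝ)| ^ (1 / wt n l * (1 - u))) := by
  have hwr := wt_pos hn2 hl
  obtain ⟨t, ht⟩ : ∃ t : ℝ, t = 1 / wt n l := ⟨_, rfl⟩
  have hτ : 0 < t := by rw [ht]; positivity
  have h4t : 4 / (wt n l : ℝ) = 4 * t := by rw [ht]; ring
  rw [h4t, ← ht]
  obtain ⟨g, hg⟩ : ∃ g : ℝ, g = t * u / 8 := ⟨_, rfl⟩
  have hg0 : 0 < g := by rw [hg]; positivity
  obtain ⟨K, hK⟩ := exists_nat_gt (1 / g)
  have hη : (0 : ℝ) < 1 / (4 * wt n l) := by positivity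
  -- the statement at a grid point
  have key : ∀ i : ℕ, SavE n l (1 / 2 + 2 * κ - (1 - u / 4) * (1 - u / 4) / wt n l)
      (fun L _ _ => (2 * g ≤ i * g ∧ (i * g : ℝ) ≤ 1 / 3) ∧ NoSub L ∧
      ∃ d f : ℤ, discr L = d * f ^ 2 ∧ Squarefree d.natAbs ∧
      |(discr L : ℝ)| ^ (1 / (4 * wt n l) : ℝ) ≤ |(d : ℝ)| ∧
      |(d : ℝ)| ^ (i * g : ℝ) ≤ |(discr L : ℝ)| ^ (t * (1 - u / 2)) ∧
      ∀ p : ℕ, p.Prime → (p : ℤ) ∣ d → (p : ℝ) ≤ |(d : ℝ)| ^ (i * g - g)) := by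
    intro i
    by_cases hi : 2 * g ≤ i * g ∧ (i * g : ℝ) ≤ 1 / 3
    swap
    · exact ⟨1, one_pos, fun L _ _ _ hL => absurd hL.1 hi⟩
    obtain ⟨hi1, hi2⟩ := hi
    have hig : 0 < (i * g : ℝ) := by linarith
    obtain ⟨δ, P0, hδ, hcs⟩ := Pool.Agent.H568.GR.cs' (i * g) g hg0 (by linarith) (by linarith)
    have h1 := savE_csh n l hn2 hev hl (θ := i * g) (δ := δ) (u := u) (κ := κ) hδ hu hu1 hκ
    obtain ⟨D0, hD0⟩ := eventually_atTop.1 ((tendsto_rpow_atTop hη).eventually_ge_atTop P0)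
    refine ((h1).or (SavE.small' n l hn2 _ D0)).mono ?_
    rintro L _ _ hn ⟨-, hns, d, f, hdf, hsq, hηd, hd, hsm⟩
    rcases lt_or_ge |(discr L : ℝ)| D0 with hlt | hge
    · exact Or.inr hlt
    · have hPd : P0 ≤ |(d : ℝ)| := (hD0 _ hge).trans hηd
      have hcsh : CSH d δ (i * g) := by
        intro x
        obtain ⟨a, q, ha, hq, hDq⟩ : ∃ a q : ℕ, a ≤ 3 ∧ Odd q ∧ d.natAbs = 2 ^ a * q := by
          rcases Nat.even_or_odd d.natAbs with h | h
          · obtain ⟨k, hk⟩ := h.two_dvd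
            refine ⟨1, k, by norm_num, ?_, by rw [pow_one, hk]⟩
            by_contra hcon
            rw [Nat.not_odd_iff_even] at hcon
            obtain ⟨j, hj⟩ := hcon.two_dvd
            have h4 : 2 * 2 ∣ d.natAbs := ⟨j, by rw [hk, hj]; ring⟩
            have := hsq 2 h4
            exact absurd (Nat.isUnit_iff.mp this) (by norm_num)
          · exact ⟨0, d.natAbs, by norm_num, h, by rw [pow_zero, one_mul]⟩
        have hqs : Squarefree q := hsq.squarefree_of_dvd ⟨2 ^ a, by rw [hDq]; ring⟩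
        refine hcs d a q hPd ha hq hqs hDq (fun p hp hpq => ?_) x
        exact hsm p hp (Int.natCast_dvd.2 (hpq.trans ⟨2 ^ a, by rw [hDq]; ring⟩))
      refine Or.inl ⟨hns, d, f, hdf, hsq, hηd, hcsh, ?_⟩
      have h2 : (1 - u / 2) / (wt n l : ℝ) = t * (1 - u / 2) := by rw [ht]; ring
      rw [h2]
      exact hd
  refine ((SavE.small' n l hn2 _ 2).or (SavE.fin key K)).mono ?_
  rintro L _ _ hn ⟨hns, d, f, hdf, hsq, hηd, hbig, hdD, hsm⟩
  rcases lt_or_ge |(discr L : ℝ)| 2 with hlt | hge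
  · exact Or.inl hlt
  · right
    obtain ⟨D, hD⟩ : ∃ D : ℝ, D = |(discr L : ℝ)| := ⟨_, rfl⟩
    obtain ⟨P, hP⟩ : ∃ P : ℝ, P = |(d : ℝ)| := ⟨_, rfl⟩
    rw [← hD, ← hP] at hηd hbig hdD
    rw [← hD] at hsm hge
    have hD0 : 0 < D := by linarith
    have hD1 : 1 < D := by linarith
    have hlD : 0 < Real.log D := Real.log_pos hD1
    have hP1 : 1 < P := by
      refine lt_of_lt_of_le ?_ hηd
      exact Real.one_lt_rpow hD1 hη
    have hP0 : 0 < P := by linarith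
    have hlP : 0 < Real.log P := Real.log_pos hP1
    -- the exponent
    obtain ⟨θ, hθ⟩ : ∃ θ : ℝ, θ = t * (1 - u / 2) * Real.log D / Real.log P := ⟨_, rfl⟩
    have hPθ : P ^ θ = D ^ (t * (1 - u / 2)) := by
      rw [Real.rpow_def_of_pos hP0, Real.rpow_def_of_pos hD0, hθ]
      congr 1
      field_simp
    have hlogPD : Real.log P ≤ Real.log D := Real.log_le_log hP0 hdD
    have hlogbig : 4 * t * (1 - u / 4) * Real.log D ≤ Real.log P := by
      have := Real.log_le_log (by positivity) hbig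
      rwa [Real.log_rpow hD0] at this
    have hθ1 : t * (1 - u / 2) ≤ θ := by
      rw [hθ, le_div_iff₀ hlP]
      apply mul_le_mul_of_nonneg_left hlogPD
      have : 0 ≤ 1 - u / 2 := by linarith
      positivity
    have hθ2 : θ ≤ 1 / 4 := by
      rw [hθ, div_le_iff₀ hlP]
      have h3 : t * (1 - u / 2) * Real.log D ≤ t * (1 - u / 4) * Real.log D := by
        apply mul_le_mul_of_nonneg_right _ hlD.le
        apply mul_le_mul_of_nonneg_left _ hτ.le
        linarith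
      linarith
    -- the grid point
    obtain ⟨i, hi⟩ : ∃ i : ℕ, i = ⌊θ / g⌋₊ := ⟨_, rfl⟩
    have hθ0 : 0 < θ := lt_of_lt_of_le (mul_pos hτ (by linarith)) hθ1
    have hi1 : (i * g : ℝ) ≤ θ := by
      rw [← le_div_iff₀ hg0, hi]
      exact Nat.floor_le (by positivity)
    have hi2 : θ - g < i * g := by
      have h3 : θ / g < i + 1 := by rw [hi]; exact Nat.lt_floor_add_one _
      rw [div_lt_iff₀ hg0] at h3
      linarith
    have hiK : i < K := by
      have h3 : (i : ℝ) < K := by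
        refine lt_of_le_of_lt ?_ hK
        rw [le_div_iff₀ hg0]
        linarith
      exact_mod_cast h3
    have hgu : 8 * g = t * u := by rw [hg]; ring
    refine ⟨i, hiK, ⟨?_, by linarith⟩, hns, d, f, hdf, hsq, ?_, ?_, ?_⟩
    · have h3 : 3 * g ≤ θ := by
        refine le_trans ?_ hθ1
        have h4 : t * u ≤ t * (1 / 2) := mul_le_mul_of_nonneg_left hu1 hτ.le
        have h5 : t * (1 - u / 2) = t - t * u / 2 := by ring
        rw [h5, ← hgu]
        rw [← hgu] at h4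
        linarith
      linarith
    · rw [← hD, ← hP]
      exact hηd
    · rw [← hD, ← hP, ← hPθ]
      exact Real.rpow_le_rpow_of_exponent_le hP1.le hi1
    · intro p hp hpd
      rw [← hP]
      refine (hsm p hp hpd).trans ?_
      have h3 : D ^ (t * (1 - u)) = P ^ (θ * ((1 - u) / (1 - u / 2))) := by
        rw [Real.rpow_mul hP0.le, hPθ, ← Real.rpow_mul hD0.le]
        congr 1
        have h9 : (1 - u / 2) ≠ 0 := by
          have : 0 < 1 - u / 2 := by linarith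
          exact this.ne'
        have h10 : (1 - u / 2) * ((1 - u) / (1 - u / 2)) = 1 - u := by
          rw [mul_div_assoc']
          exact mul_div_cancel_left₀ _ h9
        rw [mul_assoc, h10]
      rw [h3]
      apply Real.rpow_le_rpow_of_exponent_le hP1.le
      have h4 : 0 < 1 - u / 2 := by linarith
      have h5 : θ * ((1 - u) / (1 - u / 2)) = θ - θ * (u / 2) / (1 - u / 2) := by
        have e : 1 - u = (1 - u / 2) - u / 2 := by ring
        rw [e, sub_div, div_self h4.ne']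
        ring
      have h6 : 2 * g ≤ θ * (u / 2) / (1 - u / 2) := by
        rw [le_div_iff₀ h4]
        have h7 : t * (1 - u / 2) * (u / 2) ≤ θ * (u / 2) := mul_le_mul_of_nonneg_right hθ1 (by positivity)
        have h8 : t * (1 - u / 2) * (u / 2) = 4 * g * (1 - u / 2) := by
          have : t * (1 - u / 2) * (u / 2) = (t * u) / 2 * (1 - u / 2) := by ring
          rw [this, ← hgu]
          ring
        nlinarith
      rw [h5]
      linarith

/-- **the final statement for even degrees** -/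
theorem finalE (n l : ℕ) (hn2 : 2 ≤ n) (hev : Even n) (hl : 1 ≤ l) {ε : ℝ} (hε : 0 < ε) :
    SavE n l (1 / 2 - 1 / wt n l + ε) (fun L _ _ => NoSub L ∧ ∃ d f : ℤ, discr L = d * f ^ 2 ∧
      (|(d : ℝ)| ≤ |(discr L : ℝ)| ^ (4 / wt n l - ε) ∨
        ∀ p : ℕ, p.Prime → (p : ℤ) ∣ d → (p : ℝ) ≤ |(discr L : ℝ)| ^ (1 / wt n l - ε))) := by
  have hwr := wt_pos hn2 hl
  obtain ⟨u, hu⟩ : ∃ u : ℝ, u = min (1 / 2) (ε * wt n l / 4) := ⟨_, rfl⟩
  have hu0 : 0 < u := by rw [hu]; exact lt_min (by norm_num) (by positivity)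
  have hu1 : u ≤ 1 / 2 := by rw [hu]; exact min_le_left _ _
  have hu2 : 4 / wt n l * u ≤ ε := by
    have h1 : u ≤ ε * wt n l / 4 := by rw [hu]; exact min_le_right _ _
    rw [div_mul_eq_mul_div, div_le_iff₀ hwr]
    linarith
  have hexp : ∀ v : ℝ, 0 < v → v ≤ u →
      1 / 2 + 2 * (ε / 8) - (1 - v / 4) * (1 - v / 4) / wt n l ≤ 1 / 2 - 1 / wt n l + ε := by
    intro v hv hvu
    have h1 : (1 - v / 4) * (1 - v / 4) / wt n l = 1 / wt n l - (v / 2 - v ^ 2 / 16) / wt n l := by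
      rw [← sub_div]
      congr 1
      ring
    have h2 : (v / 2 - v ^ 2 / 16) / wt n l ≤ ε / 2 := by
      rw [div_le_iff₀ hwr]
      have h3 : u ≤ ε * wt n l / 4 := by rw [hu]; exact min_le_right _ _
      nlinarith [sq_nonneg v]
    rw [h1]
    linarith
  have hT := (savE_tiny n l hn2 hev hl (u := u) (κ := ε / 8) hu0 hu1 (by positivity)).exp (hexp u hu0 le_rfl)
  have hB := (savE_burgess n l hn2 hev hl (u := u / 4) (κ := ε / 8) (by positivity) (by linarith)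
    (by positivity)).exp (hexp (u / 4) (by positivity) (by linarith))
  have hS := (savE_smooth n l hn2 hev hl (u := u) (κ := ε / 8) hu0 hu1 (by positivity)).exp (hexp u hu0 le_rfl)
  refine (hT.or (hB.or hS)).mono ?_
  rintro L _ _ hn ⟨hns, d, f, hdf, hcond⟩
  have hDz := discr_ne_zero L
  have hd0 : d ≠ 0 := by
    rintro rfl
    rw [zero_mul] at hdf
    exact hDz hdf
  have hf0 : f ≠ 0 := by
    rintro rfl
    apply hDz
    rw [hdf]
    ring
  obtain ⟨d', g, hdg, hsq⟩ := exists_sqf d hd0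
  have hg0 : g ≠ 0 := by
    rintro rfl
    apply hd0
    rw [hdg]
    ring
  have hD1 := disc_one L
  have hdf' : discr L = d' * (g * f) ^ 2 := by
    rw [hdf, hdg]
    ring
  have hd'd : |(d' : ℝ)| ≤ |(d : ℝ)| := by
    rw [hdg]
    push_cast
    rw [abs_mul, abs_pow, sq_abs]
    apply le_mul_of_one_le_right (abs_nonneg _)
    have : (1 : ℤ) ≤ g ^ 2 := by
      have := sq_pos_of_ne_zero hg0
      omega
    exact_mod_cast this
  have hd'D : |(d' : ℝ)| ≤ |(discr L : ℝ)| := by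
    refine hd'd.trans ?_
    rw [hdf]
    push_cast
    rw [abs_mul, abs_pow, sq_abs]
    apply le_mul_of_one_le_right (abs_nonneg _)
    have : (1 : ℤ) ≤ f ^ 2 := by
      have := sq_pos_of_ne_zero hf0
      omega
    exact_mod_cast this
  have h4u : 4 / wt n l * (u / 4) = u / wt n l := by ring
  have hup : 0 < u / (wt n l : ℝ) := by positivity
  have h1u : 4 / wt n l * u = 4 * (u / wt n l) := by ring
  rcases le_or_gt |(d' : ℝ)| (|(discr L : ℝ)| ^ (1 / (4 * wt n l) : ℝ)) with h1 | h1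
  · exact Or.inl ⟨hns, d', g * f, hdf', hsq, h1⟩
  · right
    rcases le_or_gt |(d' : ℝ)| (|(discr L : ℝ)| ^ (4 / wt n l * (1 - u / 4))) with h2 | h2
    · exact Or.inl ⟨hns, d', g * f, hdf', hsq, h1.le, h2⟩
    · right
      refine ⟨hns, d', g * f, hdf', hsq, h1.le, h2.le, hd'D, ?_⟩
      rcases hcond with h3 | h3
      · exfalso
        have h4 : |(discr L : ℝ)| ^ (4 / wt n l - ε) ≤ |(discr L : ℝ)| ^ (4 / wt n l * (1 - u / 4)) := by
          apply Real.rpow_le_rpow_of_exponent_le hD1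
          rw [mul_sub, h4u]
          linarith
        linarith
      · intro p hp hpd
        refine (h3 p hp (by rw [hdg]; exact Dvd.dvd.mul_right hpd _)).trans ?_
        apply Real.rpow_le_rpow_of_exponent_le hD1
        have h5 : 1 / wt n l * (1 - u) = 1 / wt n l - u / wt n l := by ring
        rw [h5]
        linarith

end Pool.Agent.K1H79.QR
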