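import Pool.Agent.K1H79.QR.Cnt

/-! # A completely multiplicative function with the values at some primes replaced by one
(after `Pool.Agent.R852.BC.Gs`) -/

set_option autoImplicit false

namespace Pool.Agent.K1H79.QR

open Finset

/-- completely multiplicative with values in the unit interval -/
structure CM (f : ℕ → ℝ) : Prop where
  one : f 1 = 1
  mul : ∀ a b, f (a * b) = f a * f b
  bd : ∀ a, |f a| ≤ 1

variable (f : ℕ → ℝ)

/-- the value at a prime -/
noncomputable def gv (S : Finset ℕ) (l : ℕ) : ℝ := if l ∈ S then 1 else f l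

/-- the completely multiplicative function -/
noncomputable def gS (S : Finset ℕ) (m : ℕ) : ℝ := (m.primeFactorsList.map (gv f S)).prod

lemma gS_mul (S : Finset ℕ) {a b : ℕ} (ha : a ≠ 0) (hb : b ≠ 0) :
    gS f S (a * b) = gS f S a * gS f S b := by
  unfold gS
  rw [((Nat.perm_primeFactorsList_mul ha hb).map _).prod_eq, List.map_append, List.prod_append]

lemma gS_prime (S : Finset ℕ) {l : ℕ} (hl : l.Prime) : gS f S l = gv f S l := by
  simp [gS, Nat.primeFactorsList_prime hl]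

lemma gS_one (S : Finset ℕ) : gS f S 1 = 1 := by simp [gS]

variable {f}

lemma gS_empty (hf : CM f) {m : ℕ} (hm : m ≠ 0) : gS f ∅ m = f m := by
  induction m using Nat.recOnMul with
  | zero => exact absurd rfl hm
  | one => rw [gS_one, hf.one]
  | prime p hp => rw [gS_prime f ∅ hp]; simp [gv]
  | mul a b ha hb =>
    have ha0 : a ≠ 0 := fun h0 => hm (by rw [h0, zero_mul])
    have hb0 : b ≠ 0 := fun h0 => hm (by rw [h0, mul_zero])
    rw [gS_mul f ∅ ha0 hb0, ha ha0, hb hb0, hf.mul]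

lemma gv_norm_le (hf : CM f) (S : Finset ℕ) (l : ℕ) : |gv f S l| ≤ 1 := by
  unfold gv
  split_ifs
  · simp
  · exact hf.bd l

lemma gS_norm_le (hf : CM f) (S : Finset ℕ) (m : ℕ) : |gS f S m| ≤ 1 := by
  unfold gS
  induction m.primeFactorsList with
  | nil => simp
  | cons a t ih =>
    rw [List.map_cons, List.prod_cons, abs_mul]
    exact mul_le_one₀ (gv_norm_le hf S a) (abs_nonneg _) ih

lemma gS_insert (S : Finset ℕ) {q m : ℕ} (hqm : ¬ q ∣ m) :
    gS f (insert q S) m = gS f S m := by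
  unfold gS
  congr 1
  apply List.map_congr_left
  intro l hl
  have h1 : l ≠ q := by
    rintro rfl
    exact hqm (Nat.dvd_of_mem_primeFactorsList hl)
  unfold gv
  simp [Finset.mem_insert, h1]

lemma gS_good (S : Finset ℕ) {m : ℕ} (h : ∀ l : ℕ, l.Prime → l ∣ m → gv f S l = 1) :
    gS f S m = 1 := by
  unfold gS
  apply List.prod_eq_one
  intro x hx
  rw [List.mem_map] at hx
  obtain ⟨l, hl, rfl⟩ := hx
  exact h l (Nat.prime_of_mem_primeFactorsList hl) (Nat.dvd_of_mem_primeFactorsList hl)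

variable (f)

/-- the sum -/
noncomputable def G (S : Finset ℕ) (Y : ℕ) : ℝ := ∑ m ∈ Icc 1 Y, gS f S m

variable {f}

lemma G_empty (hf : CM f) (Y : ℕ) : G f ∅ Y = ∑ m ∈ Icc 1 Y, f m := by
  unfold G
  refine sum_congr rfl fun m hm => ?_
  exact gS_empty hf (by have := (mem_Icc.mp hm).1; omega)

lemma sum_dvd (q : ℕ) (hq : 0 < q) (g : ℕ → ℝ) (Y : ℕ) :
    ∑ m ∈ (Icc 1 Y).filter (fun m => q ∣ m), g m = ∑ k ∈ Icc 1 (Y / q), g (q * k) := by
  symm
  refine Finset.sum_bij (fun k _ => q * k) ?_ ?_ ?_ ?_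
  · intro k hk
    rw [mem_Icc] at hk
    rw [mem_filter, mem_Icc]
    refine ⟨⟨Nat.mul_pos hq hk.1, ?_⟩, dvd_mul_right _ _⟩
    calc q * k ≤ q * (Y / q) := Nat.mul_le_mul_left _ hk.2
      _ ≤ Y := Nat.mul_div_le Y q
  · intro a _ b _ hab
    exact Nat.eq_of_mul_eq_mul_left hq hab
  · intro m hm
    rw [mem_filter, mem_Icc] at hm
    obtain ⟨k, rfl⟩ := hm.2
    refine ⟨k, ?_, rfl⟩
    rw [mem_Icc]
    refine ⟨Nat.pos_of_ne_zero (by rintro rfl; simp at hm), ?_⟩
    rw [Nat.le_div_iff_mul_le hq, mul_comm]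
    exact hm.1.2
  · intro k _
    rfl

lemma G_split (S : Finset ℕ) {q : ℕ} (hq : q.Prime) (Y : ℕ) :
    G f S Y = ∑ m ∈ (Icc 1 Y).filter (fun m => ¬ q ∣ m), gS f S m + gv f S q * G f S (Y / q) := by
  unfold G
  rw [← Finset.sum_filter_add_sum_filter_not (Icc 1 Y) (fun m => q ∣ m), add_comm,
    sum_dvd q hq.pos, mul_sum]
  congr 1
  refine sum_congr rfl fun k hk => ?_
  rw [gS_mul f S hq.ne_zero (by have := (mem_Icc.mp hk).1; omega), gS_prime f S hq]

lemma G_step (hf : CM f) (S : Finset ℕ) {q : ℕ} (hq : q.Prime) (Y : ℕ) :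
    |G f (insert q S) Y| ≤ |G f (insert q S) (Y / q)| + |G f S Y| + |G f S (Y / q)| := by
  have h1 := G_split (f := f) (insert q S) hq Y
  have h2 := G_split (f := f) S hq Y
  have h3 : gv f (insert q S) q = 1 := by simp [gv]
  have h4 : ∑ m ∈ (Icc 1 Y).filter (fun m => ¬ q ∣ m), gS f (insert q S) m =
      ∑ m ∈ (Icc 1 Y).filter (fun m => ¬ q ∣ m), gS f S m :=
    sum_congr rfl fun m hm => gS_insert S (mem_filter.mp hm).2
  have h5 : G f (insert q S) Y = G f (insert q S) (Y / q) + G f S Y -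
      gv f S q * G f S (Y / q) := by
    rw [h1, h2, h3, h4]
    ring
  rw [h5]
  have h6 : |G f (insert q S) (Y / q) + G f S Y - gv f S q * G f S (Y / q)| ≤
    |G f (insert q S) (Y / q) + G f S Y| + |gv f S q * G f S (Y / q)| := abs_sub _ _
  refine h6.trans (add_le_add (abs_add_le _ _) ?_)
  rw [abs_mul]
  exact mul_le_of_le_one_left (abs_nonneg _) (gv_norm_le hf S q)

/-! ### the composed integers -/

/-- the weighted sum over the composed integers -/
noncomputable def W (F : ℕ → ℝ) (S : Finset ℕ) (Y : ℕ) : ℝ :=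
  ∑ a ∈ Cc S Y, (2 : ℝ) ^ a.primeFactors.card * F (Y / a)

theorem mem_Cc_insert {S : Finset ℕ} {q a Y : ℕ} (hqa : ¬ q ∣ a) :
    a ∈ Cc (insert q S) Y ↔ a ∈ Cc S Y := by
  rw [mem_Cc, mem_Cc]
  refine ⟨fun ⟨h1, h2, h3⟩ => ⟨h1, h2, fun p hp hd => ?_⟩, fun ⟨h1, h2, h3⟩ => ⟨h1, h2, fun p hp hd =>
    mem_insert_of_mem (h3 p hp hd)⟩⟩
  rcases mem_insert.1 (h3 p hp hd) with h | h
  · subst h; exact absurd hd hqa
  · exact h

theorem mem_Cc_mul {S : Finset ℕ} {q b Y : ℕ} (hq : q.Prime) :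
    q * b ∈ Cc (insert q S) Y ↔ b ∈ Cc (insert q S) (Y / q) := by
  rw [mem_Cc, mem_Cc, Nat.le_div_iff_mul_le hq.pos, mul_comm b q]
  refine ⟨fun ⟨h1, h2, h3⟩ => ⟨?_, h2, fun p hp hd => h3 p hp (hd.mul_left _)⟩, fun ⟨h1, h2, h3⟩ =>
    ⟨Nat.mul_pos hq.pos h1, h2, fun p hp hd => ?_⟩⟩
  · exact Nat.pos_of_ne_zero (by rintro rfl; simp at h1)
  · rcases hp.dvd_mul.1 hd with h | h
    · rw [(Nat.prime_dvd_prime_iff_eq hp hq).1 h]
      exact mem_insert_self _ _
    · exact h3 p hp h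

theorem not_dvd_of_Cc {S : Finset ℕ} {q a Y : ℕ} (hq : q.Prime) (hqS : q ∉ S) (h : a ∈ Cc S Y) : ¬ q ∣ a :=
  fun hd => hqS ((mem_Cc.1 h).2.2 q hq hd)

theorem W_rec (F : ℕ → ℝ) (S : Finset ℕ) {q : ℕ} (hq : q.Prime) (hqS : q ∉ S) (Y : ℕ) :
    W F (insert q S) Y = W F (insert q S) (Y / q) + W F S Y + W F S (Y / q) := by
  classical
  -- the part prime to `q`
  have e1 : ∀ Z : ℕ, (Cc (insert q S) Z).filter (fun a => ¬ q ∣ a) = Cc S Z := by
    intro Z
    ext a
    rw [mem_filter]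
    constructor
    · rintro ⟨h1, h2⟩
      exact (mem_Cc_insert h2).1 h1
    · intro h
      have h2 := not_dvd_of_Cc hq hqS h
      exact ⟨(mem_Cc_insert h2).2 h, h2⟩
  have e2 : ∑ a ∈ (Cc (insert q S) Y).filter (fun a => q ∣ a), (2 : ℝ) ^ a.primeFactors.card * F (Y / a) =
      ∑ b ∈ Cc (insert q S) (Y / q), (2 : ℝ) ^ (q * b).primeFactors.card * F (Y / q / b) := by
    symm
    refine Finset.sum_bij (fun b _ => q * b) ?_ ?_ ?_ ?_
    · intro b hb
      rw [mem_filter]
      exact ⟨(mem_Cc_mul hq).2 hb, dvd_mul_right _ _⟩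
    · intro a _ b _ hab
      exact Nat.eq_of_mul_eq_mul_left hq.pos hab
    · intro a ha
      rw [mem_filter] at ha
      obtain ⟨b, rfl⟩ := ha.2
      exact ⟨b, (mem_Cc_mul hq).1 ha.1, rfl⟩
    · intro b _
      rw [Nat.div_div_eq_div_mul]
  have e3 : ∀ b ∈ Cc (insert q S) (Y / q), (2 : ℝ) ^ (q * b).primeFactors.card * F (Y / q / b) =
      (2 : ℝ) ^ b.primeFactors.card * F (Y / q / b) +
        if ¬ q ∣ b then (2 : ℝ) ^ b.primeFactors.card * F (Y / q / b) else 0 := by
    intro b hb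
    have hb0 : b ≠ 0 := by
      have := (mem_Cc.1 hb).1
      omega
    rw [Nat.primeFactors_mul hq.ne_zero hb0, hq.primeFactors]
    by_cases h : q ∣ b
    · have h1 : q ∈ b.primeFactors := Nat.mem_primeFactors.2 ⟨hq, h, hb0⟩
      rw [if_neg (not_not.2 h), Finset.singleton_union, Finset.insert_eq_of_mem h1, add_zero]
    · have h1 : q ∉ b.primeFactors := fun hm => h (Nat.dvd_of_mem_primeFactors hm)
      rw [if_pos h, Finset.singleton_union, Finset.card_insert_of_notMem h1, pow_succ]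
      ring
  unfold W
  rw [← Finset.sum_filter_add_sum_filter_not (Cc (insert q S) Y) (fun a => q ∣ a), e2, e1,
    Finset.sum_congr rfl e3, Finset.sum_add_distrib, ← Finset.sum_filter, e1]
  ring

theorem G_le_W (hf : CM f) (F : ℕ → ℝ) (hF : ∀ Y, |G f ∅ Y| ≤ F Y) (S : Finset ℕ)
    (hS : ∀ q ∈ S, q.Prime) : ∀ Y, |G f S Y| ≤ W F S Y := by
  induction S using Finset.induction_on with
  | empty =>
    intro Y
    rcases Nat.eq_zero_or_pos Y with h0 | h0
    · subst h0
      have h1 : Cc ∅ 0 = ∅ := by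
        ext a
        rw [mem_Cc]
        simp
        omega
      simp [W, h1, G]
    · have h1 : Cc ∅ Y = {1} := by
        ext a
        rw [mem_Cc, mem_singleton]
        constructor
        · rintro ⟨h1, h2, h3⟩
          by_contra hne
          obtain ⟨p, hp, hpa⟩ := Nat.exists_prime_and_dvd hne
          exact absurd (h3 p hp hpa) (notMem_empty _)
        · rintro rfl
          exact ⟨le_rfl, h0, fun p hp h => absurd (Nat.dvd_one.1 h) hp.one_lt.ne'⟩
      unfold W
      rw [h1, sum_singleton, Nat.primeFactors_one, card_empty, pow_zero, one_mul, Nat.div_one]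
      exact hF Y
  | insert q S hqS ih =>
    have hq : q.Prime := hS q (mem_insert_self q S)
    have h1 := ih (fun l hl => hS l (mem_insert_of_mem hl))
    intro Y
    induction Y using Nat.strong_induction_on with
    | _ Y ihY =>
      rcases Nat.eq_zero_or_pos Y with h0 | h0
      · subst h0
        have h1 : Cc (insert q S) 0 = ∅ := by
          ext a
          rw [mem_Cc]
          simp
          omega
        simp [W, h1, G]
      · have hlt : Y / q < Y := Nat.div_lt_self h0 hq.one_lt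
        rw [W_rec F S hq hqS]
        have h2 := ihY (Y / q) hlt
        have h3 := h1 Y
        have h4 := h1 (Y / q)
        have h5 := G_step hf S hq Y
        linarith

open Classical in
/-- the exceptional primes -/
noncomputable def exc (f : ℕ → ℝ) (y : ℕ) : Finset ℕ :=
  (range (y + 1)).filter (fun l : ℕ => l.Prime ∧ f l ≠ 1)

theorem mem_exc {y l : ℕ} : l ∈ exc f y ↔ l ≤ y ∧ l.Prime ∧ f l ≠ 1 := by
  classical
  unfold exc
  rw [mem_filter, mem_range, Nat.lt_succ_iff]

/-- Vinogradov's inequality for the modified function -/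
theorem vinG (hf : CM f) (y X : ℕ) :
    (X : ℝ) * (1 - 2 * ∑ p ∈ (Ioc y X).filter Nat.Prime, (1 : ℝ) / p) ≤ |G f (exc f y) X| := by
  classical
  set L := (Ioc y X).filter Nat.Prime with hL
  have hpt : ∀ m ∈ Icc 1 X, (1 : ℝ) - 2 * ((L.filter fun l => l ∣ m).card : ℝ) ≤
      gS f (exc f y) m := by
    intro m hm
    have hm1 := (mem_Icc.1 hm).1
    have hm2 := (mem_Icc.1 hm).2
    by_cases hall : ∀ l : ℕ, l.Prime → l ∣ m → gv f (exc f y) l = 1
    · rw [gS_good _ hall]
      have : (0 : ℝ) ≤ ((L.filter fun l => l ∣ m).card : ℝ) := Nat.cast_nonneg _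
      linarith
    · push Not at hall
      obtain ⟨l, hl, hd, hne⟩ := hall
      have hlS : l ∉ exc f y := by
        intro h
        exact hne (by simp [gv, h])
      have hne2 : f l ≠ 1 := by
        intro h
        exact hne (by simp [gv, hlS, h])
      have hlm : l ∈ L.filter fun l => l ∣ m := by
        rw [mem_filter, hL, mem_filter, mem_Ioc]
        refine ⟨⟨⟨?_, ?_⟩, hl⟩, hd⟩
        · by_contra hc
          apply hlS
          rw [mem_exc]
          exact ⟨by omega, hl, hne2⟩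
        · exact (Nat.le_of_dvd (by omega) hd).trans hm2
      have hc : (1 : ℝ) ≤ ((L.filter fun l => l ∣ m).card : ℝ) := by
        exact_mod_cast Finset.card_pos.2 ⟨l, hlm⟩
      have h2 := (abs_le.1 (gS_norm_le hf (exc f y) m)).1
      linarith
  have hsum : (∑ m ∈ Icc 1 X, ((1 : ℝ) - 2 * ((L.filter fun l => l ∣ m).card : ℝ))) ≤
      G f (exc f y) X := by
    unfold G
    exact sum_le_sum hpt
  have hcount : (∑ m ∈ Icc 1 X, ((L.filter fun l => l ∣ m).card : ℝ)) ≤ X * ∑ p ∈ L, (1 : ℝ) / p := by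
    have e1 : (∑ m ∈ Icc 1 X, ((L.filter fun l => l ∣ m).card : ℝ)) =
        ∑ l ∈ L, (((Icc 1 X).filter fun m => l ∣ m).card : ℝ) := by
      simp only [Finset.card_filter, Nat.cast_sum]
      rw [sum_comm]
    rw [e1, mul_sum]
    refine sum_le_sum fun l hl => ?_
    have hcard : ((Icc 1 X).filter fun m => l ∣ m).card = X / l := by
      have h := Nat.Ioc_filter_dvd_card_eq_div X l
      rw [← h]
      congr 1
    rw [hcard]
    have := @Nat.cast_div_le ℝ _ _ _ X l
    calc ((X / l : ℕ) : ℝ) ≤ (X : ℝ) / l := this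
      _ = X * (1 / (l : ℝ)) := by ring
  have htot : (∑ m ∈ Icc 1 X, ((1 : ℝ) - 2 * ((L.filter fun l => l ∣ m).card : ℝ))) =
      X - 2 * ∑ m ∈ Icc 1 X, ((L.filter fun l => l ∣ m).card : ℝ) := by
    rw [sum_sub_distrib, ← mul_sum]
    simp
  have hre : G f (exc f y) X ≤ |G f (exc f y) X| := le_abs_self _
  nlinarith [hsum, hcount, htot, hre]

end Pool.Agent.K1H79.QR
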